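import Pool.Agent.W_MP_e98908_an_h89.Defs

/-!
# MP_e98908_an : hierarchical laminates of two isotropic phases

Phase 1 has conductivity `σ`, phase 2 has conductivity `1`.
-/

namespace W_MP_e98908_an

open Matrix Complex Topology Filter

theorem layer_diagonal (i : Fin 3) (θ : ℝ) (a b : Fin 3 → ℂ)
    (h : (1 - θ : ℂ) * a i + θ * b i ≠ 0) :
    layer (Pi.single i 1) θ (diagonal a) (diagonal b) =
      diagonal (fun j => if j = i then a i * b i / ((1 - θ : ℂ) * a i + θ * b i)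
        else θ * a j + (1 - θ : ℂ) * b j) := by
  have hn : (fun j => ((Pi.single i 1 : Fin 3 → ℝ) j : ℂ)) = Pi.single i 1 := by
    ext j
    by_cases hj : j = i
    · subst hj; simp
    · simp [hj]
  unfold layer
  rw [hn]
  have hden : (Pi.single i 1 : Fin 3 → ℂ) ⬝ᵥ (((1 - θ : ℂ) • diagonal a + (θ : ℂ) • diagonal b) *ᵥ
      (Pi.single i 1 : Fin 3 → ℂ)) = (1 - θ : ℂ) * a i + θ * b i := by
    simp
  rw [hden]
  ext j k
  by_cases hjk : j = k
  · subst hjk
    by_cases hji : j = i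
    · subst hji
      simp only [Matrix.sub_apply, Matrix.add_apply, Matrix.smul_apply, diagonal_apply_eq, smul_eq_mul, vecMulVec_apply,
        if_true]
      have e1 : ((diagonal a - diagonal b) *ᵥ (Pi.single j 1 : Fin 3 → ℂ)) j = a j - b j := by simp
      have e2 : ((Pi.single j 1 : Fin 3 → ℂ) ᵥ* (diagonal a - diagonal b)) j = a j - b j := by simp
      rw [e1, e2]
      generalize hw : (1 - θ : ℂ) * a j + θ * b j = w at h
      have e : (θ * a j + (1 - θ) * b j) * w - θ * (1 - θ) * ((a j - b j) * (a j - b j)) =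
          a j * b j := by rw [← hw]; ring
      rw [eq_div_iff h, sub_mul, ← e]
      congr 1
      field_simp
    · simp only [Matrix.sub_apply, Matrix.add_apply, Matrix.smul_apply, diagonal_apply_eq, smul_eq_mul, vecMulVec_apply]
      have e1 : ((diagonal a - diagonal b) *ᵥ (Pi.single i 1 : Fin 3 → ℂ)) j = 0 := by
        simp [hji]
      rw [e1]
      simp [hji]
  · simp only [Matrix.sub_apply, Matrix.add_apply, Matrix.smul_apply, smul_eq_mul, vecMulVec_apply]
    rw [diagonal_apply_ne _ hjk, diagonal_apply_ne _ hjk, diagonal_apply_ne _ hjk]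
    by_cases hji : j = i
    · subst hji
      have e2 : ((Pi.single j 1 : Fin 3 → ℂ) ᵥ* (diagonal a - diagonal b)) k = 0 := by
        simp [Ne.symm hjk]
      rw [e2]; simp
    · have e1 : ((diagonal a - diagonal b) *ᵥ (Pi.single i 1 : Fin 3 → ℂ)) j = 0 := by
        simp [hji]
      rw [e1]; simp

/-! ### half planes -/

/-- `z` lies in the open half plane determined by `κ`. -/
def HP (κ z : ℂ) : Prop := 0 < (κ * z).re

theorem HP.ne_zero {κ z : ℂ} (h : HP κ z) : z ≠ 0 := by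
  rintro rfl
  simp [HP] at h

theorem HP.add {κ a b : ℂ} (ha : HP κ a) (hb : HP κ b) : HP κ (a + b) := by
  unfold HP at *
  rw [mul_add, add_re]
  linarith

theorem HP.smul {κ a : ℂ} (ha : HP κ a) {t : ℝ} (ht : 0 < t) : HP κ (t * a) := by
  unfold HP at *
  have : (κ * (t * a)).re = t * (κ * a).re := by
    rw [show κ * (t * a) = (t : ℂ) * (κ * a) by ring, re_ofReal_mul]
  rw [this]; positivity

theorem HP.comb {κ a b : ℂ} (ha : HP κ a) (hb : HP κ b) {θ : ℝ} (h0 : 0 ≤ θ) (h1 : θ ≤ 1) :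
    HP κ ((θ : ℂ) * a + (1 - θ : ℂ) * b) := by
  rcases h0.eq_or_lt with h | h
  · rw [← h]; simpa using hb
  · rcases h1.eq_or_lt with h' | h'
    · rw [h']; simpa using ha
    · have := (ha.smul h).add (hb.smul (sub_pos.2 h'))
      simpa using this

theorem HP.comb' {κ a b : ℂ} (ha : HP κ a) (hb : HP κ b) {θ : ℝ} (h0 : 0 ≤ θ) (h1 : θ ≤ 1) :
    HP κ ((1 - θ : ℂ) * a + (θ : ℂ) * b) := by
  have := hb.comb ha h0 h1
  rwa [add_comm] at this

/-- the half plane is closed under harmonic means. -/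
theorem HP.harm {κ a b : ℂ} (ha : HP κ a) (hb : HP κ b) {θ : ℝ} (h0 : 0 ≤ θ) (h1 : θ ≤ 1) :
    HP κ (a * b / ((1 - θ : ℂ) * a + (θ : ℂ) * b)) := by
  have hw := ha.comb' hb h0 h1
  have ha0 := ha.ne_zero
  have hb0 := hb.ne_zero
  have hw0 := hw.ne_zero
  set w : ℂ := (1 - θ : ℂ) * a + (θ : ℂ) * b with hwdef
  have hna : 0 < normSq a := normSq_pos.2 ha0
  have hnb : 0 < normSq b := normSq_pos.2 hb0
  have hnw : 0 < normSq w := normSq_pos.2 hw0
  have key : κ * (a * b / w) = ((normSq w)⁻¹ : ℝ) * (((1 - θ) * normSq a : ℝ) * (κ * b) +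
      ((θ * normSq b : ℝ) * (κ * a))) := by
    have e : a * b * (starRingEnd ℂ) w = ((1 - θ) * normSq a : ℝ) * b + (θ * normSq b : ℝ) * a := by
      rw [hwdef]
      push_cast
      rw [← mul_conj, ← mul_conj]
      simp only [map_add, map_mul, map_sub, map_one, conj_ofReal]
      ring
    have e2 : a * b / w = ((normSq w)⁻¹ : ℝ) * (a * b * (starRingEnd ℂ) w) := by
      push_cast
      rw [← mul_conj]
      have hc : (starRingEnd ℂ) w ≠ 0 := by simpa using hw0
      field_simp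
    rw [e2, e]
    ring
  unfold HP at *
  rw [key, re_ofReal_mul, add_re, re_ofReal_mul, re_ofReal_mul]
  apply mul_pos (inv_pos.2 hnw)
  rcases h0.eq_or_lt with h | h
  · rw [← h]; simp; positivity
  · rcases h1.eq_or_lt with h' | h'
    · rw [h']; simp; positivity
    · have := sub_pos.2 h'
      positivity

/-- a direction `κ` whose half plane contains `1` and `σ`. -/
noncomputable def kap (σ : ℂ) : ℂ := 1 + (starRingEnd ℂ) σ / (‖σ‖ : ℂ)

theorem hp_one {σ : ℂ} (hσ : σ ∈ slitPlane) : HP (kap σ) 1 := by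
  have hσ0 : σ ≠ 0 := slitPlane_ne_zero hσ
  have hn : 0 < ‖σ‖ := norm_pos_iff.2 hσ0
  unfold HP kap
  rw [mul_one, add_re, one_re]
  have : ((starRingEnd ℂ) σ / (‖σ‖ : ℂ)).re = σ.re / ‖σ‖ := by
    rw [div_ofReal_re, conj_re]
  rw [this]
  have h1 : -‖σ‖ < σ.re := by
    rcases (abs_le.1 (abs_re_le_norm σ)).1.eq_or_lt with h | h
    · exfalso
      have h2 : σ.im = 0 := by
        have := Complex.sq_norm σ
        rw [normSq_apply] at this
        nlinarith
      rcases mem_slitPlane_iff.1 hσ with h3 | h3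
      · rw [← h] at h3; linarith
      · exact h3 h2
    · exact h
  have h3 : -1 < σ.re / ‖σ‖ := by
    rw [lt_div_iff₀ hn]; linarith
  linarith

theorem hp_self {σ : ℂ} (hσ : σ ∈ slitPlane) : HP (kap σ) σ := by
  have hσ0 : σ ≠ 0 := slitPlane_ne_zero hσ
  have hn : 0 < ‖σ‖ := norm_pos_iff.2 hσ0
  have h := hp_one hσ
  unfold HP at *
  have e : kap σ * σ = (‖σ‖ : ℂ) * (starRingEnd ℂ) (kap σ * 1) := by
    unfold kap
    simp only [mul_one, map_add, map_one, map_div₀, conj_conj, conj_ofReal]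
    have hn' : (‖σ‖ : ℂ) ≠ 0 := by exact_mod_cast hn.ne'
    field_simp
    rw [add_mul, mul_comm ((starRingEnd ℂ) σ) σ, mul_conj, Complex.normSq_eq_norm_sq]
    push_cast
    ring
  rw [e, re_ofReal_mul, conj_re]
  positivity

/-- `g` is the conductivity function (on the slit plane) of an isotropic laminate with directions
in the set of coordinate directions. -/
def IsoLam (g : ℂ → ℂ) : Prop :=
  ∃ L : CFun, IsLaminate coordDirs L ∧
    ∀ σ ∈ slitPlane, L σ = g σ • (1 : Matrix (Fin 3) (Fin 3) ℂ) ∧ HP (kap σ) (g σ)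

theorem isoLam_phase1 : IsoLam (fun σ => σ) :=
  ⟨_, IsLaminate.phase1, fun _ hσ => ⟨rfl, hp_self hσ⟩⟩

theorem isoLam_phase2 : IsoLam (fun _ => 1) :=
  ⟨_, IsLaminate.phase2, fun _ hσ => ⟨by simp, hp_one hσ⟩⟩

theorem IsoLam.congr {g g' : ℂ → ℂ} (h : IsoLam g) (hg : ∀ σ ∈ slitPlane, g σ = g' σ) :
    IsoLam g' := by
  obtain ⟨L, hL, h⟩ := h
  refine ⟨L, hL, fun σ hσ => ?_⟩
  rw [← hg σ hσ]; exact h σ hσ

/-- pure phases -/
def IsPhase (s : ℂ → ℂ) : Prop := (∀ σ, s σ = σ) ∨ (∀ σ, s σ = 1)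

theorem IsPhase.hp {s : ℂ → ℂ} (hs : IsPhase s) {σ : ℂ} (hσ : σ ∈ slitPlane) :
    HP (kap σ) (s σ) := by
  rcases hs with h | h
  · rw [h]; exact hp_self hσ
  · rw [h]; exact hp_one hσ

theorem IsPhase.lam {s : ℂ → ℂ} (hs : IsPhase s) :
    IsLaminate coordDirs (fun σ => s σ • (1 : Matrix (Fin 3) (Fin 3) ℂ)) := by
  rcases hs with h | h
  · have : s = fun σ => σ := funext h
    rw [this]; exact IsLaminate.phase1
  · have : s = fun _ => 1 := funext h
    rw [this]; simpa using IsLaminate.phase2 (N := coordDirs)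

theorem smul_one_eq_diagonal (z : ℂ) :
    z • (1 : Matrix (Fin 3) (Fin 3) ℂ) = diagonal (fun _ => z) := by
  rw [← diagonal_one, ← diagonal_smul]
  congr 1
  ext
  simp

/-- **Coating.** Coating an isotropic laminate by a pure phase (the coated sphere formula), by three
laminations in the three coordinate directions. -/
theorem IsoLam.coat {g : ℂ → ℂ} (hg : IsoLam g) {s : ℂ → ℂ} (hs : IsPhase s) {p : ℝ}
    (hp0 : 0 < p) (hp1 : p ≤ 1) :
    IsoLam (fun σ => s σ + 3 * p * s σ * (g σ - s σ) / (3 * s σ + (1 - p) * (g σ - s σ))) := by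
  obtain ⟨L, hL, h⟩ := hg
  set a : ℝ := (2 + p) / 3 with ha
  set b : ℝ := (1 + 2 * p) / (2 + p) with hb
  set c : ℝ := 3 * p / (1 + 2 * p) with hc
  have ha0 : 0 ≤ a := by positivity
  have ha1 : a ≤ 1 := by rw [ha, div_le_one (by norm_num)]; linarith
  have hb0 : 0 ≤ b := by positivity
  have hb1 : b ≤ 1 := by rw [hb, div_le_one (by positivity)]; linarith
  have hc0 : 0 ≤ c := by positivity
  have hc1 : c ≤ 1 := by rw [hc, div_le_one (by positivity)]; linarith
  have d0 : (Pi.single 0 1 : Fin 3 → ℝ) ∈ coordDirs := ⟨0, rfl⟩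
  have d1 : (Pi.single 1 1 : Fin 3 → ℝ) ∈ coordDirs := ⟨1, rfl⟩
  have d2 : (Pi.single 2 1 : Fin 3 → ℝ) ∈ coordDirs := ⟨2, rfl⟩
  refine ⟨_, IsLaminate.layer d2 hc0 hc1 (IsLaminate.layer d1 hb0 hb1
    (IsLaminate.layer d0 ha0 ha1 hL hs.lam) hs.lam) hs.lam, ?_⟩
  intro σ hσ
  obtain ⟨hLσ, hgσ⟩ := h σ hσ
  have hsσ := hs.hp hσ
  set G : ℂ := g σ with hG
  set S : ℂ := s σ with hS
  set K : ℂ := kap σ with hK
  -- the three stages
  have h1 : HP K ((1 - a : ℂ) * G + (a : ℂ) * S) := hgσ.comb' hsσ ha0 ha1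
  have hx1 : HP K (G * S / ((1 - a : ℂ) * G + (a : ℂ) * S)) := hgσ.harm hsσ ha0 ha1
  have hy1 : HP K ((a : ℂ) * G + (1 - a : ℂ) * S) := hgσ.comb hsσ ha0 ha1
  set x1 : ℂ := G * S / ((1 - a : ℂ) * G + (a : ℂ) * S) with hx1d
  set y1 : ℂ := (a : ℂ) * G + (1 - a : ℂ) * S with hy1d
  have h2 : HP K ((1 - b : ℂ) * y1 + (b : ℂ) * S) := hy1.comb' hsσ hb0 hb1
  have hz2 : HP K (y1 * S / ((1 - b : ℂ) * y1 + (b : ℂ) * S)) := hy1.harm hsσ hb0 hb1
  have hw2 : HP K ((b : ℂ) * y1 + (1 - b : ℂ) * S) := hy1.comb hsσ hb0 hb1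
  set w2 : ℂ := (b : ℂ) * y1 + (1 - b : ℂ) * S with hw2d
  have h3 : HP K ((1 - c : ℂ) * w2 + (c : ℂ) * S) := hw2.comb' hsσ hc0 hc1
  have hfin : HP K (w2 * S / ((1 - c : ℂ) * w2 + (c : ℂ) * S)) := hw2.harm hsσ hc0 hc1
  have e1 : layer (Pi.single 0 1) a (L σ) (S • (1 : Matrix (Fin 3) (Fin 3) ℂ)) =
      diagonal (fun j => if j = 0 then x1 else y1) := by
    rw [hLσ, smul_one_eq_diagonal, smul_one_eq_diagonal, layer_diagonal 0 a _ _ h1.ne_zero]
  have e2 : layer (Pi.single 1 1) b (diagonal (fun j => if j = 0 then x1 else y1))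
      (S • (1 : Matrix (Fin 3) (Fin 3) ℂ)) =
      diagonal (fun j => if j = 1 then y1 * S / ((1 - b : ℂ) * y1 + (b : ℂ) * S) else
        (b : ℂ) * (if j = 0 then x1 else y1) + (1 - b : ℂ) * S) := by
    rw [smul_one_eq_diagonal, layer_diagonal 1 b _ _ (by simpa using h2.ne_zero)]
    simp
  have e3 : layer (Pi.single 2 1) c (diagonal (fun j => if j = 1 then
        y1 * S / ((1 - b : ℂ) * y1 + (b : ℂ) * S) else
        (b : ℂ) * (if j = 0 then x1 else y1) + (1 - b : ℂ) * S))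
      (S • (1 : Matrix (Fin 3) (Fin 3) ℂ)) =
      diagonal (fun j => if j = 2 then w2 * S / ((1 - c : ℂ) * w2 + (c : ℂ) * S) else
        (c : ℂ) * (if j = 1 then y1 * S / ((1 - b : ℂ) * y1 + (b : ℂ) * S) else
        (b : ℂ) * (if j = 0 then x1 else y1) + (1 - b : ℂ) * S) + (1 - c : ℂ) * S) := by
    rw [smul_one_eq_diagonal, layer_diagonal 2 c _ _ (by simpa [hw2d] using h3.ne_zero)]
    simp [hw2d]
  have hp2 : (2 + p : ℂ) ≠ 0 := by
    have : (2 + p : ℝ) ≠ 0 := by positivity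
    exact_mod_cast this
  have hp3 : (1 + 2 * p : ℂ) ≠ 0 := by
    have : (1 + 2 * p : ℝ) ≠ 0 := by positivity
    exact_mod_cast this
  have hac : (a : ℂ) = (2 + p) / 3 := by rw [ha]; push_cast; ring
  have hbc : (b : ℂ) = (1 + 2 * p) / (2 + p) := by rw [hb]; push_cast; ring
  have hcc : (c : ℂ) = 3 * p / (1 + 2 * p) := by rw [hc]; push_cast; ring
  have hac' : (1 - a : ℂ) = (1 - p) / 3 := by rw [hac]; ring
  have hbc' : (1 - b : ℂ) = (1 - p) / (2 + p) := by
    rw [hbc, eq_div_iff hp2, sub_mul, div_mul_cancel₀ _ hp2]; ring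
  have hcc' : (1 - c : ℂ) = (1 - p) / (1 + 2 * p) := by
    rw [hcc, eq_div_iff hp3, sub_mul, div_mul_cancel₀ _ hp3]; ring
  have hy1e : y1 = ((2 + p) * G + (1 - p) * S) / 3 := by rw [hy1d, hac', hac]; ring
  have hw2e : w2 = ((1 + 2 * p) * G + 2 * (1 - p) * S) / 3 := by
    rw [hw2d, hy1e, hbc', hbc]; field_simp; ring
  have hden : (3 * S + (1 - p) * (G - S)) / 3 = (1 - a : ℂ) * G + (a : ℂ) * S := by
    rw [hac]; ring
  have hden0 : 3 * S + (1 - p) * (G - S) ≠ 0 := by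
    intro h0
    apply h1.ne_zero
    rw [← hden, h0]; simp
  have k2 : (1 - b : ℂ) * y1 + (b : ℂ) * S = (3 * S + (1 - p) * (G - S)) / 3 := by
    rw [hy1e, hbc', hbc]; field_simp; ring
  have k3 : (1 - c : ℂ) * w2 + (c : ℂ) * S = (3 * S + (1 - p) * (G - S)) / 3 := by
    rw [hw2e, hcc', hcc]
    generalize hP : (1 + 2 * (p : ℂ)) = P at hp3 ⊢
    field_simp
    rw [← hP]; ring
  set T : ℂ := S + 3 * p * S * (G - S) / (3 * S + (1 - p) * (G - S)) with hT
  have v2 : w2 * S / ((1 - c : ℂ) * w2 + (c : ℂ) * S) = T := by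
    rw [k3, hT, hw2e]
    generalize hD : 3 * S + (1 - p) * (G - S) = D at hden0
    field_simp
    rw [← hD]; ring
  have v1 : (c : ℂ) * (y1 * S / ((1 - b : ℂ) * y1 + (b : ℂ) * S)) + (1 - c : ℂ) * S = T := by
    rw [k2, hT, hy1e, hcc', hcc]
    generalize hD : 3 * S + (1 - p) * (G - S) = D at hden0
    generalize hP : (1 + 2 * (p : ℂ)) = P at hp3 ⊢
    field_simp
    rw [← hD, ← hP]; ring
  have v0 : (c : ℂ) * ((b : ℂ) * x1 + (1 - b : ℂ) * S) + (1 - c : ℂ) * S = T := by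
    rw [hx1d, ← hden, hT, hbc', hcc', hbc, hcc]
    generalize hD : 3 * S + (1 - p) * (G - S) = D at hden0
    generalize hP : (1 + 2 * (p : ℂ)) = P at hp3 ⊢
    generalize hQ : (2 + (p : ℂ)) = Q at hp2 ⊢
    field_simp
    rw [← hD, ← hP, ← hQ]; ring
  refine ⟨?_, ?_⟩
  · show layer (Pi.single 2 1) c (layer (Pi.single 1 1) b (layer (Pi.single 0 1) a (L σ)
      (S • 1)) (S • 1)) (S • 1) = T • 1
    rw [e1, e2, e3, smul_one_eq_diagonal]
    congr 1
    ext j
    fin_cases j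
    · simpa using v0
    · simpa using v1
    · simpa using v2
  · show HP K T
    rw [← v2]; exact hfin

end W_MP_e98908_an
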