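import Pool.Agent.W_MP_e98908_an_h89.Lam

/-!
# Rational complete Bernstein functions and their reciprocals
-/

namespace W_MP_e98908_an

open Complex

/-- data of the function `b + c z + ∑ₖ wₖ z / (z + dₖ)` -/
structure CB (n : ℕ) where
  b : ℝ
  c : ℝ
  w : Fin n → ℝ
  d : Fin n → ℝ
  hb : 0 ≤ b
  hc : 0 ≤ c
  hw : ∀ k, 0 ≤ w k
  hd : ∀ k, 0 < d k

namespace CB

variable {n : ℕ}

/-- the value -/
noncomputable def eval (q : CB n) (z : ℂ) : ℂ :=
  q.b + q.c * z + ∑ k, (q.w k : ℂ) * z / (z + q.d k)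

/-- the Stieltjes function `c + ∑ₖ wₖ / (z + dₖ)` -/
noncomputable def st (q : CB n) (z : ℂ) : ℂ :=
  q.c + ∑ k, (q.w k : ℂ) / (z + q.d k)

theorem eval_eq (q : CB n) (z : ℂ) : q.eval z = q.b + z * q.st z := by
  unfold eval st
  rw [mul_add, Finset.mul_sum, add_assoc]
  congr 1
  congr 1
  · ring
  · exact Finset.sum_congr rfl fun k _ => by ring

/-- multiplication by a nonnegative scalar -/
noncomputable def smul (q : CB n) (t : ℝ) (ht : 0 ≤ t) : CB n where
  b := t * q.b
  c := t * q.c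
  w := fun k => t * q.w k
  d := q.d
  hb := mul_nonneg ht q.hb
  hc := mul_nonneg ht q.hc
  hw := fun k => mul_nonneg ht (q.hw k)
  hd := q.hd

theorem smul_eval (q : CB n) (t : ℝ) (ht : 0 ≤ t) (z : ℂ) :
    (q.smul t ht).eval z = t * q.eval z := by
  unfold eval smul
  simp only [mul_add, Finset.mul_sum]
  push_cast
  congr 1
  · ring
  · exact Finset.sum_congr rfl fun k _ => by ring

/-- nonconstant -/
def Nontriv (q : CB n) : Prop := 0 < q.c ∨ ∃ k, 0 < q.w k

theorem re_term_pos {l z : ℂ} {d : ℝ} (hd : 0 < d) (hz : z + d ≠ 0) (hl : 0 < l.re)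
    (hlz : 0 < (l * z).re) (hz0 : z ≠ 0) : 0 < (l * (z / (z + d))).re := by
  have hn : 0 < normSq (z + d) := normSq_pos.2 hz
  have hz1 : 0 < normSq z := normSq_pos.2 hz0
  have key : l * (z / (z + d)) = ((normSq (z + d))⁻¹ : ℝ) * ((normSq z : ℝ) * l + (d : ℝ) * (l * z)) := by
    push_cast
    rw [← mul_conj, ← mul_conj]
    have hc : (starRingEnd ℂ) (z + d) ≠ 0 := (map_ne_zero _).2 hz
    have : z / (z + d) = (((z + d) * (starRingEnd ℂ) (z + d)))⁻¹ * (z * (starRingEnd ℂ) (z + d)) := by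
      field_simp
    rw [this, map_add, conj_ofReal]
    ring
  rw [key, re_ofReal_mul, add_re, re_ofReal_mul, re_ofReal_mul]
  positivity

theorem re_eval_nonneg (q : CB n) {l z : ℂ} (hz : z ∈ slitPlane) (hl : 0 < l.re)
    (hlz : 0 < (l * z).re) : 0 ≤ (l * q.eval z).re := by
  have hz0 := slitPlane_ne_zero hz
  have hzd : ∀ d : ℝ, 0 < d → z + d ≠ 0 := by
    intro d hd h
    have : z = ((-d : ℝ) : ℂ) := by push_cast; exact eq_neg_of_add_eq_zero_left h
    rw [this, ofReal_mem_slitPlane] at hz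
    linarith
  have e : l * q.eval z = (q.b : ℝ) * l + (q.c : ℝ) * (l * z) +
      ∑ k, (q.w k : ℝ) * (l * (z / (z + q.d k))) := by
    unfold eval
    rw [mul_add, mul_add, Finset.mul_sum]
    congr 1
    · ring
    · exact Finset.sum_congr rfl fun k _ => by ring
  rw [e, add_re, add_re, re_ofReal_mul, re_ofReal_mul, re_sum]
  have h1 : 0 ≤ ∑ k, ((q.w k : ℂ) * (l * (z / (z + q.d k)))).re := by
    apply Finset.sum_nonneg
    intro k _
    rw [re_ofReal_mul]
    exact mul_nonneg (q.hw k) (re_term_pos (q.hd k) (hzd _ (q.hd k)) hl hlz hz0).le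
  have h2 := mul_nonneg q.hb hl.le
  have h3 := mul_nonneg q.hc hlz.le
  linarith

theorem re_zst_pos (q : CB n) (hq : q.Nontriv) {l z : ℂ} (hz : z ∈ slitPlane) (hl : 0 < l.re)
    (hlz : 0 < (l * z).re) : 0 < (l * (z * q.st z)).re := by
  have hz0 := slitPlane_ne_zero hz
  have hzd : ∀ d : ℝ, 0 < d → z + d ≠ 0 := by
    intro d hd h
    have : z = ((-d : ℝ) : ℂ) := by push_cast; exact eq_neg_of_add_eq_zero_left h
    rw [this, ofReal_mem_slitPlane] at hz
    linarith
  have e : l * (z * q.st z) = (q.c : ℝ) * (l * z) +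
      ∑ k, (q.w k : ℝ) * (l * (z / (z + q.d k))) := by
    unfold st
    rw [mul_add, mul_add, Finset.mul_sum, Finset.mul_sum]
    congr 1
    · ring
    · exact Finset.sum_congr rfl fun k _ => by ring
  rw [e, add_re, re_ofReal_mul, re_sum]
  have hterm : ∀ k, 0 ≤ ((q.w k : ℂ) * (l * (z / (z + q.d k)))).re := by
    intro k
    rw [re_ofReal_mul]
    exact mul_nonneg (q.hw k) (re_term_pos (q.hd k) (hzd _ (q.hd k)) hl hlz hz0).le
  have h3 := mul_nonneg q.hc hlz.le
  rcases hq with h | ⟨k, hk⟩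
  · have h4 := mul_pos h hlz
    have h1 : 0 ≤ ∑ k, ((q.w k : ℂ) * (l * (z / (z + q.d k)))).re :=
      Finset.sum_nonneg fun k _ => hterm k
    linarith
  · have h1 : 0 < ∑ k, ((q.w k : ℂ) * (l * (z / (z + q.d k)))).re := by
      refine Finset.sum_pos' (fun k _ => hterm k) ⟨k, Finset.mem_univ _, ?_⟩
      rw [re_ofReal_mul]
      exact mul_pos hk (re_term_pos (q.hd k) (hzd _ (q.hd k)) hl hlz hz0)
    linarith

end CB

/-! ### reciprocals -/

/-- Woodbury: reciprocal of `c + ∑ wₖ/(z+dₖ)`, `c > 0`, in terms of the eigenvalues of the matrix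
`diag d + v vᵀ / c`, `vₖ² = wₖ`. -/
theorem recip_aux {n : ℕ} {c : ℝ} (hc : 0 < c) (w d : Fin n → ℝ) (hw : ∀ k, 0 ≤ w k) :
    ∃ (a l : Fin n → ℝ), (∀ j, 0 ≤ a j) ∧
      (∀ m : ℝ, (∀ k, m ≤ d k) → ∀ j, m ≤ l j) ∧
      (∀ M : ℝ, (∀ k, w k ≠ 0 → d k < M) → (∀ k, d k ≤ M) →
        (∑ k, w k / (M - d k)) ≤ c → ∀ j, l j ≤ M) ∧
      ∀ z : ℂ, (∀ k, z + d k ≠ 0) → (∀ j, z + l j ≠ 0) → (c : ℂ) + ∑ k, (w k : ℂ) / (z + d k) ≠ 0 →
        ((c : ℂ) + ∑ k, (w k : ℂ) / (z + d k))⁻¹ = (c : ℂ)⁻¹ - ∑ j, (a j : ℂ) / (z + l j) := by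
  classical
  set v : Fin n → ℝ := fun k => Real.sqrt (w k) with hv
  have hv2 : ∀ k, v k * v k = w k := fun k => Real.mul_self_sqrt (hw k)
  set T : Matrix (Fin n) (Fin n) ℝ := Matrix.diagonal d + c⁻¹ • Matrix.vecMulVec v v with hT
  have hTh : T.IsHermitian := by
    rw [hT]
    ext i j
    simp only [Matrix.conjTranspose_apply, Matrix.add_apply, Matrix.smul_apply,
      Matrix.vecMulVec_apply, star_trivial, smul_eq_mul]
    rw [mul_comm (v j) (v i)]
    congr 1
    by_cases hij : i = j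
    · rw [hij]
    · rw [Matrix.diagonal_apply_ne _ hij, Matrix.diagonal_apply_ne _ (Ne.symm hij)]
  set e := hTh.eigenvectorBasis with he
  set l : Fin n → ℝ := hTh.eigenvalues with hl
  have hTe : ∀ j k, d k * e j k + c⁻¹ * (v k * (∑ i, v i * e j i)) = l j * e j k := by
    intro j k
    have := congrFun (hTh.mulVec_eigenvectorBasis j) k
    simp only [hT, Matrix.add_mulVec, Pi.add_apply, Matrix.mulVec_diagonal, Pi.smul_apply,
      smul_eq_mul] at this
    rw [← this]
    congr 1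
    rw [Matrix.smul_mulVec, Pi.smul_apply, smul_eq_mul]
    congr 1
    simp only [Matrix.mulVec, dotProduct, Matrix.vecMulVec_apply, Finset.mul_sum]
    exact Finset.sum_congr rfl fun i _ => by ring
  set β : Fin n → ℝ := fun j => ∑ i, v i * e j i with hβ
  have hvexp : ∀ k, v k = ∑ j, β j * e j k := by
    intro k
    have h1 := e.sum_repr (WithLp.toLp 2 v : EuclideanSpace ℝ (Fin n))
    have h2 : (∑ i, (e.repr (WithLp.toLp 2 v)).ofLp i • e i).ofLp k = v k := by rw [h1]
    rw [← h2]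
    simp only [WithLp.ofLp_sum, WithLp.ofLp_smul, Finset.sum_apply, Pi.smul_apply, smul_eq_mul]
    refine Finset.sum_congr rfl fun j _ => ?_
    congr 1
    rw [OrthonormalBasis.repr_apply_apply]
    simp only [PiLp.inner_apply, RCLike.inner_apply, conj_trivial, hβ]
  -- quadratic form of `e j`
  have hnorm : ∀ j, ∑ k, e j k * e j k = 1 := by
    intro j
    have h1 : inner ℝ (e j) (e j) = (1 : ℝ) := by
      rw [real_inner_self_eq_norm_sq, e.norm_eq_one]; norm_num
    rw [← h1]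
    simp only [PiLp.inner_apply, RCLike.inner_apply, conj_trivial]
  have hquad : ∀ j, l j = ∑ k, d k * (e j k * e j k) + c⁻¹ * (β j * β j) := by
    intro j
    have h1 : l j * ∑ k, e j k * e j k = ∑ k, (l j * e j k) * e j k := by
      rw [Finset.mul_sum]; exact Finset.sum_congr rfl fun k _ => by ring
    rw [hnorm, mul_one] at h1
    rw [h1]
    have h2 : ∀ k, (l j * e j k) * e j k = d k * (e j k * e j k) + c⁻¹ * (β j * (v k * e j k)) := by
      intro k
      rw [← hTe j k]; simp only [hβ]; ring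
    rw [Finset.sum_congr rfl fun k _ => h2 k, Finset.sum_add_distrib]
    congr 1
    rw [← Finset.mul_sum, ← Finset.mul_sum]
  refine ⟨fun j => β j ^ 2 / c ^ 2, l, fun j => by positivity, ?_, ?_, ?_⟩
  · intro m hm j
    rw [hquad j]
    have h1 : m = ∑ k, m * (e j k * e j k) := by rw [← Finset.mul_sum, hnorm, mul_one]
    have h2 : ∑ k, m * (e j k * e j k) ≤ ∑ k, d k * (e j k * e j k) :=
      Finset.sum_le_sum fun k _ => mul_le_mul_of_nonneg_right (hm k) (mul_self_nonneg _)
    have h3 : 0 ≤ c⁻¹ * (β j * β j) := mul_nonneg (inv_nonneg.2 hc.le) (mul_self_nonneg _)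
    linarith
  · intro M hM1 hM2 hM3 j
    rw [hquad j]
    -- Cauchy-Schwarz
    have h1 : β j * β j ≤ (∑ k, w k / (M - d k)) * ∑ k, (M - d k) * (e j k * e j k) := by
      have := Finset.sum_mul_sq_le_sq_mul_sq Finset.univ
        (fun k => v k / Real.sqrt (M - d k)) (fun k => Real.sqrt (M - d k) * e j k)
      have e1 : ∑ k, v k / Real.sqrt (M - d k) * (Real.sqrt (M - d k) * e j k) = β j := by
        refine Finset.sum_congr rfl fun k _ => ?_
        by_cases hwk : w k = 0
        · have : v k = 0 := by simp [hv, hwk]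
          rw [this]; ring
        · have h0 : 0 < M - d k := sub_pos.2 (hM1 k hwk)
          have : Real.sqrt (M - d k) ≠ 0 := (Real.sqrt_pos.2 h0).ne'
          field_simp
      have e2 : ∑ k, (v k / Real.sqrt (M - d k)) ^ 2 = ∑ k, w k / (M - d k) := by
        refine Finset.sum_congr rfl fun k _ => ?_
        rw [div_pow, Real.sq_sqrt (sub_nonneg.2 (hM2 k)), sq, hv2]
      have e3 : ∑ k, (Real.sqrt (M - d k) * e j k) ^ 2 = ∑ k, (M - d k) * (e j k * e j k) := by
        refine Finset.sum_congr rfl fun k _ => ?_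
        rw [mul_pow, Real.sq_sqrt (sub_nonneg.2 (hM2 k))]; ring
      rw [e1, e2, e3] at this
      rw [← sq]; exact this
    have h2 : ∑ k, (M - d k) * (e j k * e j k) = M - ∑ k, d k * (e j k * e j k) := by
      have : ∑ k, (M - d k) * (e j k * e j k) = ∑ k, (M * (e j k * e j k) - d k * (e j k * e j k)) :=
        Finset.sum_congr rfl fun k _ => by ring
      rw [this, Finset.sum_sub_distrib, ← Finset.mul_sum, hnorm, mul_one]
    have h3 : 0 ≤ ∑ k, (M - d k) * (e j k * e j k) :=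
      Finset.sum_nonneg fun k _ => mul_nonneg (sub_nonneg.2 (hM2 k)) (mul_self_nonneg _)
    have h4 : c⁻¹ * (β j * β j) ≤ ∑ k, (M - d k) * (e j k * e j k) := by
      rw [inv_mul_le_iff₀ hc]
      exact h1.trans (mul_le_mul_of_nonneg_right hM3 h3)
    linarith
  · intro z hz1 hz2 hr
    -- the solution of `(T + z) x = v`
    set x : Fin n → ℂ := fun k => ∑ j, (β j : ℂ) / (z + l j) * (e j k : ℂ) with hx
    set t : ℂ := ∑ k, (v k : ℂ) * x k with ht
    have hcC : (c : ℂ) ≠ 0 := by exact_mod_cast hc.ne'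
    have htβ : t = ∑ j, (β j : ℂ) ^ 2 / (z + l j) := by
      rw [ht]
      simp only [hx, Finset.mul_sum]
      rw [Finset.sum_comm]
      refine Finset.sum_congr rfl fun j _ => ?_
      have : (β j : ℂ) = ∑ k, (v k : ℂ) * (e j k : ℂ) := by
        simp only [hβ]; push_cast; rfl
      have h5 : ∑ k, (v k : ℂ) * ((β j : ℂ) / (z + l j) * (e j k : ℂ)) =
          (β j : ℂ) / (z + l j) * ∑ k, (v k : ℂ) * (e j k : ℂ) := by
        rw [Finset.mul_sum]; exact Finset.sum_congr rfl fun k _ => by ring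
      rw [h5, ← this]; ring
    have heq : ∀ k, ((d k : ℂ) + z) * x k + (c : ℂ)⁻¹ * (v k * t) = v k := by
      intro k
      have h6 : ∀ j, ((d k : ℂ) + z) * ((β j : ℂ) / (z + l j) * (e j k : ℂ)) +
          (c : ℂ)⁻¹ * (v k * ((β j : ℂ) ^ 2 / (z + l j))) = (β j : ℂ) * e j k := by
        intro j
        have h7 : (d k : ℂ) * e j k + (c : ℂ)⁻¹ * (v k * β j) = l j * e j k := by
          have := hTe j k
          exact_mod_cast this
        have h8 := hz2 j
        have : ((d k : ℂ) + z) * ((β j : ℂ) / (z + l j) * (e j k : ℂ)) +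
          (c : ℂ)⁻¹ * (v k * ((β j : ℂ) ^ 2 / (z + l j))) =
          (β j : ℂ) / (z + l j) * (((d k : ℂ) * e j k + (c : ℂ)⁻¹ * (v k * β j)) + z * e j k) := by
          ring
        rw [this, h7]
        field_simp
        ring
      have h9 : ((d k : ℂ) + z) * x k + (c : ℂ)⁻¹ * (v k * t) =
          ∑ j, (((d k : ℂ) + z) * ((β j : ℂ) / (z + l j) * (e j k : ℂ)) +
          (c : ℂ)⁻¹ * (v k * ((β j : ℂ) ^ 2 / (z + l j)))) := by
        rw [Finset.sum_add_distrib, htβ]
        simp only [hx, Finset.mul_sum]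
      rw [h9, Finset.sum_congr rfl fun j _ => h6 j]
      rw [hvexp k]; push_cast; rfl
    set r : ℂ := (c : ℂ) + ∑ k, (w k : ℂ) / (z + d k) with hrdef
    have h10 : t = (1 - t / c) * (r - c) := by
      have h11 : ∀ k, (v k : ℂ) * x k = (1 - t / c) * ((w k : ℂ) / (z + d k)) := by
        intro k
        have h12 : x k = (1 - t / c) * v k / (z + d k) := by
          rw [eq_div_iff (hz1 k)]
          have := heq k
          linear_combination this
        rw [h12, ← hv2 k]; push_cast; ring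
      rw [hrdef, add_sub_cancel_left, Finset.mul_sum, ht]
      exact Finset.sum_congr rfl fun k _ => h11 k
    have h13 : t * r = c * (r - c) := by
      have : t * c = (c - t) * (r - c) := by
        have h14 : t * c = (1 - t / c) * (r - c) * c := congrArg (fun y => y * (c : ℂ)) h10
        rw [h14]; field_simp
      linear_combination this
    have h15 : r⁻¹ = (c : ℂ)⁻¹ - t / c ^ 2 := by
      have h16 : r * ((c : ℂ)⁻¹ - t / c ^ 2) = 1 := by
        field_simp
        linear_combination -h13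
      exact (eq_inv_of_mul_eq_one_right h16).symm
    rw [h15, htβ, Finset.sum_div]
    congr 1
    refine Finset.sum_congr rfl fun j _ => ?_
    push_cast
    ring

theorem add_ne_zero_of_slit {z : ℂ} (hz : z ∈ slitPlane) {d : ℝ} (hd : 0 < d) : z + d ≠ 0 := by
  intro h
  have : z = ((-d : ℝ) : ℂ) := by push_cast; exact eq_neg_of_add_eq_zero_left h
  rw [this, ofReal_mem_slitPlane] at hz
  linarith

theorem exists_lower {n : ℕ} (d : Fin n → ℝ) (hd : ∀ k, 0 < d k) : ∃ m : ℝ, 0 < m ∧ ∀ k, m ≤ d k := by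
  rcases isEmpty_or_nonempty (Fin n) with h | h
  · exact ⟨1, one_pos, fun k => (h.false k).elim⟩
  · obtain ⟨k0, hk0⟩ := Finite.exists_min d
    exact ⟨d k0, hd k0, hk0⟩

theorem CB.st_ne_zero {n : ℕ} (q : CB n) (hq : q.Nontriv) {z : ℂ} (hz : z ∈ slitPlane) :
    q.st z ≠ 0 := by
  intro h
  have h1 := hp_one hz
  have h2 := hp_self hz
  unfold HP at h1 h2
  rw [mul_one] at h1
  have := q.re_zst_pos hq hz h1 h2
  rw [h] at this
  simp at this

theorem CB.recip1 {n : ℕ} (q : CB n) (hc : 0 < q.c) :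
    ∃ Q : CB n, Q.c = 0 ∧ ∀ z ∈ slitPlane, Q.eval z = (q.st z)⁻¹ := by
  obtain ⟨a, l, ha, hl, -, hid⟩ := recip_aux hc q.w q.d q.hw
  obtain ⟨m, hm, hmd⟩ := exists_lower q.d q.hd
  have hlpos : ∀ j, 0 < l j := fun j => hm.trans_le (hl m hmd j)
  have hR : 0 < q.c + ∑ k, q.w k / q.d k := by
    have : 0 ≤ ∑ k, q.w k / q.d k := Finset.sum_nonneg fun k _ => div_nonneg (q.hw k) (q.hd k).le
    linarith
  have h0 : (q.c + ∑ k, q.w k / q.d k)⁻¹ = q.c⁻¹ - ∑ j, a j / l j := by
    have e1 : (q.c : ℂ) + ∑ k, (q.w k : ℂ) / (0 + q.d k) = ((q.c + ∑ k, q.w k / q.d k : ℝ) : ℂ) := by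
      push_cast; simp
    have := hid 0 (fun k => by simpa using (q.hd k).ne') (fun j => by simpa using (hlpos j).ne')
      (by rw [e1]; exact_mod_cast hR.ne')
    rw [e1] at this
    have h2 : ((q.c : ℂ)⁻¹ - ∑ j, (a j : ℂ) / (0 + l j)) = ((q.c⁻¹ - ∑ j, a j / l j : ℝ) : ℂ) := by
      push_cast; simp
    rw [h2] at this
    exact_mod_cast this
  refine ⟨⟨q.c⁻¹ - ∑ j, a j / l j, 0, fun j => a j / l j, l, ?_, le_rfl,
    fun j => div_nonneg (ha j) (hlpos j).le, hlpos⟩, rfl, ?_⟩
  · rw [← h0]; positivity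
  · intro z hz
    have hne := q.st_ne_zero (Or.inl hc) hz
    have := hid z (fun k => add_ne_zero_of_slit hz (q.hd k))
      (fun j => add_ne_zero_of_slit hz (hlpos j)) hne
    unfold CB.st
    rw [this]
    unfold CB.eval
    push_cast
    rw [sub_add, sub_add, zero_mul, sub_zero, ← Finset.sum_sub_distrib]
    congr 1
    refine Finset.sum_congr rfl fun j _ => ?_
    have h3 := add_ne_zero_of_slit hz (hlpos j)
    have h4 : (l j : ℂ) ≠ 0 := by exact_mod_cast (hlpos j).ne'
    field_simp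
    ring

theorem CB.recip2 {n : ℕ} (q : CB (n + 1)) (hc : q.c = 0) (hq : q.Nontriv) :
    ∃ Q : CB n, 0 < Q.c ∧ ∀ z ∈ slitPlane, Q.eval z = (q.st z)⁻¹ := by
  obtain ⟨k0, hk0⟩ := Finite.exists_max q.d
  set M : ℝ := q.d k0 with hM
  have hMpos : 0 < M := q.hd k0
  set C : ℝ := ∑ k, q.w k with hC
  have hCpos : 0 < C := by
    rcases hq with h | ⟨k, hk⟩
    · rw [hc] at h; exact absurd h (lt_irrefl _)
    · exact Finset.sum_pos' (fun k _ => q.hw k) ⟨k, Finset.mem_univ _, hk⟩
  set w' : Fin n → ℝ := fun j => q.w (k0.succAbove j) * (M - q.d (k0.succAbove j)) with hw'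
  set d' : Fin n → ℝ := fun j => q.d (k0.succAbove j) with hd'
  have hw'0 : ∀ j, 0 ≤ w' j := fun j => mul_nonneg (q.hw _) (sub_nonneg.2 (hk0 _))
  have hd'0 : ∀ j, 0 < d' j := fun j => q.hd _
  obtain ⟨a, l, ha, hl, hlM, hid⟩ := recip_aux hCpos w' d' hw'0
  obtain ⟨m, hm, hmd⟩ := exists_lower d' hd'0
  have hlpos : ∀ j, 0 < l j := fun j => hm.trans_le (hl m hmd j)
  have hlM' : ∀ j, l j ≤ M := by
    apply hlM M
    · intro k hk
      refine lt_of_le_of_ne (hk0 _) fun h => hk ?_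
      simp only [hw', hd'] at h ⊢
      rw [h]; ring
    · intro k; exact hk0 _
    · have h1 : ∀ j, w' j / (M - d' j) ≤ q.w (k0.succAbove j) := by
        intro j
        simp only [hw', hd']
        by_cases h : M - q.d (k0.succAbove j) = 0
        · rw [h]; simp [q.hw]
        · rw [mul_div_assoc, div_self h, mul_one]
      calc ∑ k, w' k / (M - d' k) ≤ ∑ k, q.w (k0.succAbove k) := Finset.sum_le_sum fun k _ => h1 k
        _ ≤ C := by
          rw [hC, Fin.sum_univ_succAbove _ k0]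
          have := q.hw k0
          linarith
  have hR : 0 < C + ∑ k, w' k / d' k := by
    have : 0 ≤ ∑ k, w' k / d' k := Finset.sum_nonneg fun k _ => div_nonneg (hw'0 k) (hd'0 k).le
    linarith
  have h0 : (C + ∑ k, w' k / d' k)⁻¹ = C⁻¹ - ∑ j, a j / l j := by
    have e1 : (C : ℂ) + ∑ k, (w' k : ℂ) / (0 + d' k) = ((C + ∑ k, w' k / d' k : ℝ) : ℂ) := by
      push_cast; simp
    have := hid 0 (fun k => by simpa using (hd'0 k).ne') (fun j => by simpa using (hlpos j).ne')
      (by rw [e1]; exact_mod_cast hR.ne')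
    rw [e1] at this
    have h2 : ((C : ℂ)⁻¹ - ∑ j, (a j : ℂ) / (0 + l j)) = ((C⁻¹ - ∑ j, a j / l j : ℝ) : ℂ) := by
      push_cast; simp
    rw [h2] at this
    exact_mod_cast this
  refine ⟨⟨M * (C⁻¹ - ∑ j, a j / l j), C⁻¹, fun j => a j * ((M - l j) / l j), l, ?_, by positivity,
    fun j => mul_nonneg (ha j) (div_nonneg (sub_nonneg.2 (hlM' j)) (hlpos j).le), hlpos⟩,
    by positivity, ?_⟩
  · rw [← h0]; positivity
  · intro z hz
    have hne := q.st_ne_zero hq hz
    have hzM := add_ne_zero_of_slit hz hMpos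
    have hst : q.st z = ((C : ℂ) + ∑ k, (w' k : ℂ) / (z + d' k)) / (z + M) := by
      unfold CB.st
      rw [hc, eq_div_iff hzM, hC]
      push_cast
      rw [zero_add, Finset.sum_mul, Fin.sum_univ_succAbove _ k0, Fin.sum_univ_succAbove _ k0,
        add_assoc, ← Finset.sum_add_distrib]
      congr 1
      · rw [← hM, div_mul_cancel₀ _ hzM]
      · refine Finset.sum_congr rfl fun j _ => ?_
        have h3 := add_ne_zero_of_slit hz (hd'0 j)
        simp only [hw', hd'] at h3 ⊢
        push_cast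
        field_simp
        ring
    have hne' : (C : ℂ) + ∑ k, (w' k : ℂ) / (z + d' k) ≠ 0 := by
      intro h; rw [hst, h, zero_div] at hne; exact hne rfl
    have := hid z (fun k => add_ne_zero_of_slit hz (hd'0 k))
      (fun j => add_ne_zero_of_slit hz (hlpos j)) hne'
    rw [hst, inv_div, div_eq_mul_inv, this]
    unfold CB.eval
    push_cast
    have key : ∑ j, (a j : ℂ) * ((M - l j) / l j) * z / (z + l j) =
        M * ∑ j, (a j : ℂ) / l j - (z + M) * ∑ j, (a j : ℂ) / (z + l j) := by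
      rw [Finset.mul_sum, Finset.mul_sum, ← Finset.sum_sub_distrib]
      refine Finset.sum_congr rfl fun j _ => ?_
      have h3 := add_ne_zero_of_slit hz (hlpos j)
      have h4 : (l j : ℂ) ≠ 0 := by exact_mod_cast (hlpos j).ne'
      field_simp
      ring
    rw [key]
    ring

end W_MP_e98908_an
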