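import Mathlib

/-!
# Multiplication by an indicator function on vector valued `L²`
-/

namespace W_MP_e98908_an

open MeasureTheory Set Filter Topology

section Mult

variable {α : Type*} [MeasurableSpace α] {μ : Measure α} {E : Type*} [NormedAddCommGroup E]
  {S : Set α} (hS : MeasurableSet S)

/-- multiplication by the indicator function of `S` (as a function) -/
noncomputable def PF (e : Lp E 2 μ) : Lp E 2 μ := ((Lp.memLp e).indicator hS).toLp (S.indicator e)

theorem PF_coe (e : Lp E 2 μ) : PF hS e =ᵐ[μ] S.indicator e := by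
  unfold PF
  exact MemLp.coeFn_toLp _

theorem PF_add (x y : Lp E 2 μ) : PF hS (x + y) = PF hS x + PF hS y := by
  apply Lp.ext
  filter_upwards [PF_coe hS (x + y), PF_coe hS x, PF_coe hS y, Lp.coeFn_add x y,
    Lp.coeFn_add (PF hS x) (PF hS y)]
    with a h1 h2 h3 h4 h5
  rw [h1, h5, Pi.add_apply, h2, h3]
  by_cases ha : a ∈ S
  · simp only [indicator_of_mem ha, h4, Pi.add_apply]
  · simp only [indicator_of_notMem ha, add_zero]

theorem PF_idem (e : Lp E 2 μ) : PF hS (PF hS e) = PF hS e := by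
  apply Lp.ext
  filter_upwards [PF_coe hS (PF hS e), PF_coe hS e] with a h1 h2
  rw [h1, h2]
  by_cases ha : a ∈ S
  · rw [indicator_of_mem ha, h2]
  · rw [indicator_of_notMem ha, indicator_of_notMem ha]

theorem PF_norm (x : Lp E 2 μ) : ‖PF hS x‖ ≤ ‖x‖ := by
  apply Lp.norm_le_norm_of_ae_le
  filter_upwards [PF_coe hS x] with a h1
  rw [h1]
  exact norm_indicator_le_norm_self _ _

variable [InnerProductSpace ℂ E]

theorem PF_smul (c : ℂ) (x : Lp E 2 μ) : PF hS (c • x) = c • PF hS x := by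
  apply Lp.ext
  filter_upwards [PF_coe hS (c • x), PF_coe hS x, Lp.coeFn_smul c x,
    Lp.coeFn_smul c (PF hS x)]
    with a h1 h2 h4 h5
  rw [h1, h5, Pi.smul_apply, h2]
  by_cases ha : a ∈ S
  · simp only [indicator_of_mem ha, h4, Pi.smul_apply]
  · simp only [indicator_of_notMem ha, smul_zero]

/-- multiplication by the indicator function of `S` -/
noncomputable def Pm : Lp E 2 μ →L[ℂ] Lp E 2 μ :=
  LinearMap.mkContinuous
    { toFun := PF hS
      map_add' := PF_add hS
      map_smul' := PF_smul hS } 1 (by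
    intro x
    rw [one_mul]
    exact PF_norm hS x)

theorem Pm_apply (e : Lp E 2 μ) : Pm hS e = PF hS e := rfl

theorem Pm_coe (e : Lp E 2 μ) : Pm hS e =ᵐ[μ] S.indicator e := PF_coe hS e

theorem Pm_idem (e : Lp E 2 μ) : Pm hS (Pm hS e) = Pm hS e := PF_idem hS e

theorem Pm_symm (x y : Lp E 2 μ) : inner ℂ (Pm hS x) y = inner ℂ x (Pm hS y) := by
  rw [L2.inner_def, L2.inner_def]
  apply integral_congr_ae
  filter_upwards [Pm_coe hS x, Pm_coe hS y] with a h1 h2
  rw [h1, h2]
  by_cases ha : a ∈ S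
  · rw [indicator_of_mem ha, indicator_of_mem ha]
  · rw [indicator_of_notMem ha, indicator_of_notMem ha, inner_zero_left, inner_zero_right]

open Classical in
theorem current_coe' (σ : ℂ) (e : Lp E 2 μ) :
    (σ • Pm hS e + (e - Pm hS e) : Lp E 2 μ) =ᵐ[μ]
      fun x => (if x ∈ S then σ else 1) • e x := by
  filter_upwards [Lp.coeFn_add (σ • Pm hS e) (e - Pm hS e), Lp.coeFn_smul σ (Pm hS e),
    Lp.coeFn_sub e (Pm hS e), Pm_coe hS e] with a h1 h2 h3 h4
  rw [h1, Pi.add_apply, h2, h3, Pi.smul_apply, Pi.sub_apply, h4]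
  by_cases ha : a ∈ S
  · rw [indicator_of_mem ha, if_pos ha]; simp
  · rw [indicator_of_notMem ha, if_neg ha]; simp

end Mult

end W_MP_e98908_an
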