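import Pool.Agent.W_MP_e98908_an_h89.Hilb
import Pool.Agent.W_MP_e98908_an_h89.Mult

/-!
# Periodic composites: reduction to the abstract Hilbert space problem
-/

namespace W_MP_e98908_an

open MeasureTheory Set Filter Topology Complex UnitAddTorus

instance : IsProbabilityMeasure cellMeasure := by unfold cellMeasure; infer_instance

theorem integral_fourier (k : ℤ) :
    ∫ x : UnitAddCircle, fourier k x ∂(AddCircle.haarAddCircle) = if k = 0 then 1 else 0 := by
  have h := congrFun (fourierCoeff_fourier (T := (1 : ℝ)) k) 0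
  unfold fourierCoeff at h
  simp only [neg_zero, fourier_zero, one_smul] at h
  rw [h]
  by_cases hk : k = 0
  · simp [hk]
  · rw [if_neg hk, Pi.single_eq_of_ne (Ne.symm hk)]

theorem integral_mFourier (n : Fin 3 → ℤ) :
    ∫ x, mFourier n x ∂cellMeasure = if n = 0 then 1 else 0 := by
  unfold cellMeasure mFourier
  simp only [ContinuousMap.coe_mk]
  rw [integral_fintype_prod_eq_prod (fun i (x : UnitAddCircle) => fourier (n i) x)]
  simp only [integral_fourier]
  by_cases hn : n = 0
  · subst hn; simp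
  · rw [if_neg hn]
    obtain ⟨i, hi⟩ := Function.ne_iff.1 hn
    apply Finset.prod_eq_zero (Finset.mem_univ i)
    exact if_neg hi

/-- three dimensional complex vectors -/
abbrev V3 := EuclideanSpace ℂ (Fin 3)

/-- square integrable complex vector fields -/
noncomputable abbrev Fld := Lp V3 2 cellMeasure

theorem norm_mF (n : Fin 3 → ℤ) (x : Cell) : ‖mFourier n x‖ ≤ 1 := by
  have := (mFourier n).norm_coe_le_norm x
  rwa [mFourier_norm] at this

theorem memLp_wave (a : V3) (n : Fin 3 → ℤ) :
    MemLp (fun x : Cell => mFourier n x • a) 2 cellMeasure := by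
  refine MemLp.of_bound ?_ ‖a‖ (Eventually.of_forall fun x => ?_)
  · exact ((mFourier n).continuous.smul continuous_const).aestronglyMeasurable
  · rw [norm_smul]
    exact mul_le_of_le_one_left (norm_nonneg _) (norm_mF n x)

/-- plane wave -/
noncomputable def Wv (a : V3) (n : Fin 3 → ℤ) : Fld := (memLp_wave a n).toLp (fun x : Cell => mFourier n x • a)

theorem Wv_coe (a : V3) (n : Fin 3 → ℤ) : Wv a n =ᵐ[cellMeasure] fun x => mFourier n x • a := by
  unfold Wv
  exact MemLp.coeFn_toLp _

theorem memLp_comp (e : Fld) (i : Fin 3) : MemLp (fun x => e x i) 2 cellMeasure :=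
  (EuclideanSpace.proj (𝕜 := ℂ) i).comp_memLp e

theorem integrable_fc (e : Fld) (i : Fin 3) (n : Fin 3 → ℤ) :
    Integrable (fun x => mFourier (-n) x * e x i) cellMeasure := by
  have h1 : Integrable (fun x => e x i) cellMeasure := (memLp_comp e i).integrable (by norm_num)
  refine h1.bdd_mul (c := 1) (mFourier (-n)).continuous.aestronglyMeasurable ?_
  exact Eventually.of_forall fun x => norm_mF _ x

theorem inner_Wv (a : V3) (n : Fin 3 → ℤ) (e : Fld) :
    inner ℂ (Wv a n) e = ∑ i, (starRingEnd ℂ) (a i) * fc (fun x => e x i) n := by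
  rw [L2.inner_def]
  unfold fc
  simp_rw [← integral_const_mul]
  rw [← integral_finsetSum _ fun i _ => (integrable_fc e i n).const_mul _]
  apply integral_congr_ae
  filter_upwards [Wv_coe a n] with x hx
  rw [hx, inner_smul_left, ← mFourier_neg, PiLp.inner_apply, Finset.mul_sum]
  refine Finset.sum_congr rfl fun i _ => ?_
  simp only [RCLike.inner_apply]
  ring

theorem fc_Wv (c : V3) (m n : Fin 3 → ℤ) (i : Fin 3) :
    fc (fun x => Wv c m x i) n = if m = n then c i else 0 := by
  unfold fc
  have e : ∫ x, mFourier (-n) x * (Wv c m x i) ∂cellMeasure =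
      ∫ x, mFourier (m - n) x * c i ∂cellMeasure := by
    apply integral_congr_ae
    filter_upwards [Wv_coe c m] with x hx
    rw [hx, sub_eq_neg_add, mFourier_add]
    simp only [PiLp.smul_apply, smul_eq_mul]
    ring
  rw [e, integral_mul_const, integral_mFourier]
  by_cases h : m = n
  · simp [h]
  · rw [if_neg h, if_neg (sub_ne_zero.2 h), zero_mul]

theorem inner_WW (a c : V3) (n m : Fin 3 → ℤ) :
    inner ℂ (Wv a n) (Wv c m) = if m = n then inner ℂ a c else 0 := by
  rw [inner_Wv]
  simp only [fc_Wv]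
  by_cases h : m = n
  · simp only [h, if_true, PiLp.inner_apply, RCLike.inner_apply]
    exact Finset.sum_congr rfl fun i _ => mul_comm _ _
  · simp [h]

theorem inner_Wsingle (i : Fin 3) (n : Fin 3 → ℤ) (e : Fld) :
    inner ℂ (Wv (EuclideanSpace.single i 1) n) e = fc (fun x => e x i) n := by
  rw [inner_Wv, Finset.sum_eq_single i]
  · simp
  · intro j _ hj; simp [hj]
  · simp

/-! ### the current -/

theorem current_coe {S : Set Cell} (hS : MeasurableSet S) (σ : ℂ) (e : Fld) (i : Fin 3) :
    (fun x => (σ • Pm hS e + (e - Pm hS e) : Fld) x i) =ᵐ[cellMeasure]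
      fun x => cond S σ x * e x i := by
  filter_upwards [current_coe' hS σ e] with a h1
  rw [h1]
  rfl

theorem fc_congr {f f' : Cell → ℂ} (h : f =ᵐ[cellMeasure] f') (n : Fin 3 → ℤ) : fc f n = fc f' n := by
  unfold fc
  apply integral_congr_ae
  filter_upwards [h] with x hx
  rw [hx]

/-! ### gradient fields -/

section Grad

variable (b : Module.Basis (Fin 3) ℝ (Fin 3 → ℝ))

/-- complex wave vector -/
noncomputable def kv (n : Fin 3 → ℤ) : V3 := WithLp.toLp 2 fun i => (waveVec b n i : ℂ)

theorem kv_zero : kv b 0 = 0 := by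
  unfold kv waveVec
  ext i; simp

/-- closed span of gradients of trigonometric polynomials -/
noncomputable def Grd : Submodule ℂ Fld :=
  (Submodule.span ℂ (range fun n => Wv (kv b n) n)).topologicalClosure

instance : CompleteSpace (Grd b) := by unfold Grd; infer_instance

theorem mem_Grd_orthogonal {x : Fld} : x ∈ (Grd b)ᗮ ↔ ∀ n, inner ℂ (Wv (kv b n) n) x = 0 := by
  unfold Grd
  rw [Submodule.orthogonal_closure]
  constructor
  · intro h n
    exact (Submodule.mem_orthogonal _ _).1 h _ (Submodule.subset_span ⟨n, rfl⟩)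
  · intro h
    rw [Submodule.mem_orthogonal]
    intro u hu
    induction hu using Submodule.span_induction with
    | mem u hu => obtain ⟨n, rfl⟩ := hu; exact h n
    | zero => exact inner_zero_left _
    | add u v _ _ hu hv => rw [inner_add_left, hu, hv, add_zero]
    | smul c u _ hu => rw [inner_smul_left, hu, mul_zero]

theorem Grd_coeff {x : Fld} (hx : x ∈ Grd b) (n : Fin 3 → ℤ) :
    ∃ c : ℂ, ∀ i, fc (fun y => x y i) n = c * (waveVec b n i : ℂ) := by
  set z : V3 := WithLp.toLp 2 fun i => fc (fun y => x y i) n with hz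
  have h1 : z ∈ (ℂ ∙ kv b n)ᗮᗮ := by
    rw [Submodule.mem_orthogonal]
    intro a ha
    have ha' : inner ℂ (kv b n) a = 0 := Submodule.mem_orthogonal_singleton_iff_inner_right.1 ha
    have h2 : Wv a n ∈ (Grd b)ᗮ := by
      rw [mem_Grd_orthogonal]
      intro m
      rw [inner_WW]
      by_cases h : n = m
      · subst h; simp [ha']
      · simp [h]
    have h3 : inner ℂ (Wv a n) x = 0 := (Submodule.mem_orthogonal' _ _).1 h2 x hx
    rw [inner_Wv] at h3
    rw [PiLp.inner_apply, ← h3]
    refine Finset.sum_congr rfl fun i _ => ?_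
    simp only [RCLike.inner_apply, hz]
    ring
  rw [Submodule.orthogonal_orthogonal, Submodule.mem_span_singleton] at h1
  obtain ⟨c, hc⟩ := h1
  refine ⟨c, fun i => ?_⟩
  have := congrArg (fun v : V3 => v i) hc
  simp only [PiLp.smul_apply, smul_eq_mul, kv, hz] at this
  exact this.symm

end Grad

/-- constant unit field -/
noncomputable def w0 : Fld := Wv (EuclideanSpace.single 0 1) 0

theorem norm_w0 : ‖w0‖ = 1 := by
  have h : inner ℂ w0 w0 = (1 : ℂ) := by
    unfold w0
    rw [inner_WW]; simp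
  rw [inner_self_eq_norm_sq_to_K] at h
  have h1 : ((‖w0‖ ^ 2 : ℝ) : ℂ) = ((1 : ℝ) : ℂ) := by push_cast; exact h
  have h2 : ‖w0‖ ^ 2 = 1 := by exact_mod_cast h1
  nlinarith [norm_nonneg w0]

theorem w0_orth (b : Module.Basis (Fin 3) ℝ (Fin 3 → ℝ)) : w0 ∈ (Grd b)ᗮ := by
  rw [mem_Grd_orthogonal]
  intro n
  unfold w0
  rw [inner_WW]
  by_cases h : (0 : Fin 3 → ℤ) = n
  · subst h; simp [kv_zero]
  · simp [h]

theorem comp_hyp {b : Module.Basis (Fin 3) ℝ (Fin 3 → ℝ)} {S : Set Cell} (hS : MeasurableSet S)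
    {g : ℂ → ℂ}
    (hg : ∀ σ ∈ slitPlane, IsEffectiveTensor b S σ (g σ • (1 : Matrix (Fin 3) (Fin 3) ℂ))) :
    ∀ σ ∈ slitPlane, ∀ e, e - w0 ∈ Grd b → (σ • Pm hS e + (e - Pm hS e)) ∈ (Grd b)ᗮ →
      inner ℂ w0 (σ • Pm hS e + (e - Pm hS e)) = g σ := by
  intro σ hσ e he hj
  have hcoef : ∀ n i, fc (fun x => e x i) n = fc (fun x => w0 x i) n +
      fc (fun x => (e - w0 : Fld) x i) n := by
    intro n i
    rw [← inner_Wsingle, ← inner_Wsingle, ← inner_Wsingle, ← inner_add_right]
    congr 1
    abel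
  have hw : ∀ n i, fc (fun x => w0 x i) n = if (0 : Fin 3 → ℤ) = n then
      (EuclideanSpace.single (0 : Fin 3) (1 : ℂ) : V3) i else 0 := fun n i => fc_Wv _ _ _ _
  have hfield : IsElectricField b (Pi.single 0 1) (fun i x => e x i) := by
    refine ⟨fun i => memLp_comp e i, fun i => ?_, ?_⟩
    · rw [hcoef, hw, if_pos rfl]
      obtain ⟨c, hc⟩ := Grd_coeff b he 0
      rw [hc i]
      have : waveVec b 0 i = 0 := by unfold waveVec; simp
      rw [this]
      simp [Pi.single_apply]
    · have h1 : ∀ n : Fin 3 → ℤ, ∃ c : ℂ, n ≠ 0 → ∀ i, fc (fun x => e x i) n =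
          c * (waveVec b n i : ℂ) := by
        intro n
        obtain ⟨c, hc⟩ := Grd_coeff b he n
        refine ⟨c, fun hn i => ?_⟩
        rw [hcoef, hw, if_neg (Ne.symm hn), zero_add, hc i]
      choose V hV using h1
      exact ⟨V, fun n hn i => hV n hn i⟩
  have hdiv : IsDivergenceFree b (fun i x => cond S σ x * e x i) := by
    intro n
    have h1 := (mem_Grd_orthogonal b).1 hj n
    rw [inner_Wv] at h1
    rw [← h1]
    refine Finset.sum_congr rfl fun i _ => ?_
    rw [fc_congr (current_coe hS σ e i)]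
    simp [kv]
  have h2 := hg σ hσ (Pi.single 0 1) (fun i x => e x i) hfield hdiv 0
  unfold w0
  rw [inner_Wsingle, fc_congr (current_coe hS σ e 0), h2]
  simp [Matrix.smul_mulVec]

end W_MP_e98908_an
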