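import Mathlib

/-!
# MP_e98908_an : definitions

Two-phase conducting composites in three dimensions (phase 1 has conductivity `σ`, phase 2 has
conductivity `1`): hierarchical laminates, and periodic composites.
-/

namespace W_MP_e98908_an

open MeasureTheory Matrix Complex

/-! ### Hierarchical (multiple rank) laminates -/

/-- A (matrix valued) conductivity function. -/
abbrev CFun := ℂ → Matrix (Fin 3) (Fin 3) ℂ

/-- The effective tensor of two homogeneous materials with tensors `A` (volume fraction `θ`) and
`B` (volume fraction `1 - θ`) layered in planes normal to the direction `n`. -/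
noncomputable def layer (n : Fin 3 → ℝ) (θ : ℝ) (A B : Matrix (Fin 3) (Fin 3) ℂ) :
    Matrix (Fin 3) (Fin 3) ℂ :=
  (θ : ℂ) • A + (1 - θ : ℂ) • B -
    ((θ * (1 - θ) : ℂ) / ((fun i => (n i : ℂ)) ⬝ᵥ (((1 - θ : ℂ) • A + (θ : ℂ) • B) *ᵥ
      (fun i => (n i : ℂ))))) •
      vecMulVec ((A - B) *ᵥ (fun i => (n i : ℂ))) ((fun i => (n i : ℂ)) ᵥ* (A - B))

/-- Conductivity functions of the multiple rank laminates of the two phases all of whose
lamination directions belong to the set `N`. -/
inductive IsLaminate (N : Set (Fin 3 → ℝ)) : CFun → Prop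
  | phase1 : IsLaminate N (fun σ => σ • (1 : Matrix (Fin 3) (Fin 3) ℂ))
  | phase2 : IsLaminate N (fun _ => (1 : Matrix (Fin 3) (Fin 3) ℂ))
  | layer {n : Fin 3 → ℝ} (hn : n ∈ N) {θ : ℝ} (h0 : 0 ≤ θ) (h1 : θ ≤ 1) {A B : CFun}
      (hA : IsLaminate N A) (hB : IsLaminate N B) :
      IsLaminate N (fun σ => layer n θ (A σ) (B σ))

/-- The three coordinate directions (an orthonormal basis of `ℝ³`). -/
def coordDirs : Set (Fin 3 → ℝ) := Set.range fun i : Fin 3 => (Pi.single i 1 : Fin 3 → ℝ)

/-! ### Periodic composites -/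

/-- The period cell with opposite faces identified; a point is given by its coordinates `x` with
respect to a basis of the lattice of periods. -/
abbrev Cell := UnitAddTorus (Fin 3)

/-- The normalised Lebesgue measure of the period cell. -/
noncomputable def cellMeasure : Measure Cell :=
  Measure.pi fun _ : Fin 3 => (AddCircle.haarAddCircle : Measure UnitAddCircle)

/-- The Fourier coefficient: the average of `f(x) exp(-2πi n·x)` over the period cell. -/
noncomputable def fc (f : Cell → ℂ) (n : Fin 3 → ℤ) : ℂ :=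
  ∫ x, UnitAddTorus.mFourier (-n) x * f x ∂cellMeasure

/-- The wave vector of the plane wave `exp(2πi n·x)`; here `b` is the basis of the reciprocal
lattice dual to the basis of the lattice of periods. -/
noncomputable def waveVec (b : Module.Basis (Fin 3) ℝ (Fin 3 → ℝ)) (n : Fin 3 → ℤ) : Fin 3 → ℝ :=
  ∑ j, (n j : ℝ) • b j

/-- `e = e₀ + ∇V` for a periodic function `V` with square integrable gradient: `e` is square
integrable, its average is `e₀`, and its other Fourier coefficients are multiples of the
corresponding wave vectors. -/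
structure IsElectricField (b : Module.Basis (Fin 3) ℝ (Fin 3 → ℝ)) (e₀ : Fin 3 → ℂ)
    (e : Fin 3 → Cell → ℂ) : Prop where
  sqInt : ∀ i, MemLp (e i) 2 cellMeasure
  mean : ∀ i, fc (e i) 0 = e₀ i
  grad : ∃ V : (Fin 3 → ℤ) → ℂ, ∀ n, n ≠ 0 → ∀ i, fc (e i) n = V n * (waveVec b n i : ℂ)

/-- `∇·j = 0` in the weak sense. -/
def IsDivergenceFree (b : Module.Basis (Fin 3) ℝ (Fin 3 → ℝ)) (j : Fin 3 → Cell → ℂ) : Prop :=
  ∀ n, ∑ i, (waveVec b n i : ℂ) * fc (j i) n = 0

open Classical in
/-- The local conductivity: `σ` on `S` (phase 1) and `1` on the complement of `S` (phase 2). -/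
noncomputable def cond (S : Set Cell) (σ : ℂ) (x : Cell) : ℂ := if x ∈ S then σ else 1

/-- `M` is the effective tensor of the composite at `σ`: the average of the current is `M e₀` for
every solution `e = e₀ + ∇V` of the conductivity equations. -/
def IsEffectiveTensor (b : Module.Basis (Fin 3) ℝ (Fin 3 → ℝ)) (S : Set Cell) (σ : ℂ)
    (M : Matrix (Fin 3) (Fin 3) ℂ) : Prop :=
  ∀ (e₀ : Fin 3 → ℂ) (e : Fin 3 → Cell → ℂ), IsElectricField b e₀ e →
    IsDivergenceFree b (fun i x => cond S σ x * e i x) →
    ∀ i, fc (fun x => cond S σ x * e i x) 0 = (M *ᵥ e₀) i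

/-- The periodic composite with phase 1 occupying the measurable set `S` is isotropic and `g` is
its conductivity function (on the complex plane cut along the nonpositive real axis). -/
def IsIsotropicComposite (b : Module.Basis (Fin 3) ℝ (Fin 3 → ℝ)) (S : Set Cell)
    (g : ℂ → ℂ) : Prop :=
  MeasurableSet S ∧
    ∀ σ ∈ slitPlane, IsEffectiveTensor b S σ (g σ • (1 : Matrix (Fin 3) (Fin 3) ℂ))

end W_MP_e98908_an
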