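import Pool.Agent.W_MP_e98908_an_h89.Fin

/-!
# Approximation of integrals by finite sums
-/

namespace W_MP_e98908_an

open Complex MeasureTheory Filter Topology Set

/-- the kernel -/
noncomputable def phi (z : ℂ) (u : ℝ) : ℂ := (1 - z) / (u + (2 / 9 - u) * z)

/-- rounding up, as an index -/
noncomputable def cellIdx (N : ℕ) (u : ℝ) : Fin (N + 1) :=
  ⟨min (⌈u * (9 * (N + 1) / 2)⌉₊ - 1) N, by omega⟩

/-- right end point of the cell -/
noncomputable def pt (N : ℕ) (k : Fin (N + 1)) : ℝ := 2 * ((k : ℕ) + 1) / (9 * (N + 1))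

theorem pt_pos (N : ℕ) (k : Fin (N + 1)) : 0 < pt N k := by unfold pt; positivity

theorem pt_le (N : ℕ) (k : Fin (N + 1)) : pt N k ≤ 2 / 9 := by
  unfold pt
  have hN : (0 : ℝ) < 9 * (N + 1) := by positivity
  rw [div_le_iff₀ hN]
  have : ((k : ℕ) : ℝ) + 1 ≤ N + 1 := by
    have := k.2
    have : (k : ℕ) ≤ N := by omega
    exact_mod_cast Nat.succ_le_succ this
  linarith

theorem pt_last (N : ℕ) : pt N (Fin.last N) = 2 / 9 := by
  unfold pt
  have hN : (0 : ℝ) < (N + 1) := by positivity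
  simp only [Fin.val_last]
  field_simp

theorem pt_castSucc_lt (N : ℕ) (k : Fin N) : pt N k.castSucc < 2 / 9 := by
  unfold pt
  have hN : (0 : ℝ) < 9 * (N + 1) := by positivity
  rw [div_lt_iff₀ hN]
  have : ((k.castSucc : ℕ) : ℝ) < N := by
    have := k.2
    simp only [Fin.val_castSucc]
    exact_mod_cast this
  linarith

theorem measurable_cellIdx (N : ℕ) : Measurable (cellIdx N) := by
  have h1 : Measurable (fun u : ℝ => ⌈u * (9 * ((N : ℝ) + 1) / 2)⌉₊) :=
    Nat.measurable_ceil.comp (measurable_id.mul_const _)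
  have h2 : Measurable (fun m : ℕ => (⟨min (m - 1) N, by omega⟩ : Fin (N + 1))) :=
    measurable_from_nat
  exact h2.comp h1

theorem pt_cellIdx {N : ℕ} {u : ℝ} (hu : u ∈ Ioc (0 : ℝ) (2 / 9)) :
    u ≤ pt N (cellIdx N u) ∧ pt N (cellIdx N u) ≤ u + 2 / (9 * (N + 1)) := by
  have hN : (0 : ℝ) < N + 1 := by positivity
  set t : ℝ := u * (9 * (N + 1) / 2) with ht
  have ht0 : 0 < t := by have := hu.1; positivity
  have ht1 : t ≤ N + 1 := by
    rw [ht]
    calc u * (9 * (N + 1) / 2) ≤ 2 / 9 * (9 * (N + 1) / 2) :=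
          mul_le_mul_of_nonneg_right hu.2 (by positivity)
      _ = N + 1 := by ring
  have hc1 : 1 ≤ ⌈t⌉₊ := Nat.one_le_iff_ne_zero.2 (Nat.ceil_pos.2 ht0).ne'
  have hc2 : ⌈t⌉₊ ≤ N + 1 := by
    rw [Nat.ceil_le]; exact_mod_cast ht1
  have hval : ((cellIdx N u : ℕ) : ℝ) + 1 = ⌈t⌉₊ := by
    have : (cellIdx N u : ℕ) = ⌈t⌉₊ - 1 := by
      show min (⌈t⌉₊ - 1) N = ⌈t⌉₊ - 1
      omega
    rw [this]
    push_cast [Nat.cast_sub hc1]
    ring
  unfold pt
  rw [hval]
  constructor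
  · rw [le_div_iff₀ (by positivity)]
    have := Nat.le_ceil t
    rw [ht] at this ⊢
    nlinarith
  · have h1 := (Nat.ceil_lt_add_one ht0.le).le
    rw [div_le_iff₀ (by positivity)]
    have : (u + 2 / (9 * (N + 1))) * (9 * (N + 1)) = 2 * (t + 1) := by
      rw [ht]; field_simp
    rw [this]
    linarith

/-! ### lower bounds of denominators -/

/-- lower bound for `Re (l u + (2/9-u) l ζ)` -/
noncomputable def mu (σ : ℂ) : ℝ :=
  min (kap σ * (σ + 2)).re (kap σ * (σ + 2) * zeta σ).re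

theorem mu_pos {σ : ℂ} (hσ : σ ∈ slitPlane) : 0 < mu σ := lt_min (hp_add_two hσ) (kz_a hσ)

theorem kap_ne {σ : ℂ} (hσ : σ ∈ slitPlane) : kap σ ≠ 0 := by
  intro h
  have := hp_one hσ
  unfold HP at this
  rw [h] at this
  simp at this

theorem norm_den {σ : ℂ} (_hσ : σ ∈ slitPlane) {u : ℝ} (hu : u ∈ Icc (0 : ℝ) (2 / 9)) :
    2 / 9 * mu σ ≤ ‖kap σ * (σ + 2)‖ * ‖(u : ℂ) + (2 / 9 - u) * zeta σ‖ := by
  set l : ℂ := kap σ * (σ + 2) with hl
  rw [← norm_mul]
  refine le_trans ?_ (re_le_norm _)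
  have e : l * ((u : ℂ) + (2 / 9 - u) * zeta σ) = (u : ℝ) * l + ((2 / 9 - u : ℝ) : ℂ) * (l * zeta σ) := by
    push_cast; ring
  rw [e, add_re, re_ofReal_mul, re_ofReal_mul]
  have h1 : mu σ ≤ l.re := min_le_left _ _
  have h2 : mu σ ≤ (l * zeta σ).re := min_le_right _ _
  have h3 := mul_le_mul_of_nonneg_left h1 hu.1
  have h4 := mul_le_mul_of_nonneg_left h2 (sub_nonneg.2 hu.2)
  linarith

theorem den_ne {σ : ℂ} (hσ : σ ∈ slitPlane) {u : ℝ} (hu : u ∈ Icc (0 : ℝ) (2 / 9)) :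
    (u : ℂ) + (2 / 9 - u) * zeta σ ≠ 0 := by
  intro h
  have h1 := norm_den hσ hu
  have h2 := mu_pos hσ
  rw [h, norm_zero, mul_zero] at h1
  linarith

/-- Lipschitz constant of `phi` -/
noncomputable def lip (σ : ℂ) : ℝ :=
  ‖1 - zeta σ‖ ^ 2 * (‖kap σ * (σ + 2)‖ / (2 / 9 * mu σ)) ^ 2

theorem phi_lip {σ : ℂ} (hσ : σ ∈ slitPlane) {u v : ℝ} (hu : u ∈ Icc (0 : ℝ) (2 / 9))
    (hv : v ∈ Icc (0 : ℝ) (2 / 9)) : ‖phi (zeta σ) u - phi (zeta σ) v‖ ≤ lip σ * |u - v| := by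
  have hm := mu_pos hσ
  have h1 := den_ne hσ hu
  have h2 := den_ne hσ hv
  have e : phi (zeta σ) u - phi (zeta σ) v =
      (1 - zeta σ) ^ 2 * ((v - u : ℝ) : ℂ) / (((u : ℂ) + (2 / 9 - u) * zeta σ) *
        ((v : ℂ) + (2 / 9 - v) * zeta σ)) := by
    unfold phi
    rw [div_sub_div _ _ h1 h2]
    congr 1
    push_cast; ring
  rw [e, norm_div, norm_mul, norm_mul, norm_pow, norm_real, Real.norm_eq_abs, abs_sub_comm v u]
  have hk : ∀ {w : ℝ}, w ∈ Icc (0 : ℝ) (2 / 9) →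
      ‖(w : ℂ) + (2 / 9 - w) * zeta σ‖⁻¹ ≤ ‖kap σ * (σ + 2)‖ / (2 / 9 * mu σ) := by
    intro w hw
    have h3 := norm_den hσ hw
    have h4 : 0 < ‖(w : ℂ) + (2 / 9 - w) * zeta σ‖ := norm_pos_iff.2 (den_ne hσ hw)
    rw [inv_eq_one_div, div_le_div_iff₀ h4 (by positivity)]
    linarith
  unfold lip
  rw [div_eq_mul_inv, mul_inv]
  have h5 := mul_le_mul (hk hu) (hk hv) (by positivity) (by positivity)
  calc ‖1 - zeta σ‖ ^ 2 * |u - v| * (‖(u : ℂ) + (2 / 9 - u) * zeta σ‖⁻¹ *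
        ‖(v : ℂ) + (2 / 9 - v) * zeta σ‖⁻¹)
      ≤ ‖1 - zeta σ‖ ^ 2 * |u - v| * (‖kap σ * (σ + 2)‖ / (2 / 9 * mu σ) *
        (‖kap σ * (σ + 2)‖ / (2 / 9 * mu σ))) := by
        apply mul_le_mul_of_nonneg_left h5; positivity
    _ = _ := by ring

theorem norm_E {σ q : ℂ} (hσ : σ ∈ slitPlane) (hq : 0 ≤ (kap σ * (σ + 2) * q).re) :
    3 * (kap σ).re / ‖kap σ‖ ≤ ‖(σ + 2) * q + 3‖ := by
  have hk : 0 < ‖kap σ‖ := norm_pos_iff.2 (kap_ne hσ)
  rw [div_le_iff₀ hk, mul_comm, ← norm_mul, mul_comm ((σ + 2) * q + 3)]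
  refine le_trans ?_ (re_le_norm _)
  have e : kap σ * ((σ + 2) * q + 3) = kap σ * (σ + 2) * q + (3 : ℝ) * kap σ := by push_cast; ring
  rw [e, add_re, re_ofReal_mul]
  linarith

theorem gq_diff {σ q q' : ℂ} (hσ : σ ∈ slitPlane) (hq : 0 ≤ (kap σ * (σ + 2) * q).re)
    (hq' : 0 ≤ (kap σ * (σ + 2) * q').re) :
    ‖gq σ q - gq σ q'‖ ≤ 3 * ‖σ - 1‖ * ‖σ + 2‖ * (‖kap σ‖ / (3 * (kap σ).re)) ^ 2 * ‖q - q'‖ := by
  have hk : 0 < ‖kap σ‖ := norm_pos_iff.2 (kap_ne hσ)
  have hk1 : 0 < (kap σ).re := by have := hp_one hσ; unfold HP at this; rwa [mul_one] at this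
  have h1 := norm_E hσ hq
  have h2 := norm_E hσ hq'
  have h3 : 0 < 3 * (kap σ).re / ‖kap σ‖ := by positivity
  have hE : (σ + 2) * q + 3 ≠ 0 := norm_pos_iff.1 (h3.trans_le h1)
  have hE' : (σ + 2) * q' + 3 ≠ 0 := norm_pos_iff.1 (h3.trans_le h2)
  have e : gq σ q - gq σ q' = 3 * (σ - 1) * (σ + 2) * (q' - q) /
      (((σ + 2) * q + 3) * ((σ + 2) * q' + 3)) := by
    unfold gq
    rw [div_sub_div _ _ hE hE']
    congr 1
    ring
  have hinv : ∀ {E : ℂ}, 3 * (kap σ).re / ‖kap σ‖ ≤ ‖E‖ →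
      ‖E‖⁻¹ ≤ ‖kap σ‖ / (3 * (kap σ).re) := by
    intro E hE
    rw [show ‖kap σ‖ / (3 * (kap σ).re) = (3 * (kap σ).re / ‖kap σ‖)⁻¹ by rw [inv_div]]
    exact inv_anti₀ h3 hE
  rw [e, norm_div, norm_mul, norm_mul, norm_mul, norm_mul, div_eq_mul_inv, mul_inv,
    norm_sub_rev q' q]
  have h5 := mul_le_mul (hinv h1) (hinv h2) (by positivity) (by positivity)
  calc ‖(3 : ℂ)‖ * ‖σ - 1‖ * ‖σ + 2‖ * ‖q - q'‖ * (‖(σ + 2) * q + 3‖⁻¹ * ‖(σ + 2) * q' + 3‖⁻¹)
      ≤ ‖(3 : ℂ)‖ * ‖σ - 1‖ * ‖σ + 2‖ * ‖q - q'‖ * (‖kap σ‖ / (3 * (kap σ).re) *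
        (‖kap σ‖ / (3 * (kap σ).re))) := by
        apply mul_le_mul_of_nonneg_left h5; positivity
    _ = _ := by
        have : ‖(3 : ℂ)‖ = 3 := by norm_num
        rw [this]; ring

/-! ### continuity of the bounds -/

theorem continuousOn_kap : ContinuousOn kap slitPlane := by
  unfold kap
  refine continuousOn_const.add (ContinuousOn.div ?_ ?_ ?_)
  · exact continuous_conj.continuousOn
  · exact (continuous_ofReal.comp continuous_norm).continuousOn
  · intro σ hσ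
    have := norm_pos_iff.2 (slitPlane_ne_zero hσ)
    exact_mod_cast this.ne'

theorem continuousOn_zeta : ContinuousOn zeta slitPlane := by
  unfold zeta
  refine ContinuousOn.div (by fun_prop) (by fun_prop) ?_
  intro σ hσ
  exact mul_ne_zero (add_two_ne hσ) (two_add_one_ne hσ)

theorem continuousOn_mu : ContinuousOn mu slitPlane := by
  unfold mu
  have h1 : ContinuousOn (fun σ => kap σ * (σ + 2)) slitPlane :=
    continuousOn_kap.mul (by fun_prop)
  have h2 : ContinuousOn (fun σ => (kap σ * (σ + 2)).re) slitPlane :=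
    continuous_re.comp_continuousOn h1
  have h3 : ContinuousOn (fun σ => (kap σ * (σ + 2) * zeta σ).re) slitPlane :=
    continuous_re.comp_continuousOn (h1.mul continuousOn_zeta)
  exact ContinuousOn.inf h2 h3

theorem continuousOn_lip : ContinuousOn lip slitPlane := by
  unfold lip
  have h1 : ContinuousOn (fun σ => kap σ * (σ + 2)) slitPlane :=
    continuousOn_kap.mul (by fun_prop)
  refine ContinuousOn.mul ((continuousOn_const.sub continuousOn_zeta).norm.pow 2) ?_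
  refine ContinuousOn.pow (ContinuousOn.div h1.norm (continuousOn_const.mul continuousOn_mu) ?_) 2
  intro σ hσ
  exact (mul_pos (by norm_num) (mu_pos hσ)).ne'

theorem loc_unif {s : Set ℂ} {F : ℕ → ℂ → ℂ} {f : ℂ → ℂ} {B : ℂ → ℝ} (hB : ContinuousOn B s)
    {r : ℕ → ℝ} (hr : Tendsto r atTop (𝓝 0)) (hr0 : ∀ n, 0 ≤ r n)
    (h : ∀ n, ∀ y ∈ s, ‖F n y - f y‖ ≤ B y * r n) : TendstoLocallyUniformlyOn F f atTop s := by
  rw [Metric.tendstoLocallyUniformlyOn_iff]
  intro ε hε x hx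
  have h1 : ∀ᶠ y in 𝓝[s] x, B y < B x + 1 := (hB x hx).eventually_lt_const (by linarith)
  refine ⟨{y | B y < B x + 1} ∩ s, inter_mem h1 self_mem_nhdsWithin, ?_⟩
  have h2 : Tendsto (fun n => (|B x| + 1) * r n) atTop (𝓝 0) := by
    simpa using hr.const_mul (|B x| + 1)
  filter_upwards [h2.eventually_lt_const hε] with n hn
  rintro y ⟨hy, hys⟩
  rw [dist_comm, dist_eq_norm]
  refine (h n y hys).trans_lt (lt_of_le_of_lt ?_ hn)
  apply mul_le_mul_of_nonneg_right _ (hr0 n)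
  have := le_abs_self (B x)
  exact (show B y < B x + 1 from hy).le.trans (by linarith)

/-! ### the discretization -/

section disc

variable (η : Measure ℝ) [IsFiniteMeasure η]

/-- mass of the cell -/
noncomputable def cellMass (N : ℕ) (k : Fin (N + 1)) : ℝ := (η.map (cellIdx N)).real {k}

omit [IsFiniteMeasure η] in
theorem cellMass_nonneg (N : ℕ) (k : Fin (N + 1)) : 0 ≤ cellMass η N k := measureReal_nonneg

theorem integral_cell (N : ℕ) {E : Type*} [NormedAddCommGroup E] [NormedSpace ℝ E]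
    [CompleteSpace E] (h : Fin (N + 1) → E) :
    ∫ u, h (cellIdx N u) ∂η = ∑ k, cellMass η N k • h k := by
  have hm := (measurable_cellIdx N).aemeasurable (μ := η)
  rw [← integral_map hm (AEStronglyMeasurable.of_discrete)]
  have := Measure.isFiniteMeasure_map η (cellIdx N)
  rw [integral_fintype (Integrable.of_finite)]
  rfl

variable {η}

theorem phi_continuousOn {σ : ℂ} (hσ : σ ∈ slitPlane) :
    ContinuousOn (phi (zeta σ)) (Icc (0 : ℝ) (2 / 9)) := by
  unfold phi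
  refine continuousOn_const.div (by fun_prop) ?_
  intro u hu
  exact den_ne hσ hu

theorem phi_integrable (hη : ∀ᵐ u ∂η, u ∈ Ioc (0 : ℝ) (2 / 9)) {σ : ℂ} (hσ : σ ∈ slitPlane) :
    Integrable (phi (zeta σ)) η := by
  have h1 : η.restrict (Icc (0 : ℝ) (2 / 9)) = η := by
    apply Measure.restrict_eq_self_of_ae_mem
    filter_upwards [hη] with u hu using Ioc_subset_Icc_self hu
  rw [← h1]
  exact (phi_continuousOn hσ).integrableOn_compact isCompact_Icc

/-- the function `X` -/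
noncomputable def Xf (η : Measure ℝ) (σ : ℂ) : ℂ := 1 - ∫ u, phi (zeta σ) u ∂η

/-- the discretized function `X` -/
noncomputable def XN (η : Measure ℝ) (N : ℕ) (σ : ℂ) : ℂ :=
  1 - ∑ k, (cellMass η N k : ℂ) * phi (zeta σ) (pt N k)

theorem XN_sub (hη : ∀ᵐ u ∂η, u ∈ Ioc (0 : ℝ) (2 / 9)) {σ : ℂ} (hσ : σ ∈ slitPlane) (N : ℕ) :
    ‖XN η N σ - Xf η σ‖ ≤ lip σ * (2 / (9 * (N + 1))) * η.real univ := by
  have e1 : ∑ k, (cellMass η N k : ℂ) * phi (zeta σ) (pt N k) =
      ∫ u, phi (zeta σ) (pt N (cellIdx N u)) ∂η := by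
    rw [integral_cell η N (fun k => phi (zeta σ) (pt N k))]
    simp only [real_smul]
  have hi2 : Integrable (fun u => phi (zeta σ) (pt N (cellIdx N u))) η := by
    have : Integrable (fun k => phi (zeta σ) (pt N k)) (η.map (cellIdx N)) := by
      have := Measure.isFiniteMeasure_map η (cellIdx N)
      exact Integrable.of_finite
    exact this.comp_measurable (measurable_cellIdx N)
  unfold XN Xf
  rw [e1, sub_sub_sub_cancel_left, ← integral_sub (phi_integrable hη hσ) hi2]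
  refine norm_integral_le_of_norm_le_const ?_
  filter_upwards [hη] with u hu
  have h1 := pt_cellIdx (N := N) hu
  have hpt : pt N (cellIdx N u) ∈ Icc (0 : ℝ) (2 / 9) := ⟨(pt_pos _ _).le, pt_le _ _⟩
  refine (phi_lip hσ (Ioc_subset_Icc_self hu) hpt).trans ?_
  apply mul_le_mul_of_nonneg_left
  · rw [abs_le]; constructor <;> linarith [h1.1, h1.2]
  · unfold lip; positivity

theorem sum_inv_le (hη : ∀ᵐ u ∂η, u ∈ Ioc (0 : ℝ) (2 / 9)) (hint : Integrable (fun u : ℝ => 1 / u) η)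
    (N : ℕ) : ∑ k, cellMass η N k * (1 / pt N k) ≤ ∫ u, 1 / u ∂η := by
  have e1 : ∑ k, cellMass η N k * (1 / pt N k) = ∫ u, 1 / (pt N (cellIdx N u)) ∂η := by
    rw [integral_cell η N (fun k => 1 / pt N k)]
    simp only [smul_eq_mul]
  rw [e1]
  have hi2 : Integrable (fun u => 1 / (pt N (cellIdx N u))) η := by
    have : Integrable (fun k => 1 / pt N k) (η.map (cellIdx N)) := by
      have := Measure.isFiniteMeasure_map η (cellIdx N)
      exact Integrable.of_finite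
    exact this.comp_measurable (measurable_cellIdx N)
  refine integral_mono_ae hi2 hint ?_
  filter_upwards [hη] with u hu
  exact one_div_le_one_div_of_le hu.1 (pt_cellIdx hu).1

/-- the rational complete Bernstein function of the discretization -/
noncomputable def discCB (η : Measure ℝ) [IsFiniteMeasure η] (N : ℕ) (f : ℝ) (hf : 0 < f)
    (h : ∑ k, cellMass η N k * (1 / pt N k) ≤ 1 - f) : CB N where
  b := (1 - ∑ k, cellMass η N k * (1 / pt N k)) / f - 1
  c := 9 / 2 * cellMass η N (Fin.last N) / f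
  w := fun k => (cellMass η N k.castSucc / (2 / 9 - pt N k.castSucc)) * ((2 / 9) / pt N k.castSucc) / f
  d := fun k => pt N k.castSucc / (2 / 9 - pt N k.castSucc)
  hb := by
    rw [sub_nonneg, le_div_iff₀ hf]; linarith
  hc := by
    have := cellMass_nonneg η N (Fin.last N)
    positivity
  hw := fun k => by
    have h1 := cellMass_nonneg η N k.castSucc
    have h2 := sub_pos.2 (pt_castSucc_lt N k)
    have h3 := pt_pos N k.castSucc
    positivity
  hd := fun k => div_pos (pt_pos _ _) (sub_pos.2 (pt_castSucc_lt N k))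

theorem discCB_eval (N : ℕ) (f : ℝ) (hf : 0 < f)
    (h : ∑ k, cellMass η N k * (1 / pt N k) ≤ 1 - f) {σ : ℂ} (hσ : σ ∈ slitPlane) :
    (discCB η N f hf h).eval (zeta σ) = XN η N σ / f - 1 := by
  have hfC : (f : ℂ) ≠ 0 := by exact_mod_cast hf.ne'
  unfold CB.eval discCB XN
  simp only
  push_cast
  rw [Fin.sum_univ_castSucc, Fin.sum_univ_castSucc]
  have hterm : ∀ k : Fin N, ((cellMass η N k.castSucc : ℂ) / (2 / 9 - pt N k.castSucc) *
      (2 / 9 / pt N k.castSucc) / f) * zeta σ / (zeta σ + (pt N k.castSucc / (2 / 9 - pt N k.castSucc))) =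
      ((cellMass η N k.castSucc : ℂ) * (1 / pt N k.castSucc) -
        (cellMass η N k.castSucc : ℂ) * phi (zeta σ) (pt N k.castSucc)) / f := by
    intro k
    set v : ℝ := pt N k.castSucc with hv
    set m : ℝ := cellMass η N k.castSucc with hm
    have h1 : v ∈ Icc (0 : ℝ) (2 / 9) := ⟨(pt_pos _ _).le, pt_le _ _⟩
    have h2 := den_ne hσ h1
    have h3 : (v : ℂ) ≠ 0 := by exact_mod_cast (pt_pos N k.castSucc).ne'
    have h4 : (2 / 9 - v : ℂ) ≠ 0 := by
      have h0 : ((2 / 9 - v : ℝ) : ℂ) ≠ 0 :=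
        ofReal_ne_zero.2 (sub_pos.2 (pt_castSucc_lt N k)).ne'
      have e : ((2 / 9 - v : ℝ) : ℂ) = 2 / 9 - (v : ℂ) := by push_cast; ring
      rwa [e] at h0
    unfold phi
    generalize hD : (v : ℂ) + (2 / 9 - v) * zeta σ = D at h2 ⊢
    have h5 : zeta σ + (v : ℂ) / (2 / 9 - v) = D / (2 / 9 - v) := by
      rw [eq_div_iff h4, add_mul, div_mul_cancel₀ _ h4, ← hD]; ring
    rw [h5]
    generalize hW : (2 / 9 - (v : ℂ)) = W at h4 hD ⊢
    field_simp
    rw [← hD, ← hW]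
    ring
  rw [Finset.sum_congr rfl fun k _ => hterm k, ← Finset.sum_div, Finset.sum_sub_distrib]
  have hlast : phi (zeta σ) (pt N (Fin.last N)) = 9 / 2 * (1 - zeta σ) := by
    unfold phi
    rw [pt_last]
    push_cast
    rw [sub_self, zero_mul, add_zero]
    ring
  rw [hlast, pt_last]
  push_cast
  field_simp
  ring

theorem disc (hη : ∀ᵐ u ∂η, u ∈ Ioc (0 : ℝ) (2 / 9)) {f : ℝ} (hf : 0 < f)
    (hint : Integrable (fun u : ℝ => 1 / u) η) (hle : ∫ u, 1 / u ∂η ≤ 1 - f) :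
    ∃ g : ℕ → ℂ → ℂ, (∀ N, IsoLam (g N)) ∧
      TendstoLocallyUniformlyOn g (fun σ => gq σ (Xf η σ / f - 1)) atTop slitPlane := by
  have hfC : (f : ℂ) ≠ 0 := by exact_mod_cast hf.ne'
  have hN : ∀ N, ∑ k, cellMass η N k * (1 / pt N k) ≤ 1 - f := fun N =>
    (sum_inv_le hη hint N).trans hle
  refine ⟨fun N σ => gq σ ((discCB η N f hf (hN N)).eval (zeta σ)), fun N => isoLam_gq _, ?_⟩
  -- the limit has nonnegative real part
  have hlim : ∀ σ ∈ slitPlane, Tendsto (fun N => XN η N σ) atTop (𝓝 (Xf η σ)) := by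
    intro σ hσ
    rw [tendsto_iff_norm_sub_tendsto_zero]
    refine squeeze_zero (fun _ => norm_nonneg _) (fun N => XN_sub hη hσ N) ?_
    have h1 : Tendsto (fun N : ℕ => 2 / (9 * ((N : ℝ) + 1))) atTop (𝓝 0) := by
      have := tendsto_one_div_add_atTop_nhds_zero_nat (𝕜 := ℝ)
      have h2 := this.const_mul (2 / 9)
      rw [mul_zero] at h2
      refine h2.congr fun N => ?_
      field_simp
    have h3 := (h1.const_mul (lip σ)).mul_const (η.real univ)
    simpa using h3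
  have hre : ∀ σ ∈ slitPlane, 0 ≤ (kap σ * (σ + 2) * (Xf η σ / f - 1)).re := by
    intro σ hσ
    have h1 : Tendsto (fun N => (kap σ * (σ + 2) * (XN η N σ / f - 1)).re) atTop
        (𝓝 (kap σ * (σ + 2) * (Xf η σ / f - 1)).re) := by
      apply (continuous_re.tendsto _).comp
      exact ((((hlim σ hσ).div_const _).sub_const _).const_mul _)
    refine ge_of_tendsto' h1 fun N => ?_
    rw [← discCB_eval N f hf (hN N) hσ]
    exact (discCB η N f hf (hN N)).re_eval_nonneg (zeta_mem hσ) (hp_add_two hσ) (kz_a hσ)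
  have hB : ContinuousOn (fun σ => 3 * ‖σ - 1‖ * ‖σ + 2‖ * (‖kap σ‖ / (3 * (kap σ).re)) ^ 2 *
      (lip σ * η.real univ / f)) slitPlane := by
    refine ContinuousOn.mul (ContinuousOn.mul (by fun_prop) ?_) ?_
    · refine ContinuousOn.pow (ContinuousOn.div continuousOn_kap.norm
        (continuousOn_const.mul (continuous_re.comp_continuousOn continuousOn_kap)) ?_) 2
      intro σ hσ
      have := hp_one hσ
      unfold HP at this
      rw [mul_one] at this
      exact (mul_pos (by norm_num) this).ne'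
    · exact (continuousOn_lip.mul continuousOn_const).div_const _
  refine loc_unif hB (r := fun N => 2 / (9 * ((N : ℝ) + 1))) ?_ (fun N => by positivity) ?_
  · have := tendsto_one_div_add_atTop_nhds_zero_nat (𝕜 := ℝ)
    have h2 := this.const_mul (2 / 9)
    rw [mul_zero] at h2
    refine h2.congr fun N => ?_
    field_simp
  · intro N σ hσ
    refine (gq_diff hσ ((discCB η N f hf (hN N)).re_eval_nonneg (zeta_mem hσ) (hp_add_two hσ)
      (kz_a hσ)) (hre σ hσ)).trans ?_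
    rw [discCB_eval N f hf (hN N) hσ]
    have h1 : ‖XN η N σ / f - 1 - (Xf η σ / f - 1)‖ ≤
        lip σ * (2 / (9 * (N + 1))) * η.real univ / f := by
      have e : XN η N σ / f - 1 - (Xf η σ / f - 1) = (XN η N σ - Xf η σ) / f := by ring
      rw [e, norm_div, norm_real, Real.norm_of_nonneg hf.le]
      exact div_le_div_of_nonneg_right (XN_sub hη hσ N) hf.le
    have h2 := mul_le_mul_of_nonneg_left h1
      (show 0 ≤ 3 * ‖σ - 1‖ * ‖σ + 2‖ * (‖kap σ‖ / (3 * (kap σ).re)) ^ 2 by positivity)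
    refine h2.trans (le_of_eq ?_)
    ring

end disc

end W_MP_e98908_an
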