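import Pool.Agent.W_MP_e98908_an_h89.Disc

/-!
# Analysis of equality in the phase interchange inequality
-/

namespace W_MP_e98908_an

open MeasureTheory Set Filter Topology Complex

/-- `y (1-y)` -/
noncomputable def ups (y : ℝ) : ℝ := y * (1 - y)

theorem ups_mem {y : ℝ} (hy : y ∈ Icc (0 : ℝ) 1) : ups y ∈ Icc (0 : ℝ) (1 / 4) := by
  unfold ups
  refine ⟨mul_nonneg hy.1 (sub_nonneg.2 hy.2), ?_⟩
  nlinarith [sq_nonneg (y - 1 / 2)]

theorem measurable_ups : Measurable ups := by unfold ups; fun_prop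

theorem continuous_ups : Continuous ups := by unfold ups; fun_prop

variable {ρ : Measure ℝ} [IsFiniteMeasure ρ]

/-- the generating function -/
noncomputable def kf (ρ : Measure ℝ) (t : ℂ) : ℂ := ∫ y, (2 - 3 * (y : ℂ)) / (1 + t * (ups y : ℂ)) ∂ρ

theorem norm_one_add {t : ℂ} (ht : -1 < t.re) {u : ℝ} (hu : u ∈ Icc (0 : ℝ) (1 / 4)) :
    3 / 4 ≤ ‖1 + t * (u : ℂ)‖ := by
  refine le_trans ?_ (re_le_norm _)
  rw [add_re, one_re, mul_comm, re_ofReal_mul]
  nlinarith [hu.1, hu.2]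

theorem norm_two_sub {y : ℝ} (hy : y ∈ Icc (0 : ℝ) 1) : ‖(2 - 3 * (y : ℂ))‖ ≤ 2 := by
  have : (2 - 3 * (y : ℂ)) = ((2 - 3 * y : ℝ) : ℂ) := by push_cast; ring
  rw [this, norm_real, Real.norm_eq_abs, abs_le]
  constructor <;> linarith [hy.1, hy.2]

theorem kf_differentiableOn (hρ : ∀ᵐ y ∂ρ, y ∈ Icc (0 : ℝ) 1) :
    DifferentiableOn ℂ (kf ρ) {t | -1 < t.re} := by
  have hopen : IsOpen {t : ℂ | -1 < t.re} := isOpen_lt continuous_const continuous_re
  intro t ht
  apply DifferentiableAt.differentiableWithinAt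
  have hmeas : ∀ t : ℂ, AEStronglyMeasurable
      (fun y : ℝ => (2 - 3 * (y : ℂ)) / (1 + t * (ups y : ℂ))) ρ := by
    intro t
    apply Measurable.aestronglyMeasurable
    have := measurable_ups
    fun_prop
  have hd := hasDerivAt_integral_of_dominated_loc_of_deriv_le (μ := ρ) (𝕜 := ℂ)
    (F := fun t y => (2 - 3 * (y : ℂ)) / (1 + t * (ups y : ℂ))) (x₀ := t)
    (s := {t : ℂ | -1 < t.re}) (bound := fun _ => 2)
    (F' := fun t y => -((2 - 3 * (y : ℂ)) * (ups y : ℂ)) / (1 + t * (ups y : ℂ)) ^ 2)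
    (hopen.mem_nhds ht) (Eventually.of_forall hmeas) ?_ ?_ ?_ (integrable_const _) ?_
  · exact hd.2.differentiableAt
  · refine Integrable.of_bound (hmeas t) 3 ?_
    filter_upwards [hρ] with y hy
    rw [norm_div]
    have h1 := norm_one_add ht (ups_mem hy)
    have h2 := norm_two_sub hy
    rw [div_le_iff₀ (by linarith)]
    linarith
  · apply Measurable.aestronglyMeasurable
    have := measurable_ups
    fun_prop
  · filter_upwards [hρ] with y hy
    intro t ht
    have h1 := norm_one_add ht (ups_mem hy)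
    have h2 := norm_two_sub hy
    have h3 := ups_mem hy
    rw [norm_div, norm_neg, norm_mul, norm_pow, norm_real, Real.norm_eq_abs, abs_of_nonneg h3.1]
    rw [div_le_iff₀ (by positivity)]
    have h4 : (3 / 4 : ℝ) ^ 2 ≤ ‖1 + t * (ups y : ℂ)‖ ^ 2 := by
      apply pow_le_pow_left₀ (by norm_num) h1
    have h5 : ‖(2 - 3 * (y : ℂ))‖ * ups y ≤ 2 * (1 / 4) :=
      mul_le_mul h2 h3.2 h3.1 (by norm_num)
    nlinarith
  · filter_upwards [hρ] with y hy
    intro t ht
    have h1 := norm_one_add ht (ups_mem hy)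
    have hne : 1 + t * (ups y : ℂ) ≠ 0 := norm_pos_iff.1 (by linarith)
    have h6 : HasDerivAt (fun t : ℂ => 1 + t * (ups y : ℂ)) (ups y : ℂ) t := by
      simpa using ((hasDerivAt_id t).mul_const (ups y : ℂ)).const_add 1
    have h7 := (hasDerivAt_const t (2 - 3 * (y : ℂ))).div h6 hne
    exact h7.congr_deriv (by ring)

theorem kf_zero_of_frequently (hρ : ∀ᵐ y ∂ρ, y ∈ Icc (0 : ℝ) 1) {c : ℂ} {t₀ : ℝ} (ht₀ : 0 ≤ t₀)
    (h : ∃ᶠ t : ℝ in 𝓝[≠] t₀, (t : ℂ) * kf ρ t = c) : ∀ t : ℂ, -1 < t.re → kf ρ t = 0 := by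
  set U : Set ℂ := {t : ℂ | -1 < t.re} with hU
  have hopen : IsOpen U := isOpen_lt continuous_const continuous_re
  have hconv : Convex ℝ U := convex_halfSpace_re_gt (-1)
  have hpre : IsPreconnected U := hconv.isPreconnected
  have hdk := kf_differentiableOn hρ
  have hd : DifferentiableOn ℂ (fun t => t * kf ρ t) U := differentiableOn_id.mul hdk
  have han : AnalyticOnNhd ℂ (fun t => t * kf ρ t) U := hd.analyticOnNhd hopen
  have hc : AnalyticOnNhd ℂ (fun _ : ℂ => c) U := analyticOnNhd_const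
  have ht₀U : ((t₀ : ℝ) : ℂ) ∈ U := by
    show -1 < ((t₀ : ℝ) : ℂ).re
    rw [ofReal_re]; linarith
  have hfreq : ∃ᶠ z : ℂ in 𝓝[≠] ((t₀ : ℝ) : ℂ), z * kf ρ z = c := by
    have htend : Tendsto (fun t : ℝ => (t : ℂ)) (𝓝[≠] t₀) (𝓝[≠] ((t₀ : ℝ) : ℂ)) := by
      refine tendsto_nhdsWithin_iff.2 ⟨?_, ?_⟩
      · exact (continuous_ofReal.tendsto t₀).mono_left nhdsWithin_le_nhds
      · filter_upwards [self_mem_nhdsWithin] with t ht
        intro h
        exact ht (ofReal_injective h)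
    exact htend.frequently h
  have heq : EqOn (fun t => t * kf ρ t) (fun _ => c) U :=
    han.eqOn_of_preconnected_of_frequently_eq hc hpre ht₀U hfreq
  have h0U : (0 : ℂ) ∈ U := by show -1 < (0 : ℂ).re; simp
  have hc0 : c = 0 := by
    have := heq h0U
    simp at this
    exact this.symm
  -- `kf` vanishes away from `0`
  have hne : ∀ t ∈ U, t ≠ 0 → kf ρ t = 0 := by
    intro t ht ht0
    have := heq ht
    simp only [hc0] at this
    exact (mul_eq_zero.1 this).resolve_left ht0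
  intro t ht
  by_cases ht0 : t = 0
  · subst ht0
    have hcont : ContinuousAt (kf ρ) 0 := (hdk.continuousOn).continuousAt (hopen.mem_nhds h0U)
    have h1 : Tendsto (kf ρ) (𝓝[≠] 0) (𝓝 (kf ρ 0)) := hcont.mono_left nhdsWithin_le_nhds
    have h2 : Tendsto (kf ρ) (𝓝[≠] 0) (𝓝 0) := by
      refine tendsto_const_nhds.congr' ?_
      filter_upwards [self_mem_nhdsWithin, nhdsWithin_le_nhds (hopen.mem_nhds h0U)] with z hz hzU
      exact (hne z hzU hz).symm
    exact tendsto_nhds_unique h1 h2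
  · exact hne t ht ht0

theorem integrable_bdd (hρ : ∀ᵐ y ∂ρ, y ∈ Icc (0 : ℝ) 1) {E : Type*} [NormedAddCommGroup E]
    {F : ℝ → E} (hF : ContinuousOn F (Icc 0 1)) : Integrable F ρ := by
  have h1 : ρ.restrict (Icc (0 : ℝ) 1) = ρ := Measure.restrict_eq_self_of_ae_mem hρ
  rw [← h1]
  exact hF.integrableOn_compact isCompact_Icc

/-- the real version of the moments -/
theorem moments_zero (hρ : ∀ᵐ y ∂ρ, y ∈ Icc (0 : ℝ) 1)
    (h : ∀ t : ℂ, -1 < t.re → kf ρ t = 0) (n : ℕ) :
    ∫ y, (2 - 3 * y) * ups y ^ n ∂ρ = 0 := by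
  have hcontden : ∀ t : ℝ, 0 ≤ t → ∀ y ∈ Icc (0 : ℝ) 1, 1 + t * ups y ≠ 0 := by
    intro t ht y hy
    have := mul_nonneg ht (ups_mem hy).1
    positivity
  have hcu := continuous_ups
  have hint : ∀ (t : ℝ) (_ : 0 ≤ t) (n : ℕ), Integrable
      (fun y => (2 - 3 * y) * ups y ^ n / (1 + t * ups y)) ρ := by
    intro t ht n
    refine integrable_bdd hρ (ContinuousOn.div ?_ ?_ (hcontden t ht))
    · fun_prop
    · fun_prop
  -- claim for all t ≥ 0
  suffices H : ∀ n : ℕ, ∀ t : ℝ, 0 ≤ t → ∫ y, (2 - 3 * y) * ups y ^ n / (1 + t * ups y) ∂ρ = 0 by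
    have := H n 0 le_rfl
    simpa using this
  intro n
  induction n with
  | zero =>
    intro t ht
    have h1 := h (t : ℂ) (by rw [ofReal_re]; linarith)
    unfold kf at h1
    have e : (fun y : ℝ => (2 - 3 * (y : ℂ)) / (1 + (t : ℂ) * (ups y : ℂ))) =
        fun y : ℝ => (((2 - 3 * y) * ups y ^ 0 / (1 + t * ups y) : ℝ) : ℂ) := by
      ext y; push_cast; simp
    rw [e] at h1
    have h2 : ((∫ y, (2 - 3 * y) * ups y ^ 0 / (1 + t * ups y) ∂ρ : ℝ) : ℂ) = 0 := by
      rw [← h1]; exact integral_ofReal.symm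
    exact_mod_cast h2
  | succ n ih =>
    have hM : ∫ y, (2 - 3 * y) * ups y ^ n ∂ρ = 0 := by simpa using ih 0 le_rfl
    have hMint : Integrable (fun y => (2 - 3 * y) * ups y ^ n) ρ := by
      simpa using hint 0 le_rfl n
    have hpos : ∀ t : ℝ, 0 < t → ∫ y, (2 - 3 * y) * ups y ^ (n + 1) / (1 + t * ups y) ∂ρ = 0 := by
      intro t ht
      have e : ∫ y, (2 - 3 * y) * ups y ^ (n + 1) / (1 + t * ups y) ∂ρ =
          ∫ y, (1 / t) * ((2 - 3 * y) * ups y ^ n - (2 - 3 * y) * ups y ^ n / (1 + t * ups y)) ∂ρ := by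
        apply integral_congr_ae
        filter_upwards [hρ] with y hy
        have h2 := hcontden t ht.le y hy
        field_simp
        ring
      rw [e, integral_const_mul, integral_sub hMint (hint t ht.le n), hM, ih t ht.le]
      simp
    intro t ht
    rcases ht.eq_or_lt with h0 | h0
    · rw [← h0]
      -- continuity at 0
      have hlim : Tendsto (fun m : ℕ => ∫ y, (2 - 3 * y) * ups y ^ (n + 1) /
          (1 + (1 / ((m : ℝ) + 1)) * ups y) ∂ρ) atTop
          (𝓝 (∫ y, (2 - 3 * y) * ups y ^ (n + 1) / (1 + 0 * ups y) ∂ρ)) := by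
        refine tendsto_integral_of_dominated_convergence (fun _ => 2) ?_ (integrable_const _) ?_ ?_
        · intro m
          exact (hint _ (by positivity) _).aestronglyMeasurable
        · intro m
          filter_upwards [hρ] with y hy
          have h3 := ups_mem hy
          have h4 : 1 ≤ 1 + 1 / ((m : ℝ) + 1) * ups y := by
            have := mul_nonneg (show (0 : ℝ) ≤ 1 / ((m : ℝ) + 1) by positivity) h3.1
            linarith
          have h5 : |2 - 3 * y| ≤ 2 := by rw [abs_le]; constructor <;> linarith [hy.1, hy.2]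
          have h6 : ups y ^ (n + 1) ≤ 1 := pow_le_one₀ h3.1 (by linarith [h3.2])
          have h7 : 0 ≤ ups y ^ (n + 1) := pow_nonneg h3.1 _
          have h8 : (0 : ℝ) < 1 + 1 / ((m : ℝ) + 1) * ups y := by linarith
          rw [Real.norm_eq_abs, abs_div, abs_mul, abs_of_nonneg h7, abs_of_pos h8,
            div_le_iff₀ h8]
          nlinarith [mul_le_mul h5 h6 h7 (by norm_num)]
        · filter_upwards [hρ] with y hy
          apply Tendsto.div tendsto_const_nhds
          · exact ((tendsto_one_div_add_atTop_nhds_zero_nat (𝕜 := ℝ)).mul_const _).const_add _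
          · simp
      have hlim0 : Tendsto (fun m : ℕ => ∫ y, (2 - 3 * y) * ups y ^ (n + 1) /
          (1 + (1 / ((m : ℝ) + 1)) * ups y) ∂ρ) atTop (𝓝 0) := by
        refine tendsto_const_nhds.congr fun m => ?_
        exact (hpos _ (by positivity)).symm
      exact tendsto_nhds_unique hlim hlim0
    · exact hpos t h0

theorem integral_poly_zero (hρ : ∀ᵐ y ∂ρ, y ∈ Icc (0 : ℝ) 1)
    (h : ∀ n : ℕ, ∫ y, (2 - 3 * y) * ups y ^ n ∂ρ = 0) (p : Polynomial ℝ) :
    ∫ y, (2 - 3 * y) * p.eval (ups y) ∂ρ = 0 := by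
  have hcu := continuous_ups
  have e : (fun y => (2 - 3 * y) * p.eval (ups y)) =
      fun y => ∑ i ∈ Finset.range (p.natDegree + 1), p.coeff i * ((2 - 3 * y) * ups y ^ i) := by
    ext y
    rw [Polynomial.eval_eq_sum_range, Finset.mul_sum]
    exact Finset.sum_congr rfl fun i _ => by ring
  rw [e, integral_finsetSum]
  · apply Finset.sum_eq_zero
    intro i _
    rw [integral_const_mul, h i, mul_zero]
  · intro i _
    apply Integrable.const_mul
    exact integrable_bdd hρ (by fun_prop)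

theorem integral_cont_zero (hρ : ∀ᵐ y ∂ρ, y ∈ Icc (0 : ℝ) 1)
    (h : ∀ n : ℕ, ∫ y, (2 - 3 * y) * ups y ^ n ∂ρ = 0) {F : ℝ → ℝ}
    (hF : ContinuousOn F (Icc 0 (1 / 4))) : ∫ y, (2 - 3 * y) * F (ups y) ∂ρ = 0 := by
  have hcu := continuous_ups
  have hFc : ContinuousOn (fun y => (2 - 3 * y) * F (ups y)) (Icc 0 1) := by
    refine ContinuousOn.mul (by fun_prop) ?_
    exact hF.comp hcu.continuousOn fun y hy => ups_mem hy
  by_contra hne
  set I : ℝ := ∫ y, (2 - 3 * y) * F (ups y) ∂ρ with hI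
  have hIpos : 0 < |I| := abs_pos.2 hne
  set ε : ℝ := |I| / (2 * (2 * ρ.real univ + 1)) with hε
  have hρ0 : 0 ≤ ρ.real univ := measureReal_nonneg
  have hεpos : 0 < ε := by positivity
  obtain ⟨p, hp⟩ := exists_polynomial_near_of_continuousOn 0 (1 / 4) F hF ε hεpos
  have h1 : I = ∫ y, ((2 - 3 * y) * F (ups y) - (2 - 3 * y) * p.eval (ups y)) ∂ρ := by
    rw [integral_sub (integrable_bdd hρ hFc), integral_poly_zero hρ h p, sub_zero]
    exact integrable_bdd hρ (by fun_prop)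
  have h2 : ‖I‖ ≤ (2 * ε) * ρ.real univ := by
    rw [h1]
    refine norm_integral_le_of_norm_le_const ?_
    filter_upwards [hρ] with y hy
    have h3 : |F (ups y) - p.eval (ups y)| < ε := by
      rw [abs_sub_comm]; exact hp (ups y) (ups_mem hy)
    rw [← mul_sub, norm_mul, Real.norm_eq_abs, Real.norm_eq_abs]
    have h5 : |2 - 3 * y| ≤ 2 := by rw [abs_le]; constructor <;> linarith [hy.1, hy.2]
    exact mul_le_mul h5 h3.le (abs_nonneg _) (by norm_num)
  rw [Real.norm_eq_abs] at h2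
  have h4 : (2 * ε) * ρ.real univ < |I| := by
    rw [hε]
    have : 2 * (|I| / (2 * (2 * ρ.real univ + 1))) * ρ.real univ =
        |I| * (ρ.real univ / (2 * ρ.real univ + 1)) := by field_simp
    rw [this]
    have h6 : ρ.real univ / (2 * ρ.real univ + 1) < 1 := by
      rw [div_lt_one (by positivity)]; linarith
    nlinarith
  linarith

end W_MP_e98908_an
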