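import Pool.Agent.W_MP_e98908_an_h89.Eq

/-!
# Analysis of equality in the phase interchange inequality, second part
-/

namespace W_MP_e98908_an

open MeasureTheory Set Filter Topology Complex

variable {ρ : Measure ℝ} [IsFiniteMeasure ρ]

/-- `s` avoids `[0,1]` -/
def Off (s : ℂ) : Prop := ∀ y ∈ Icc (0 : ℝ) 1, s - y ≠ 0

theorem Off.one_sub {s : ℂ} (hs : Off s) : Off (1 - s) := by
  intro y hy h
  apply hs (1 - y) ⟨by linarith [hy.2], by linarith [hy.1]⟩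
  push_cast
  linear_combination -h

theorem Off.prod {s : ℂ} (hs : Off s) {y : ℝ} (hy : y ∈ Icc (0 : ℝ) 1) :
    (ups y : ℂ) - s * (1 - s) ≠ 0 := by
  have e : (ups y : ℂ) - s * (1 - s) = -((s - y) * (1 - s - y)) := by
    unfold ups; push_cast; ring
  rw [e]
  exact neg_ne_zero.2 (mul_ne_zero (hs y hy) (hs.one_sub y hy))

theorem exists_ups {u : ℝ} (hu : u ∈ Icc (0 : ℝ) (1 / 4)) : ∃ y ∈ Icc (0 : ℝ) 1, ups y = u := by
  have h0 : 0 ≤ 1 - 4 * u := by linarith [hu.2]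
  have h1 : Real.sqrt (1 - 4 * u) ^ 2 = 1 - 4 * u := Real.sq_sqrt h0
  have h2 : 0 ≤ Real.sqrt (1 - 4 * u) := Real.sqrt_nonneg _
  have h3 : Real.sqrt (1 - 4 * u) ≤ 1 := Real.sqrt_le_one.2 (by linarith [hu.1])
  refine ⟨(1 - Real.sqrt (1 - 4 * u)) / 2, ⟨by linarith, by linarith⟩, ?_⟩
  unfold ups
  nlinarith

theorem Off.prod' {s : ℂ} (hs : Off s) {u : ℝ} (hu : u ∈ Icc (0 : ℝ) (1 / 4)) :
    (u : ℂ) - s * (1 - s) ≠ 0 := by
  obtain ⟨y, hy, rfl⟩ := exists_ups hu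
  exact hs.prod hy

theorem integral_cont_zero_complex (hρ : ∀ᵐ y ∂ρ, y ∈ Icc (0 : ℝ) 1)
    (h : ∀ n : ℕ, ∫ y, (2 - 3 * y) * ups y ^ n ∂ρ = 0) {F : ℝ → ℂ}
    (hF : ContinuousOn F (Icc 0 (1 / 4))) : ∫ y, (2 - 3 * (y : ℂ)) * F (ups y) ∂ρ = 0 := by
  have hcu := continuous_ups
  have hc : ContinuousOn (fun y : ℝ => (2 - 3 * (y : ℂ)) * F (ups y)) (Icc 0 1) := by
    refine ContinuousOn.mul (by fun_prop) ?_
    exact hF.comp hcu.continuousOn fun y hy => ups_mem hy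
  have hi := integrable_bdd hρ hc
  have hre := integral_cont_zero hρ h (F := fun u => (F u).re) (continuous_re.comp_continuousOn hF)
  have him := integral_cont_zero hρ h (F := fun u => (F u).im) (continuous_im.comp_continuousOn hF)
  have h1 : ∀ y : ℝ, ((2 - 3 * (y : ℂ)) * F (ups y)).re = (2 - 3 * y) * (F (ups y)).re := by
    intro y
    have : (2 - 3 * (y : ℂ)) = ((2 - 3 * y : ℝ) : ℂ) := by push_cast; ring
    rw [this, re_ofReal_mul]
  have h2 : ∀ y : ℝ, ((2 - 3 * (y : ℂ)) * F (ups y)).im = (2 - 3 * y) * (F (ups y)).im := by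
    intro y
    have : (2 - 3 * (y : ℂ)) = ((2 - 3 * y : ℝ) : ℂ) := by push_cast; ring
    rw [this, im_ofReal_mul]
  rw [← integral_re_add_im hi]
  simp only [RCLike.re_eq_complex_re, RCLike.im_eq_complex_im, h1, h2, hre, him]
  simp

theorem ups_le_of (hρ : ∀ᵐ y ∂ρ, y ∈ Icc (0 : ℝ) 1)
    (h : ∀ n : ℕ, ∫ y, (2 - 3 * y) * ups y ^ n ∂ρ = 0) : ∀ᵐ y ∂ρ, ups y ≤ 2 / 9 := by
  have hcu := continuous_ups
  have hF : Continuous (fun u : ℝ => max 0 (u - 2 / 9)) := by fun_prop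
  have h0 := integral_cont_zero hρ h (F := fun u => max 0 (u - 2 / 9)) hF.continuousOn
  have hnn : ∀ y : ℝ, 0 ≤ (2 - 3 * y) * max 0 (ups y - 2 / 9) := by
    intro y
    by_cases hy : ups y ≤ 2 / 9
    · rw [max_eq_left (by linarith)]; simp
    · push Not at hy
      refine mul_nonneg ?_ (le_max_left _ _)
      unfold ups at hy
      nlinarith
  have hi : Integrable (fun y => (2 - 3 * y) * max 0 (ups y - 2 / 9)) ρ :=
    integrable_bdd hρ (by fun_prop)
  have h1 := (integral_eq_zero_iff_of_nonneg hnn hi).1 h0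
  filter_upwards [h1] with y hy
  by_contra hcon
  push Not at hcon
  simp only [Pi.zero_apply] at hy
  rw [max_eq_right (by linarith)] at hy
  rcases mul_eq_zero.1 hy with h2 | h2
  · have : y = 2 / 3 := by linarith
    rw [this] at hcon
    unfold ups at hcon
    norm_num at hcon
  · linarith

/-- `R(s)` in terms of the pushed forward measure -/
theorem R_eq (hρ : ∀ᵐ y ∂ρ, y ∈ Icc (0 : ℝ) 1)
    (h : ∀ n : ℕ, ∫ y, (2 - 3 * y) * ups y ^ n ∂ρ = 0) {s : ℂ} (hs : Off s) :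
    ∫ y, (s - (y : ℂ))⁻¹ ∂ρ = (s - 1 / 3) * ∫ u, ((u : ℂ) - s * (1 - s))⁻¹ ∂(ρ.map ups) := by
  have hcu := continuous_ups
  have hFc : ContinuousOn (fun u : ℝ => ((u : ℂ) - s * (1 - s))⁻¹) (Icc 0 (1 / 4)) := by
    apply ContinuousOn.inv₀ (by fun_prop)
    intro u hu; exact hs.prod' hu
  have h0 := integral_cont_zero_complex hρ h hFc
  have hmap : ∫ u, ((u : ℂ) - s * (1 - s))⁻¹ ∂(ρ.map ups) =
      ∫ y, ((ups y : ℂ) - s * (1 - s))⁻¹ ∂ρ := by
    rw [integral_map measurable_ups.aemeasurable]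
    apply Measurable.aestronglyMeasurable
    fun_prop
  have hc1 : ContinuousOn (fun y : ℝ => ((ups y : ℂ) - s * (1 - s))⁻¹) (Icc 0 1) := by
    apply ContinuousOn.inv₀ (by fun_prop)
    intro u hu; exact hs.prod hu
  have hi1 := integrable_bdd hρ hc1
  have hc2 : ContinuousOn (fun y : ℝ => (2 - 3 * (y : ℂ)) * ((ups y : ℂ) - s * (1 - s))⁻¹)
      (Icc 0 1) := ContinuousOn.mul (by fun_prop) hc1
  have hi2 := integrable_bdd hρ hc2
  rw [hmap]
  have e : ∫ y, (s - (y : ℂ))⁻¹ ∂ρ = ∫ y, ((s - 1 / 3) * ((ups y : ℂ) - s * (1 - s))⁻¹ -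
      (1 / 3) * ((2 - 3 * (y : ℂ)) * ((ups y : ℂ) - s * (1 - s))⁻¹)) ∂ρ := by
    apply integral_congr_ae
    filter_upwards [hρ] with y hy
    have h1 := hs y hy
    have h2 := hs.one_sub y hy
    have h3 := hs.prod hy
    have e1 : (ups y : ℂ) - s * (1 - s) = -((s - y) * (1 - s - y)) := by
      unfold ups; push_cast; ring
    rw [e1]
    have h4 : -((s - y) * (1 - s - y)) ≠ 0 := by rw [← e1]; exact h3
    field_simp
    ring
  rw [e, integral_sub (hi1.const_mul _) (hi2.const_mul _), integral_const_mul, integral_const_mul,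
    h0]
  ring

/-- the combination of `R(s)` and `R(1-s)` -/
theorem R_comb (hρ : ∀ᵐ y ∂ρ, y ∈ Icc (0 : ℝ) 1) {s : ℂ} (hs : Off s) (hss : s * (s - 1) ≠ 0) :
    (3 * s - 2) * ∫ y, (s - (y : ℂ))⁻¹ ∂ρ + (3 * s - 1) * ∫ y, (1 - s - (y : ℂ))⁻¹ ∂ρ =
      -(2 * s - 1) * ((s * (s - 1))⁻¹ * kf ρ ((s * (s - 1))⁻¹)) := by
  have hcu := continuous_ups
  have hi1 : Integrable (fun y : ℝ => (s - (y : ℂ))⁻¹) ρ := by
    apply integrable_bdd hρ
    apply ContinuousOn.inv₀ (by fun_prop)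
    exact hs
  have hi2 : Integrable (fun y : ℝ => (1 - s - (y : ℂ))⁻¹) ρ := by
    apply integrable_bdd hρ
    apply ContinuousOn.inv₀ (by fun_prop)
    exact hs.one_sub
  unfold kf
  rw [← integral_const_mul, ← integral_const_mul, ← integral_const_mul, ← integral_const_mul,
    ← integral_add (hi1.const_mul _) (hi2.const_mul _)]
  apply integral_congr_ae
  filter_upwards [hρ] with y hy
  have h1 := hs y hy
  have h2 := hs.one_sub y hy
  have h3 := hs.prod hy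
  have e1 : 1 + (s * (s - 1))⁻¹ * (ups y : ℂ) = (s * (s - 1))⁻¹ * -((s - y) * (1 - s - y)) := by
    rw [eq_comm, inv_mul_eq_iff_eq_mul₀ hss, mul_add, ← mul_assoc, mul_inv_cancel₀ hss]
    unfold ups; push_cast; ring
  rw [e1]
  generalize hT : s * (s - 1) = T at hss ⊢
  field_simp
  ring

end W_MP_e98908_an
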