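import Pool.Agent.W_MP_e98908_an_h89.Eq2

/-!
# Analysis of equality in the phase interchange inequality, third part
-/

namespace W_MP_e98908_an

open MeasureTheory Set Filter Topology Complex

/-- the denominator function -/
noncomputable def Df (ρ : Measure ℝ) (a : ℝ) (s : ℂ) : ℂ := s - a - ∫ y, (s - (y : ℂ))⁻¹ ∂ρ

/-- the parameter -/
noncomputable def sp (σ : ℂ) : ℂ := 1 / (1 - σ)

theorem off_sp {σ : ℂ} (hσ : σ ∈ slitPlane) (h1 : σ ≠ 1) : Off (sp σ) := by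
  intro y hy h
  have h1' : 1 - σ ≠ 0 := sub_ne_zero.2 h1.symm
  unfold sp at h
  have hy1 : (1 : ℂ) = y * (1 - σ) := by
    rw [sub_eq_zero, div_eq_iff h1'] at h; exact h
  have hy0 : y ≠ 0 := by rintro rfl; simp at hy1
  have hyC : (y : ℂ) ≠ 0 := by exact_mod_cast hy0
  have hσ' : σ = ((1 - 1 / y : ℝ) : ℂ) := by
    push_cast; field_simp; linear_combination hy1
  rcases mem_slitPlane_iff.1 hσ with h | h
  · rw [hσ', ofReal_re] at h
    have hyp : 0 < y := lt_of_le_of_ne hy.1 hy0.symm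
    have : 1 ≤ 1 / y := by rw [le_div_iff₀ hyp]; linarith [hy.2]
    linarith
  · rw [hσ', ofReal_im] at h
    exact h rfl

theorem one_sub_sp {x : ℂ} (hx : x ≠ 0) (h1 : x ≠ 1) : 1 - sp x = sp (1 / x) := by
  have h1' : 1 - x ≠ 0 := sub_ne_zero.2 h1.symm
  have h2 : 1 - 1 / x ≠ 0 := by
    rw [sub_ne_zero]; intro h
    apply h1
    rw [eq_div_iff hx, one_mul] at h; exact h
  have h3 : x - 1 ≠ 0 := sub_ne_zero.2 h1
  unfold sp
  rw [show 1 - 1 / x = (x - 1) / x by field_simp]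
  field_simp
  ring

variable {ρ : Measure ℝ} [IsFiniteMeasure ρ]

/-- equality at one point, in terms of `kf` -/
theorem kf_of_equality (hρ : ∀ᵐ y ∂ρ, y ∈ Icc (0 : ℝ) 1) {a f : ℝ} (hf : 0 < f) {g : ℂ → ℂ}
    (hD : ∀ σ ∈ slitPlane, σ ≠ 1 → Df ρ a (sp σ) ≠ 0)
    (hg : ∀ σ ∈ slitPlane, σ ≠ 1 → g σ = 1 - f / Df ρ a (sp σ))
    {x : ℝ} (hx : 0 < x) (hx1 : x ≠ 1)
    (heq : g x * g (1 / x) + (g x + x * g (1 / x)) / (x + 1) = 2) :
    (((1 - x) ^ 2 / x : ℝ) : ℂ) * kf ρ (((1 - x) ^ 2 / x : ℝ) : ℂ) = f + 3 * a - 1 := by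
  have hfC : (f : ℂ) ≠ 0 := by exact_mod_cast hf.ne'
  have hxC : (x : ℂ) ≠ 0 := by exact_mod_cast hx.ne'
  have hx1C : (x : ℂ) ≠ 1 := by exact_mod_cast hx1
  have hxs : (x : ℂ) ∈ slitPlane := by
    rw [mem_slitPlane_iff]; left; simpa using hx
  have hxs' : 1 / (x : ℂ) ∈ slitPlane := by
    rw [mem_slitPlane_iff]; left
    have : 1 / (x : ℂ) = ((1 / x : ℝ) : ℂ) := by push_cast; rfl
    rw [this, ofReal_re]; positivity
  have hx1' : 1 / (x : ℂ) ≠ 1 := by
    intro h; apply hx1C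
    rw [div_eq_iff hxC, one_mul] at h; exact h.symm
  have hU := hD x hxs hx1C
  have hV := hD (1 / x) hxs' hx1'
  have hgU := hg x hxs hx1C
  have hgV := hg (1 / x) hxs' hx1'
  rw [← one_sub_sp hxC hx1C] at hV hgV
  set s : ℂ := sp x with hs
  have hoff : Off s := off_sp hxs hx1C
  have h1x : (1 : ℂ) - x ≠ 0 := sub_ne_zero.2 hx1C.symm
  have hs0 : s ≠ 0 := by
    rw [hs]; unfold sp; exact div_ne_zero one_ne_zero h1x
  have hxp1 : (x : ℂ) + 1 ≠ 0 := by
    have : (x + 1 : ℝ) ≠ 0 := by positivity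
    exact_mod_cast this
  have hxe : (x : ℂ) = (s - 1) / s := by
    rw [hs]; unfold sp; field_simp; ring
  have hs1 : s - 1 ≠ 0 := by
    intro h
    rw [h, zero_div] at hxe; exact hxC hxe
  have h2s : 2 * s - 1 ≠ 0 := by
    intro h
    apply hxp1
    rw [hxe]
    have : (s - 1) / s + 1 = (2 * s - 1) / s := by field_simp; ring
    rw [this, h]; simp
  have hTe : (((1 - x) ^ 2 / x : ℝ) : ℂ) = (s * (s - 1))⁻¹ := by
    rw [hs]; unfold sp
    push_cast
    rw [show (1 : ℂ) / (1 - x) - 1 = x / (1 - x) by field_simp; ring]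
    field_simp
  rw [hTe]
  have hcomb := R_comb hρ hoff (mul_ne_zero hs0 hs1)
  have hUe : Df ρ a s = s - a - ∫ y, (s - (y : ℂ))⁻¹ ∂ρ := rfl
  have hVe : Df ρ a (1 - s) = 1 - s - a - ∫ y, (1 - s - (y : ℂ))⁻¹ ∂ρ := rfl
  generalize hRU : ∫ y, (s - (y : ℂ))⁻¹ ∂ρ = RU at hcomb hUe
  generalize hRV : ∫ y, (1 - s - (y : ℂ))⁻¹ ∂ρ = RV at hcomb hVe
  generalize (s * (s - 1))⁻¹ * kf ρ (s * (s - 1))⁻¹ = K at hcomb ⊢
  generalize hUg : Df ρ a s = U at hU hUe hgU
  generalize hVg : Df ρ a (1 - s) = V at hV hVe hgV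
  rw [hgU, hgV, hxe] at heq
  have e1 : (s - 1) / s + 1 = (2 * s - 1) / s := by field_simp; ring
  rw [e1] at heq
  have key : (3 * s - 2) * U + (3 * s - 1) * V = (2 * s - 1) * f := by
    have h1 : ((1 - f / U) * (1 - f / V) + (1 - f / U + (s - 1) / s * (1 - f / V)) /
        ((2 * s - 1) / s) - 2) * (U * V * (2 * s - 1)) = 0 := by
      rw [heq]; ring
    have h2 : ((1 - f / U) * (1 - f / V) + (1 - f / U + (s - 1) / s * (1 - f / V)) /
        ((2 * s - 1) / s) - 2) * (U * V * (2 * s - 1)) =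
        -f * ((3 * s - 2) * U + (3 * s - 1) * V - (2 * s - 1) * f) := by
      generalize hW : 2 * s - 1 = W at h2s ⊢
      have hsW : s = (W + 1) / 2 := by rw [← hW]; ring
      field_simp
      rw [hsW]
      ring
    rw [h2] at h1
    have h3 := (mul_eq_zero.1 h1).resolve_left (neg_ne_zero.2 hfC)
    linear_combination h3
  have h4 : (2 * s - 1) * (K - (f + 3 * a - 1)) = 0 := by
    rw [hUe, hVe] at key
    linear_combination key + hcomb
  have h5 := (mul_eq_zero.1 h4).resolve_left h2s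
  linear_combination h5

theorem tend_tau {x₀ : ℝ} (hx₀ : 0 < x₀) :
    Tendsto (fun x : ℝ => (1 - x) ^ 2 / x) (𝓝[≠] x₀) (𝓝[≠] ((1 - x₀) ^ 2 / x₀)) := by
  refine tendsto_nhdsWithin_iff.2 ⟨?_, ?_⟩
  · have : ContinuousAt (fun x : ℝ => (1 - x) ^ 2 / x) x₀ := by
      apply ContinuousAt.div
      · fun_prop
      · fun_prop
      · exact hx₀.ne'
    exact this.tendsto.mono_left nhdsWithin_le_nhds
  · have h1 : ∀ᶠ x in 𝓝[≠] x₀, 0 < x := nhdsWithin_le_nhds (lt_mem_nhds hx₀)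
    have h2 : ∀ᶠ x in 𝓝[≠] x₀, x * x₀ ≠ 1 := by
      by_cases h : x₀ = 1
      · subst h
        filter_upwards [self_mem_nhdsWithin] with x hx
        simpa using hx
      · have h3 : x₀ * x₀ ≠ 1 := by
          intro h4
          have : (x₀ - 1) * (x₀ + 1) = 0 := by linear_combination h4
          rcases mul_eq_zero.1 this with h5 | h5
          · exact h (by linarith)
          · linarith
        have h4 : ContinuousAt (fun x : ℝ => x * x₀) x₀ := by fun_prop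
        exact nhdsWithin_le_nhds (h4.eventually_ne h3)
    filter_upwards [self_mem_nhdsWithin, h1, h2] with x hx hx0 hx1
    intro h
    simp only [mem_singleton_iff] at h
    have hx' : x ≠ x₀ := hx
    rw [div_eq_div_iff hx0.ne' hx₀.ne'] at h
    have h3 : (x - x₀) * (x * x₀ - 1) = 0 := by linear_combination h
    rcases mul_eq_zero.1 h3 with h4 | h4
    · exact hx' (by linarith)
    · exact hx1 (by linarith)

/-- the moment relations from equality -/
theorem moments_of_equality (hρ : ∀ᵐ y ∂ρ, y ∈ Icc (0 : ℝ) 1) {a f : ℝ} (hf : 0 < f) {g : ℂ → ℂ}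
    (hD : ∀ σ ∈ slitPlane, σ ≠ 1 → Df ρ a (sp σ) ≠ 0)
    (hg : ∀ σ ∈ slitPlane, σ ≠ 1 → g σ = 1 - f / Df ρ a (sp σ))
    {x₀ : ℝ} (hx₀ : 0 < x₀)
    (heq : ∃ᶠ x : ℝ in 𝓝[≠] x₀,
      g x * g (1 / x) + (g x + x * g (1 / x)) / (x + 1) = 2) :
    3 * a = 1 - f ∧ ∀ n : ℕ, ∫ y, (2 - 3 * y) * ups y ^ n ∂ρ = 0 := by
  have hpos : ∀ᶠ x in 𝓝[≠] x₀, 0 < x := nhdsWithin_le_nhds (lt_mem_nhds hx₀)
  have hne1 : ∀ᶠ x in 𝓝[≠] x₀, x ≠ 1 := by
    by_cases h : x₀ = 1
    · subst h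
      exact self_mem_nhdsWithin
    · exact nhdsWithin_le_nhds (eventually_ne_nhds h)
  have h1 : ∃ᶠ x : ℝ in 𝓝[≠] x₀, (((1 - x) ^ 2 / x : ℝ) : ℂ) * kf ρ (((1 - x) ^ 2 / x : ℝ) : ℂ) =
      f + 3 * a - 1 := by
    refine (heq.and_eventually (hpos.and hne1)).mono ?_
    rintro x ⟨h, hx, hx1⟩
    exact kf_of_equality hρ hf hD hg hx hx1 h
  have h2 : ∃ᶠ t : ℝ in 𝓝[≠] ((1 - x₀) ^ 2 / x₀), (t : ℂ) * kf ρ t = f + 3 * a - 1 :=
    (tend_tau hx₀).frequently h1
  have h3 := kf_zero_of_frequently hρ (by positivity) h2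
  obtain ⟨x, h4, hx⟩ := (h1.and_eventually hpos).exists
  rw [h3 _ (by rw [ofReal_re]; have : 0 ≤ (1 - x) ^ 2 / x := by positivity
               linarith)] at h4
  constructor
  · have : (0 : ℂ) = ((f + 3 * a - 1 : ℝ) : ℂ) := by push_cast; rw [← h4]; ring
    have h5 : (0 : ℝ) = f + 3 * a - 1 := by exact_mod_cast this
    linarith
  · exact moments_zero hρ h3

/-- the limit case of the lower bound for the denominator -/
theorem eta_props (hρ : ∀ᵐ y ∂ρ, y ∈ Icc (0 : ℝ) 1) {a f : ℝ} (hf : 0 < f)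
    (ha : 3 * a = 1 - f) (hmom : ∀ n : ℕ, ∫ y, (2 - 3 * y) * ups y ^ n ∂ρ = 0)
    (hDf : ∀ s : ℝ, 1 < s → f ≤ (Df ρ a s).re) :
    (∀ᵐ u ∂(ρ.map ups), u ∈ Ioc (0 : ℝ) (2 / 9)) ∧
    Integrable (fun u : ℝ => 1 / u) (ρ.map ups) ∧ ∫ u, 1 / u ∂(ρ.map ups) ≤ 1 - f := by
  have hcu := continuous_ups
  have hmu := measurable_ups
  set η : Measure ℝ := ρ.map ups with hη
  have : IsFiniteMeasure η := by rw [hη]; infer_instance
  have hIcc : ∀ᵐ u ∂η, u ∈ Icc (0 : ℝ) (2 / 9) := by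
    rw [hη]
    refine (ae_map_iff hmu.aemeasurable measurableSet_Icc).2 ?_
    filter_upwards [hρ, ups_le_of hρ hmom] with y hy1 hy2
    exact ⟨(ups_mem hy1).1, hy2⟩
  -- integrals
  have hintt : ∀ t : ℝ, 0 < t → Integrable (fun u : ℝ => (u + t)⁻¹) η := by
    intro t ht
    refine Integrable.of_bound (by fun_prop) t⁻¹ ?_
    filter_upwards [hIcc] with u hu
    have : 0 < u + t := by linarith [hu.1]
    rw [Real.norm_eq_abs, abs_of_pos (inv_pos.2 this)]
    exact inv_anti₀ ht (by linarith [hu.1])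
  have hI : ∀ s : ℝ, 1 < s → ∫ u, (u + s * (s - 1))⁻¹ ∂η ≤ 1 - 2 * f / (3 * s - 1) := by
    intro s hs
    have hoff : Off (s : ℂ) := by
      intro y hy h
      have : ((s - y : ℝ) : ℂ) = 0 := by push_cast; exact h
      have h2 : s - y = 0 := by exact_mod_cast this
      linarith [hy.2]
    have h1 := hDf s hs
    have h2 : Df ρ a s = ((s - a - (s - 1 / 3) * ∫ u, (u + s * (s - 1))⁻¹ ∂η : ℝ) : ℂ) := by
      unfold Df
      rw [R_eq hρ hmom hoff, ← hη]
      have e : (fun u : ℝ => ((u : ℂ) - (s : ℂ) * (1 - s))⁻¹) =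
          fun u : ℝ => (((u + s * (s - 1))⁻¹ : ℝ) : ℂ) := by
        ext u; push_cast; congr 1; ring
      rw [e]
      have e' : ∫ u : ℝ, (((u + s * (s - 1))⁻¹ : ℝ) : ℂ) ∂η =
          ((∫ u : ℝ, (u + s * (s - 1))⁻¹ ∂η : ℝ) : ℂ) := integral_ofReal
      rw [e']
      push_cast; ring
    rw [h2, ofReal_re] at h1
    have h3 : 0 < 3 * s - 1 := by linarith
    set I : ℝ := ∫ u, (u + s * (s - 1))⁻¹ ∂η
    have h4 : I * (3 * s - 1) ≤ (3 * s - 1) - 2 * f := by
      have : a = (1 - f) / 3 := by linarith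
      rw [this] at h1
      nlinarith
    have h5 : 1 - 2 * f / (3 * s - 1) = ((3 * s - 1) - 2 * f) / (3 * s - 1) := by
      field_simp
    rw [h5, le_div_iff₀ h3]
    exact h4
  -- the sequence
  set sn : ℕ → ℝ := fun n => 1 + 1 / ((n : ℝ) + 1) with hsn
  have hsn1 : ∀ n, 1 < sn n := by
    intro n; rw [hsn]; simp only; have : (0 : ℝ) < 1 / ((n : ℝ) + 1) := by positivity
    linarith
  have hsnt : Tendsto sn atTop (𝓝 1) := by
    have := (tendsto_one_div_add_atTop_nhds_zero_nat (𝕜 := ℝ)).const_add 1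
    rw [add_zero] at this
    exact this
  have htt : Tendsto (fun n => sn n * (sn n - 1)) atTop (𝓝 0) := by
    have := hsnt.mul (hsnt.sub_const 1)
    simpa using this
  have hft := lintegral_liminf_le (μ := η) (u := atTop) (f := fun (n : ℕ) (u : ℝ) =>
    (ENNReal.ofReal (u + sn n * (sn n - 1)))⁻¹) (fun n => by fun_prop)
  have hlhs : ∫⁻ u, (ENNReal.ofReal u)⁻¹ ∂η = ∫⁻ u, liminf (fun n : ℕ =>
      (ENNReal.ofReal (u + sn n * (sn n - 1)))⁻¹) atTop ∂η := by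
    congr 1
    ext u
    have h1 : Tendsto (fun n => u + sn n * (sn n - 1)) atTop (𝓝 u) := by
      simpa using htt.const_add u
    have h2 := (ENNReal.tendsto_ofReal h1)
    exact (ENNReal.tendsto_inv_iff.2 h2).liminf_eq.symm
  have hrhs : liminf (fun n : ℕ => ∫⁻ u, (ENNReal.ofReal (u + sn n * (sn n - 1)))⁻¹ ∂η) atTop ≤
      ENNReal.ofReal (1 - f) := by
    have h1 : ∀ n, ∫⁻ u, (ENNReal.ofReal (u + sn n * (sn n - 1)))⁻¹ ∂η ≤
        ENNReal.ofReal (1 - 2 * f / (3 * sn n - 1)) := by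
      intro n
      have hpos : 0 < sn n * (sn n - 1) := mul_pos (by linarith [hsn1 n]) (by linarith [hsn1 n])
      have h2 : ∫⁻ u, (ENNReal.ofReal (u + sn n * (sn n - 1)))⁻¹ ∂η =
          ENNReal.ofReal (∫ u, (u + sn n * (sn n - 1))⁻¹ ∂η) := by
        rw [ofReal_integral_eq_lintegral_ofReal (hintt _ hpos)]
        · apply lintegral_congr_ae
          filter_upwards [hIcc] with u hu
          rw [ENNReal.ofReal_inv_of_pos (by linarith [hu.1])]
        · filter_upwards [hIcc] with u hu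
          have : 0 < u + sn n * (sn n - 1) := by linarith [hu.1]
          exact (inv_pos.2 this).le
      rw [h2]
      exact ENNReal.ofReal_le_ofReal (hI _ (hsn1 n))
    have h2 : Tendsto (fun n => ENNReal.ofReal (1 - 2 * f / (3 * sn n - 1))) atTop
        (𝓝 (ENNReal.ofReal (1 - f))) := by
      apply ENNReal.tendsto_ofReal
      have h3 : Tendsto (fun n => 3 * sn n - 1) atTop (𝓝 2) := by
        have := (hsnt.const_mul 3).sub_const 1
        norm_num at this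
        exact this
      have h4 := (tendsto_const_nhds (x := 2 * f)).div h3 (by norm_num)
      have h5 := h4.const_sub 1
      have e : 1 - 2 * f / 2 = 1 - f := by ring
      rw [e] at h5
      exact h5
    calc _ ≤ liminf (fun n => ENNReal.ofReal (1 - 2 * f / (3 * sn n - 1))) atTop :=
          liminf_le_liminf (Eventually.of_forall h1)
      _ = _ := h2.liminf_eq
  have hmain : ∫⁻ u, (ENNReal.ofReal u)⁻¹ ∂η ≤ ENNReal.ofReal (1 - f) := by
    rw [hlhs]; exact hft.trans hrhs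
  have hfin : ∀ᵐ u ∂η, (ENNReal.ofReal u)⁻¹ < ⊤ := by
    apply ae_lt_top (by fun_prop)
    exact (hmain.trans_lt ENNReal.ofReal_lt_top).ne
  have hIoc : ∀ᵐ u ∂η, u ∈ Ioc (0 : ℝ) (2 / 9) := by
    filter_upwards [hIcc, hfin] with u hu hu2
    refine ⟨?_, hu.2⟩
    rw [ENNReal.inv_lt_top] at hu2
    exact ENNReal.ofReal_pos.1 hu2
  have hlin : ∫⁻ u, ENNReal.ofReal (1 / u) ∂η ≤ ENNReal.ofReal (1 - f) := by
    refine le_trans (le_of_eq ?_) hmain
    apply lintegral_congr_ae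
    filter_upwards [hIoc] with u hu
    rw [one_div, ENNReal.ofReal_inv_of_pos hu.1]
  have hint : Integrable (fun u : ℝ => 1 / u) η := by
    refine ⟨by fun_prop, ?_⟩
    rw [hasFiniteIntegral_iff_ofReal]
    · exact hlin.trans_lt ENNReal.ofReal_lt_top
    · filter_upwards [hIoc] with u hu
      have := hu.1
      positivity
  refine ⟨hIoc, hint, ?_⟩
  -- `1 - f ≥ 0`
  have h1f : 0 ≤ 1 - f := by
    have h0 : ∀ n, 0 ≤ 1 - 2 * f / (3 * sn n - 1) := by
      intro n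
      have hpos : 0 < sn n * (sn n - 1) := mul_pos (by linarith [hsn1 n]) (by linarith [hsn1 n])
      refine le_trans (integral_nonneg_of_ae ?_) (hI _ (hsn1 n))
      filter_upwards [hIcc] with u hu
      have : 0 < u + sn n * (sn n - 1) := by linarith [hu.1]
      exact (inv_pos.2 this).le
    have h3 : Tendsto (fun n => 3 * sn n - 1) atTop (𝓝 2) := by
      have := (hsnt.const_mul 3).sub_const 1
      norm_num at this
      exact this
    have h4 := (tendsto_const_nhds (x := 2 * f)).div h3 (by norm_num)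
    have h5 := h4.const_sub 1
    have e : 1 - 2 * f / 2 = 1 - f := by ring
    rw [e] at h5
    exact ge_of_tendsto' h5 h0
  rw [← ENNReal.ofReal_le_ofReal_iff h1f, ofReal_integral_eq_lintegral_ofReal hint]
  · exact hlin
  · filter_upwards [hIoc] with u hu
    have := hu.1
    positivity

theorem phi_eq {σ : ℂ} (hσ : σ ∈ slitPlane) (h1 : σ ≠ 1) (u : ℝ) :
    ((u : ℂ) - sp σ * (1 - sp σ))⁻¹ = phi (zeta σ) u := by
  have h1' : 1 - σ ≠ 0 := sub_ne_zero.2 h1.symm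
  have ha := add_two_ne hσ
  have hb := two_add_one_ne hσ
  have e1 : (u : ℂ) - sp σ * (1 - sp σ) = (u * (1 - σ) ^ 2 + σ) / (1 - σ) ^ 2 := by
    unfold sp; field_simp; ring
  have e2 : 1 - zeta σ = 2 * (1 - σ) ^ 2 / ((σ + 2) * (2 * σ + 1)) := by
    unfold zeta
    rw [eq_div_iff (mul_ne_zero ha hb), sub_mul, div_mul_cancel₀ _ (mul_ne_zero ha hb)]; ring
  have e3 : (u : ℂ) + (2 / 9 - u) * zeta σ = 2 * (u * (1 - σ) ^ 2 + σ) / ((σ + 2) * (2 * σ + 1)) := by
    have : (u : ℂ) + (2 / 9 - u) * zeta σ = u * (1 - zeta σ) + 2 / 9 * zeta σ := by ring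
    rw [this, e2]
    unfold zeta
    generalize hP : (σ + 2) * (2 * σ + 1) = P
    have hP0 : P ≠ 0 := by rw [← hP]; exact mul_ne_zero ha hb
    field_simp
  unfold phi
  rw [e1, e2, e3, inv_div]
  have hP0 := mul_ne_zero ha hb
  by_cases hz : (u * (1 - σ) ^ 2 + σ : ℂ) = 0
  · rw [hz]; simp
  · generalize hQ : 2 * σ + 1 = Q at hb ⊢
    generalize hP : σ + 2 = P at ha ⊢
    generalize (u * (1 - σ) ^ 2 + σ : ℂ) = Z at hz ⊢
    field_simp

/-- **the analytic core**: spectral data attaining equality are realizable by laminates -/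
theorem core (hρ : ∀ᵐ y ∂ρ, y ∈ Icc (0 : ℝ) 1) {a f : ℝ} (hf : 0 < f) {g : ℂ → ℂ}
    (hD : ∀ σ ∈ slitPlane, σ ≠ 1 → Df ρ a (sp σ) ≠ 0)
    (hg : ∀ σ ∈ slitPlane, σ ≠ 1 → g σ = 1 - f / Df ρ a (sp σ)) (hg1 : g 1 = 1)
    (hDf : ∀ s : ℝ, 1 < s → f ≤ (Df ρ a s).re)
    {x₀ : ℝ} (hx₀ : 0 < x₀)
    (heq : ∃ᶠ x : ℝ in 𝓝[≠] x₀,
      g x * g (1 / x) + (g x + x * g (1 / x)) / (x + 1) = 2) :
    ∃ G : ℕ → ℂ → ℂ, (∀ N, IsoLam (G N)) ∧ TendstoLocallyUniformlyOn G g atTop slitPlane := by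
  have hfC : (f : ℂ) ≠ 0 := by exact_mod_cast hf.ne'
  obtain ⟨ha, hmom⟩ := moments_of_equality hρ hf hD hg hx₀ heq
  obtain ⟨hη, hint, hle⟩ := eta_props hρ hf ha hmom hDf
  obtain ⟨G, hG, hGt⟩ := disc hη hf hint hle
  refine ⟨G, hG, hGt.congr_right ?_⟩
  intro σ hσ
  by_cases h1 : σ = 1
  · subst h1
    rw [hg1]
    have hz : zeta 1 = 1 := by unfold zeta; norm_num
    have hX : Xf (ρ.map ups) 1 = 1 := by
      unfold Xf phi
      rw [hz]; simp
    simp only [hX]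
    unfold gq
    have : (1 + 2 : ℂ) * (1 / f - 1) + 3 = 3 / f := by field_simp; ring
    rw [mul_one, this, div_self]
    exact div_ne_zero (by norm_num) hfC
  · have h1' : 1 - σ ≠ 0 := sub_ne_zero.2 (Ne.symm h1)
    have hD1 := hD σ hσ h1
    rw [hg σ hσ h1]
    have hoff := off_sp hσ h1
    have hX : Xf (ρ.map ups) σ = 1 - ∫ u, ((u : ℂ) - sp σ * (1 - sp σ))⁻¹ ∂(ρ.map ups) := by
      unfold Xf
      congr 1
      apply integral_congr_ae
      exact Eventually.of_forall fun u => (phi_eq hσ h1 u).symm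
    have hDe : Df ρ a (sp σ) = ((σ + 2) * Xf (ρ.map ups) σ + f * (1 - σ)) / (3 * (1 - σ)) := by
      rw [hX]
      unfold Df
      rw [R_eq hρ hmom hoff]
      generalize ∫ u, ((u : ℂ) - sp σ * (1 - sp σ))⁻¹ ∂(ρ.map ups) = I
      have haC : (a : ℂ) = (1 - f) / 3 := by
        have : a = (1 - f) / 3 := by linarith
        rw [this]; push_cast; ring
      rw [haC]
      unfold sp
      field_simp
      ring
    rw [hDe] at hD1 ⊢
    simp only
    generalize Xf (ρ.map ups) σ = X at hD1 ⊢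
    have hnum : (σ + 2) * X + f * (1 - σ) ≠ 0 := by
      intro h; rw [h] at hD1; simp at hD1
    unfold gq
    have e1 : (σ + 2) * (X / f - 1) + 3 = ((σ + 2) * X + f * (1 - σ)) / f := by
      field_simp; ring
    have e2 : (σ + 2) * (X / f - 1) + 3 * σ = ((σ + 2) * X - 2 * f * (1 - σ)) / f := by
      field_simp; ring
    rw [e1, e2]
    generalize hW : (σ + 2) * X + f * (1 - σ) = W at hnum ⊢
    have hX' : (σ + 2) * X = W - f * (1 - σ) := by rw [← hW]; ring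
    rw [hX']
    field_simp
    ring

end W_MP_e98908_an
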