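import Pool.Agent.W_MP_e98908_an_h89.CB

/-!
# Realization of rational conductivity functions by laminates
-/

namespace W_MP_e98908_an

open Complex

/-- the variable `ζ = 9σ / ((σ+2)(2σ+1))`. -/
noncomputable def zeta (σ : ℂ) : ℂ := 9 * σ / ((σ + 2) * (2 * σ + 1))

/-- conductivity in terms of `q` -/
noncomputable def gq (σ q : ℂ) : ℂ := ((σ + 2) * q + 3 * σ) / ((σ + 2) * q + 3)

/-- the same with the phases interchanged -/
noncomputable def gt (σ Q : ℂ) : ℂ := σ * ((2 * σ + 1) * Q + 3) / ((2 * σ + 1) * Q + 3 * σ)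

theorem hp_add_two {σ : ℂ} (hσ : σ ∈ slitPlane) : HP (kap σ) (σ + 2) := by
  have h := (hp_self hσ).add ((hp_one hσ).smul (t := 2) (by norm_num))
  simpa using h

theorem hp_two_add_one {σ : ℂ} (hσ : σ ∈ slitPlane) : HP (kap σ) (2 * σ + 1) := by
  have h := ((hp_self hσ).smul (t := 2) (by norm_num)).add (hp_one hσ)
  simpa using h

theorem add_two_ne {σ : ℂ} (hσ : σ ∈ slitPlane) : σ + 2 ≠ 0 := (hp_add_two hσ).ne_zero

theorem two_add_one_ne {σ : ℂ} (hσ : σ ∈ slitPlane) : 2 * σ + 1 ≠ 0 := (hp_two_add_one hσ).ne_zero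

theorem hp_a {σ : ℂ} (hσ : σ ∈ slitPlane) : HP (kap σ) (9 * σ / (2 * σ + 1)) := by
  have h := (hp_self hσ).harm (hp_one hσ) (θ := 1 / 3) (by norm_num) (by norm_num)
  have h' := h.smul (t := 3) (by norm_num)
  have e : ((3 : ℝ) : ℂ) * (σ * 1 / ((1 - ((1 / 3 : ℝ) : ℂ)) * σ + ((1 / 3 : ℝ) : ℂ) * 1)) =
      9 * σ / (2 * σ + 1) := by
    have h1 := two_add_one_ne hσ
    have : (1 - ((1 / 3 : ℝ) : ℂ)) * σ + ((1 / 3 : ℝ) : ℂ) * 1 = (2 * σ + 1) / 3 := by
      push_cast; ring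
    rw [this]; push_cast; field_simp; ring
  rwa [e] at h'

theorem hp_b {σ : ℂ} (hσ : σ ∈ slitPlane) : HP (kap σ) (9 * σ / (σ + 2)) := by
  have h := (hp_self hσ).harm (hp_one hσ) (θ := 2 / 3) (by norm_num) (by norm_num)
  have h' := h.smul (t := 3) (by norm_num)
  have e : ((3 : ℝ) : ℂ) * (σ * 1 / ((1 - ((2 / 3 : ℝ) : ℂ)) * σ + ((2 / 3 : ℝ) : ℂ) * 1)) =
      9 * σ / (σ + 2) := by
    have h1 := add_two_ne hσ
    have : (1 - ((2 / 3 : ℝ) : ℂ)) * σ + ((2 / 3 : ℝ) : ℂ) * 1 = (σ + 2) / 3 := by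
      push_cast; ring
    rw [this]; push_cast; field_simp; ring
  rwa [e] at h'

theorem slit_of_re {l z : ℂ} (h1 : 0 < l.re) (h2 : 0 < (l * z).re) : z ∈ slitPlane := by
  rw [mem_slitPlane_iff]
  by_contra hcon
  push Not at hcon
  obtain ⟨hre, him⟩ := hcon
  have : z = (z.re : ℂ) := by
    apply Complex.ext <;> simp [him]
  rw [this, mul_comm, re_ofReal_mul] at h2
  nlinarith

theorem kz_a {σ : ℂ} (hσ : σ ∈ slitPlane) : 0 < (kap σ * (σ + 2) * zeta σ).re := by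
  have h := hp_a hσ
  unfold HP at h
  have e : kap σ * (σ + 2) * zeta σ = kap σ * (9 * σ / (2 * σ + 1)) := by
    unfold zeta
    have h1 := add_two_ne hσ
    have h2 := two_add_one_ne hσ
    field_simp
  rwa [e]

theorem kz_b {σ : ℂ} (hσ : σ ∈ slitPlane) : 0 < (kap σ * (2 * σ + 1) * zeta σ).re := by
  have h := hp_b hσ
  unfold HP at h
  have e : kap σ * (2 * σ + 1) * zeta σ = kap σ * (9 * σ / (σ + 2)) := by
    unfold zeta
    have h1 := add_two_ne hσ
    have h2 := two_add_one_ne hσ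
    field_simp
  rwa [e]

theorem zeta_mem {σ : ℂ} (hσ : σ ∈ slitPlane) : zeta σ ∈ slitPlane :=
  slit_of_re (hp_add_two hσ) (kz_a hσ)

variable {n : ℕ}

theorem CB.den_hp (q : CB n) {σ : ℂ} (hσ : σ ∈ slitPlane) :
    HP (kap σ) ((σ + 2) * q.eval (zeta σ) + 3) := by
  have h1 := q.re_eval_nonneg (zeta_mem hσ) (l := kap σ * (σ + 2)) (hp_add_two hσ) (kz_a hσ)
  have h2 := hp_one hσ
  unfold HP at *
  rw [mul_one] at h2
  have e : kap σ * ((σ + 2) * q.eval (zeta σ) + 3) =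
      kap σ * (σ + 2) * q.eval (zeta σ) + (3 : ℝ) * kap σ := by push_cast; ring
  rw [e, add_re, re_ofReal_mul]
  linarith

theorem CB.dent_hp (q : CB n) {σ : ℂ} (hσ : σ ∈ slitPlane) :
    HP (kap σ) ((2 * σ + 1) * q.eval (zeta σ) + 3 * σ) := by
  have h1 := q.re_eval_nonneg (zeta_mem hσ) (l := kap σ * (2 * σ + 1)) (hp_two_add_one hσ) (kz_b hσ)
  have h2 := hp_self hσ
  unfold HP at *
  have e : kap σ * ((2 * σ + 1) * q.eval (zeta σ) + 3 * σ) =
      kap σ * (2 * σ + 1) * q.eval (zeta σ) + (3 : ℝ) * (kap σ * σ) := by push_cast; ring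
  rw [e, add_re, re_ofReal_mul]
  linarith

theorem stepA {q : ℂ → ℂ} (h : IsoLam (fun σ => gq σ (q σ))) {α : ℝ} (hα : 1 ≤ α)
    (h1 : ∀ σ ∈ slitPlane, (σ + 2) * q σ + 3 ≠ 0)
    (h2 : ∀ σ ∈ slitPlane, (σ + 2) * (α * q σ + (α - 1)) + 3 ≠ 0) :
    IsoLam (fun σ => gq σ (α * q σ + (α - 1))) := by
  have hα0 : 0 < α := by linarith
  have hαC : (α : ℂ) ≠ 0 := by exact_mod_cast hα0.ne'
  refine (h.coat (s := fun _ => 1) (Or.inr fun _ => rfl) (p := α⁻¹) (by positivity)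
    (inv_le_one_of_one_le₀ hα)).congr ?_
  intro σ hσ
  have hD := h1 σ hσ
  have hD' := h2 σ hσ
  set D : ℂ := (σ + 2) * q σ + 3 with hDdef
  set D' : ℂ := (σ + 2) * (α * q σ + (α - 1)) + 3 with hD'def
  have e1 : gq σ (q σ) = 1 + 3 * (σ - 1) / D := by
    unfold gq; rw [← hDdef]; field_simp; rw [hDdef]; ring
  have e2 : gq σ (α * q σ + (α - 1)) = 1 + 3 * (σ - 1) / D' := by
    unfold gq; rw [← hD'def]; field_simp; rw [hD'def]; ring
  have e3 : D' = α * D + (α - 1) * (σ - 1) := by rw [hD'def, hDdef]; ring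
  rw [e1, e2]
  have e4 : 3 * (1 : ℂ) + (1 - ((α⁻¹ : ℝ) : ℂ)) * (1 + 3 * (σ - 1) / D - 1) = 3 * D' / (α * D) := by
    rw [e3]; push_cast; field_simp; ring
  rw [e4]
  push_cast
  field_simp
  ring

theorem stepAt {q : ℂ → ℂ} (h : IsoLam (fun σ => gt σ (q σ))) {α : ℝ} (hα : 1 ≤ α)
    (h1 : ∀ σ ∈ slitPlane, (2 * σ + 1) * q σ + 3 * σ ≠ 0)
    (h2 : ∀ σ ∈ slitPlane, (2 * σ + 1) * (α * q σ + (α - 1)) + 3 * σ ≠ 0) :
    IsoLam (fun σ => gt σ (α * q σ + (α - 1))) := by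
  have hα0 : 0 < α := by linarith
  have hαC : (α : ℂ) ≠ 0 := by exact_mod_cast hα0.ne'
  refine (h.coat (s := fun σ => σ) (Or.inl fun _ => rfl) (p := α⁻¹) (by positivity)
    (inv_le_one_of_one_le₀ hα)).congr ?_
  intro σ hσ
  have hσ0 : σ ≠ 0 := slitPlane_ne_zero hσ
  have hD := h1 σ hσ
  have hD' := h2 σ hσ
  set D : ℂ := (2 * σ + 1) * q σ + 3 * σ with hDdef
  set D' : ℂ := (2 * σ + 1) * (α * q σ + (α - 1)) + 3 * σ with hD'def
  have e1 : gt σ (q σ) = σ + 3 * σ * (1 - σ) / D := by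
    unfold gt; rw [← hDdef]; field_simp; rw [hDdef]; ring
  have e2 : gt σ (α * q σ + (α - 1)) = σ + 3 * σ * (1 - σ) / D' := by
    unfold gt; rw [← hD'def]; field_simp; rw [hD'def]; ring
  have e3 : D' = α * D + (α - 1) * (1 - σ) := by rw [hD'def, hDdef]; ring
  rw [e1, e2]
  have e4 : 3 * σ + (1 - ((α⁻¹ : ℝ) : ℂ)) * (σ + 3 * σ * (1 - σ) / D - σ) =
      3 * σ * D' / (α * D) := by
    rw [e3]; push_cast; field_simp; ring
  rw [e4]
  push_cast
  field_simp
  ring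

/-- the nonconstant part divided by `1 + b` -/
noncomputable def CB.red (q : CB n) : CB n where
  b := 0
  c := q.c / (1 + q.b)
  w := fun k => q.w k / (1 + q.b)
  d := q.d
  hb := le_rfl
  hc := div_nonneg q.hc (by linarith [q.hb])
  hw := fun k => div_nonneg (q.hw k) (by linarith [q.hb])
  hd := q.hd

theorem CB.red_eval (q : CB n) (z : ℂ) : q.red.eval z = z * q.st z / (1 + q.b) := by
  have hb : (1 + q.b : ℂ) ≠ 0 := by
    have : (1 + q.b : ℝ) ≠ 0 := by linarith [q.hb]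
    exact_mod_cast this
  rw [CB.eval_eq]
  unfold CB.st CB.red
  simp only
  push_cast
  rw [zero_add, mul_div_assoc, add_div, Finset.sum_div]
  congr 2
  exact Finset.sum_congr rfl fun k _ => by ring

theorem CB.eval_red (q : CB n) (z : ℂ) :
    q.eval z = ((1 + q.b : ℝ) : ℂ) * q.red.eval z + (((1 + q.b : ℝ) : ℂ) - 1) := by
  have hb : (1 + q.b : ℂ) ≠ 0 := by
    have : (1 + q.b : ℝ) ≠ 0 := by linarith [q.hb]
    exact_mod_cast this
  rw [CB.red_eval, CB.eval_eq]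
  push_cast
  field_simp
  ring

theorem swap_eq {σ q Q : ℂ} (hσ : σ ∈ slitPlane) (hQ : Q ≠ 0) (h : q = zeta σ / Q)
    (h1 : (σ + 2) * q + 3 ≠ 0) (h2 : (2 * σ + 1) * Q + 3 * σ ≠ 0) : gq σ q = gt σ Q := by
  have ha := add_two_ne hσ
  have hb := two_add_one_ne hσ
  have e : (σ + 2) * q * ((2 * σ + 1) * Q) = 9 * σ := by
    rw [h]; unfold zeta
    generalize hX : 2 * σ + 1 = X at hb ⊢
    generalize hY : σ + 2 = Y at ha ⊢
    field_simp
  unfold gq gt
  rw [div_eq_div_iff h1 h2]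
  linear_combination (1 - σ) * e

theorem CB.eval_const (q : CB n) (hq : ¬ q.Nontriv) (z : ℂ) : q.eval z = q.b := by
  unfold CB.Nontriv at hq
  push Not at hq
  have hc : q.c = 0 := le_antisymm hq.1 q.hc
  have hw : ∀ k, q.w k = 0 := fun k => le_antisymm (hq.2 k) (q.hw k)
  unfold CB.eval
  rw [hc]
  simp [hw]

theorem isoLam_const (q : CB n) (hq : ¬ q.Nontriv) :
    IsoLam (fun σ => gq σ (q.eval (zeta σ))) ∧ IsoLam (fun σ => gt σ (q.eval (zeta σ))) := by
  have hα : (1 : ℝ) ≤ 1 + q.b := by linarith [q.hb]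
  have hev := q.eval_const hq
  have hval : ∀ σ, ((1 + q.b : ℝ) : ℂ) * 0 + (((1 + q.b : ℝ) : ℂ) - 1) = q.eval (zeta σ) := by
    intro σ; rw [hev]; push_cast; ring
  constructor
  · have h0 : IsoLam (fun σ => gq σ ((fun _ => (0 : ℂ)) σ)) := by
      refine isoLam_phase1.congr fun σ _ => ?_
      unfold gq; simp
    refine (stepA h0 hα (fun σ _ => by simp) ?_).congr fun σ _ => by rw [hval]
    intro σ hσ
    rw [hval]; exact (q.den_hp hσ).ne_zero
  · have h0 : IsoLam (fun σ => gt σ ((fun _ => (0 : ℂ)) σ)) := by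
      refine isoLam_phase2.congr fun σ hσ => ?_
      have hσ0 : σ ≠ 0 := slitPlane_ne_zero hσ
      unfold gt; field_simp; simp
    refine (stepAt h0 hα (fun σ hσ => by simpa using slitPlane_ne_zero hσ) ?_).congr
      fun σ _ => by rw [hval]
    intro σ hσ
    rw [hval]; exact (q.dent_hp hσ).ne_zero

theorem isoLam_step {m : ℕ} (q : CB n) (hq : q.Nontriv) (Q : CB m)
    (hQ : ∀ z ∈ slitPlane, Q.eval z = (q.st z)⁻¹)
    (hb : 0 ≤ 1 + q.b)
    (ih : IsoLam (fun σ => gq σ ((Q.smul (1 + q.b) hb).eval (zeta σ))) ∧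
      IsoLam (fun σ => gt σ ((Q.smul (1 + q.b) hb).eval (zeta σ)))) :
    IsoLam (fun σ => gq σ (q.eval (zeta σ))) ∧ IsoLam (fun σ => gt σ (q.eval (zeta σ))) := by
  have hα : (1 : ℝ) ≤ 1 + q.b := by linarith [q.hb]
  have hbC : (1 + q.b : ℂ) ≠ 0 := by
    have : (1 + q.b : ℝ) ≠ 0 := by linarith [q.hb]
    exact_mod_cast this
  have hval : ∀ σ ∈ slitPlane, (Q.smul (1 + q.b) hb).eval (zeta σ) = (1 + q.b) / q.st (zeta σ) := by
    intro σ hσ
    rw [CB.smul_eval, hQ _ (zeta_mem hσ)]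
    push_cast
    rw [div_eq_mul_inv]
  have hst : ∀ σ ∈ slitPlane, q.st (zeta σ) ≠ 0 := fun σ hσ => q.st_ne_zero hq (zeta_mem hσ)
  have hz0 : ∀ σ ∈ slitPlane, zeta σ ≠ 0 := fun σ hσ => slitPlane_ne_zero (zeta_mem hσ)
  constructor
  · have h0 : IsoLam (fun σ => gq σ (q.red.eval (zeta σ))) := by
      refine ih.2.congr fun σ hσ => ?_
      refine (swap_eq hσ ?_ ?_ (q.red.den_hp hσ).ne_zero ?_).symm
      · rw [hval σ hσ]; exact div_ne_zero hbC (hst σ hσ)
      · rw [hval σ hσ, CB.red_eval]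
        have := hst σ hσ
        field_simp
      · exact ((Q.smul (1 + q.b) hb).dent_hp hσ).ne_zero
    refine (stepA h0 hα (fun σ hσ => (q.red.den_hp hσ).ne_zero) ?_).congr fun σ _ => by
      rw [← CB.eval_red]
    intro σ hσ
    rw [← CB.eval_red]; exact (q.den_hp hσ).ne_zero
  · have h0 : IsoLam (fun σ => gt σ (q.red.eval (zeta σ))) := by
      refine ih.1.congr fun σ hσ => ?_
      have hne : q.red.eval (zeta σ) ≠ 0 := by
        rw [CB.red_eval]
        exact div_ne_zero (mul_ne_zero (hz0 σ hσ) (hst σ hσ)) hbC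
      refine swap_eq hσ hne ?_ ?_ (q.red.dent_hp hσ).ne_zero
      · rw [hval σ hσ, CB.red_eval]
        have := hst σ hσ
        have := hz0 σ hσ
        field_simp
      · exact ((Q.smul (1 + q.b) hb).den_hp hσ).ne_zero
    refine (stepAt h0 hα (fun σ hσ => (q.red.dent_hp hσ).ne_zero) ?_).congr fun σ _ => by
      rw [← CB.eval_red]
    intro σ hσ
    rw [← CB.eval_red]; exact (q.dent_hp hσ).ne_zero

theorem isoLam_aux : ∀ (M : ℕ) {n : ℕ} (q : CB n), (2 * n + if 0 < q.c then 1 else 0) ≤ M →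
    IsoLam (fun σ => gq σ (q.eval (zeta σ))) ∧ IsoLam (fun σ => gt σ (q.eval (zeta σ))) := by
  intro M
  induction M with
  | zero =>
    intro n q hM
    have hn : n = 0 := by omega
    subst hn
    have hc : ¬ 0 < q.c := by
      intro h; rw [if_pos h] at hM; omega
    refine isoLam_const q ?_
    rintro (h | ⟨k, -⟩)
    · exact hc h
    · exact k.elim0
  | succ M ih =>
    intro n q hM
    by_cases hq : q.Nontriv
    · have hb : 0 ≤ 1 + q.b := by linarith [q.hb]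
      by_cases hc : 0 < q.c
      · rw [if_pos hc] at hM
        obtain ⟨Q, hQc, hQ⟩ := q.recip1 hc
        refine isoLam_step q hq Q hQ hb (ih _ ?_)
        have : ¬ 0 < (Q.smul (1 + q.b) hb).c := by
          show ¬ 0 < (1 + q.b) * Q.c
          rw [hQc]; simp
        rw [if_neg this]; omega
      · have hc0 : q.c = 0 := le_antisymm (not_lt.1 hc) q.hc
        have hn : n ≠ 0 := by
          rintro rfl
          rcases hq with h | ⟨k, -⟩
          · exact hc h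
          · exact k.elim0
        obtain ⟨m, rfl⟩ := Nat.exists_eq_succ_of_ne_zero hn
        obtain ⟨Q, -, hQ⟩ := CB.recip2 q hc0 hq
        refine isoLam_step q hq Q hQ hb (ih _ ?_)
        rw [if_neg hc] at hM
        split_ifs <;> omega
    · exact isoLam_const q hq

/-- every rational complete Bernstein function gives a laminate. -/
theorem isoLam_gq (q : CB n) : IsoLam (fun σ => gq σ (q.eval (zeta σ))) :=
  (isoLam_aux _ q le_rfl).1

end W_MP_e98908_an
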