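import Pool.Agent.W_MP_e98908_an_h89.Comp

/-!
# The final theorem
-/

namespace W_MP_e98908_an

open MeasureTheory Set Filter Topology Complex

theorem final (b : Module.Basis (Fin 3) ℝ (Fin 3 → ℝ)) (S : Set Cell) (g : ℂ → ℂ)
    (hg : IsIsotropicComposite b S g) (x₀ : ℝ) (hx₀ : 0 < x₀)
    (heq : ∃ᶠ x : ℝ in 𝓝[≠] x₀, g x * g (1 / x) + (g x + x * g (1 / x)) / (x + 1) = 2) :
    ∃ G : ℕ → ℂ → ℂ, (∀ k, IsoLam (G k)) ∧ TendstoLocallyUniformlyOn G g atTop slitPlane := by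
  obtain ⟨hS, hg⟩ := hg
  have hhyp := comp_hyp hS hg
  by_cases hPw : Pm hS w0 = 0
  · refine ⟨fun _ _ => 1, fun _ => isoLam_phase2, ?_⟩
    have h1 : ∀ σ ∈ slitPlane, g σ = 1 := by
      intro σ hσ
      have h2 := hhyp σ hσ w0 (by rw [sub_self]; exact (Grd b).zero_mem)
        (by rw [hPw]; simpa using w0_orth b)
      rw [← h2, hPw, smul_zero, sub_zero, zero_add, inner_self_eq_norm_sq_to_K, norm_w0]
      simp
    have h3 : TendstoLocallyUniformlyOn (fun (_ : ℕ) (_ : ℂ) => (1 : ℂ)) (fun _ => 1) atTop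
        slitPlane := by
      intro u hu x _
      exact ⟨univ, univ_mem, Eventually.of_forall fun n y _ => refl_mem_uniformity hu⟩
    exact h3.congr_right fun σ hσ => (h1 σ hσ).symm
  · obtain ⟨ρ, hfin, hρ, a, h1, h2, h3, h4⟩ :=
      hilbert_core (Pm_idem hS) (Pm_symm hS) (Grd b) norm_w0 (w0_orth b) hhyp hPw
    have hf : 0 < ‖Pm hS w0‖ ^ 2 := by
      have := norm_pos_iff.2 hPw
      positivity
    exact core hρ hf h1 h2 h3 h4 hx₀ heq

end W_MP_e98908_an
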