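import Pool.Agent.W_MP_e98908_an_h89.Spec
import Pool.Agent.W_MP_e98908_an_h89.Eq3

/-!
# The abstract Hilbert space form of the two-phase problem
-/

namespace W_MP_e98908_an

open MeasureTheory Set Filter Topology Complex ContinuousLinearMap

variable {H : Type*} [NormedAddCommGroup H] [InnerProductSpace ℂ H] [CompleteSpace H]

theorem norm_proj_le {P : H →L[ℂ] H} (hP2 : ∀ x, P (P x) = P x)
    (hPs : ∀ x y, inner ℂ (P x) y = inner ℂ x (P y)) (x : H) : ‖P x‖ ≤ ‖x‖ := by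
  have h1 : ‖P x‖ * ‖P x‖ ≤ ‖x‖ * ‖P x‖ := by
    rw [← real_inner_self_eq_norm_mul_norm_aux hP2 hPs x]
    exact re_inner_le_norm (𝕜 := ℂ) x (P x)
  by_cases h : ‖P x‖ = 0
  · rw [h]; exact norm_nonneg _
  · exact le_of_mul_le_mul_right h1 (lt_of_le_of_ne (norm_nonneg _) (Ne.symm h))
where
  real_inner_self_eq_norm_mul_norm_aux {P : H →L[ℂ] H} (hP2 : ∀ x, P (P x) = P x)
    (hPs : ∀ x y, inner ℂ (P x) y = inner ℂ x (P y)) (x : H) :
    (inner ℂ x (P x)).re = ‖P x‖ * ‖P x‖ := by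
    have h2 : inner ℂ x (P x) = inner ℂ (P x) (P x) := by rw [hPs, hP2]
    rw [h2, inner_self_eq_norm_sq_to_K, sq]
    simp

theorem hilbert_core {P : H →L[ℂ] H} (hP2 : ∀ x, P (P x) = P x)
    (hPs : ∀ x y, inner ℂ (P x) y = inner ℂ x (P y))
    (𝓖 : Submodule ℂ H) [𝓖.HasOrthogonalProjection] {w : H} (hw : ‖w‖ = 1) (hw𝓖 : w ∈ 𝓖ᗮ)
    {g : ℂ → ℂ}
    (hg : ∀ σ ∈ slitPlane, ∀ e, e - w ∈ 𝓖 → (σ • P e + (e - P e)) ∈ 𝓖ᗮ →
      inner ℂ w (σ • P e + (e - P e)) = g σ)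
    (hPw : P w ≠ 0) :
    ∃ ρ : Measure ℝ, IsFiniteMeasure ρ ∧ (∀ᵐ y ∂ρ, y ∈ Icc (0 : ℝ) 1) ∧ ∃ a : ℝ,
      (∀ σ ∈ slitPlane, σ ≠ 1 → Df ρ a (sp σ) ≠ 0) ∧
      (∀ σ ∈ slitPlane, σ ≠ 1 → g σ = 1 - (‖P w‖ ^ 2 : ℝ) / Df ρ a (sp σ)) ∧ g 1 = 1 ∧
      (∀ s : ℝ, 1 < s → ‖P w‖ ^ 2 ≤ (Df ρ a s).re) := by
  set Γ : H →L[ℂ] H := 𝓖.starProjection with hΓ
  have hΓs : ∀ x y, inner ℂ (Γ x) y = inner ℂ x (Γ y) := fun x y =>
    Submodule.inner_starProjection_left_eq_right 𝓖 x y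
  have hΓ2 : ∀ x, Γ (Γ x) = Γ x := fun x =>
    Submodule.starProjection_eq_self_iff.2 (Submodule.starProjection_apply_mem 𝓖 x)
  have hΓm : ∀ x, Γ x ∈ 𝓖 := fun x => Submodule.starProjection_apply_mem 𝓖 x
  have hΓw : Γ w = 0 := (Submodule.starProjection_apply_eq_zero_iff 𝓖).2 hw𝓖
  have hww : inner ℂ w w = (1 : ℂ) := by rw [inner_self_eq_norm_sq_to_K, hw]; simp
  set A : H →L[ℂ] H := P.comp (Γ.comp P) with hA
  have hAx : ∀ x, A x = P (Γ (P x)) := fun x => rfl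
  have hq : ∀ x, inner ℂ (A x) x = ((‖Γ (P x)‖ ^ 2 : ℝ) : ℂ) := by
    intro x
    rw [hAx, hPs]
    have : inner ℂ (Γ (P x)) (P x) = inner ℂ (Γ (P x)) (Γ (P x)) := by
      rw [← hΓs, hΓ2]
    rw [this, inner_self_eq_norm_sq_to_K]; push_cast; rfl
  have hle : ∀ x, ‖Γ (P x)‖ ≤ ‖x‖ := fun x =>
    (norm_proj_le hΓ2 hΓs _).trans (norm_proj_le hP2 hPs _)
  have h0 : 0 ≤ A := by
    rw [nonneg_iff_isPositive, isPositive_iff_complex]
    intro x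
    rw [hq]
    refine ⟨by rw [RCLike.re_eq_complex_re, ofReal_re], ?_⟩
    simp only [RCLike.re_eq_complex_re, ofReal_re]
    positivity
  have h1 : A ≤ 1 := by
    rw [ContinuousLinearMap.le_def, isPositive_iff_complex]
    intro x
    have e : inner ℂ ((1 - A) x) x = ((‖x‖ ^ 2 - ‖Γ (P x)‖ ^ 2 : ℝ) : ℂ) := by
      have : (1 - A) x = x - A x := rfl
      rw [this, inner_sub_left, hq, inner_self_eq_norm_sq_to_K]; push_cast; rfl
    rw [e]
    refine ⟨by rw [RCLike.re_eq_complex_re, ofReal_re], ?_⟩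
    simp only [RCLike.re_eq_complex_re, ofReal_re]
    have := pow_le_pow_left₀ (norm_nonneg _) (hle x) 2
    linarith
  obtain ⟨ρ, hfin, hρ, a, hu⟩ := schur h0 h1 hPw
  -- solutions of the field equations
  have sol : ∀ s : ℂ, s ≠ 0 → ∀ u : H, s • u - A u = P w →
      P u = u ∧ P (w + Γ u) = s • u := by
    intro s hs u hsu
    have h2 : s • u = P w + A u := by rw [← hsu]; abel
    have h3 : P (s • u) = s • u := by
      rw [h2, map_add, hP2, hAx, hP2]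
    have h4 : P u = u := by
      rw [map_smul] at h3
      exact smul_right_injective H hs h3
    refine ⟨h4, ?_⟩
    rw [map_add, h2, hAx, h4]
  have hoff0 : ∀ s : ℂ, Off s → s ≠ 0 := by
    intro s hs h
    exact hs 0 ⟨le_rfl, zero_le_one⟩ (by rw [h]; simp)
  have hinner : ∀ u : H, P u = u → inner ℂ w u = inner ℂ (P w) u := by
    intro u hu
    rw [hPs, hu]
  refine ⟨ρ, hfin, hρ, a, ?_, ?_, ?_, ?_⟩
  · intro σ hσ h1σ
    exact (hu _ (off_sp hσ h1σ)).1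
  · intro σ hσ h1σ
    have hoff := off_sp hσ h1σ
    obtain ⟨hD, u, hsu, huv⟩ := hu _ hoff
    obtain ⟨hPu, hPe⟩ := sol _ (hoff0 _ hoff) u hsu
    have h1' : 1 - σ ≠ 0 := sub_ne_zero.2 h1σ.symm
    have hj : σ • P (w + Γ u) + (w + Γ u - P (w + Γ u)) = w + Γ u - u := by
      rw [hPe]
      have : σ • sp σ • u + (w + Γ u - sp σ • u) = w + Γ u - ((1 - σ) * sp σ) • u := by
        rw [sub_mul, sub_smul, one_mul, smul_smul]; abel
      rw [this]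
      have : (1 - σ) * sp σ = 1 := by unfold sp; field_simp
      rw [this, one_smul]
    have h2 := hg σ hσ (w + Γ u) (by rw [add_sub_cancel_left]; exact hΓm u) ?_
    · rw [← h2, hj, inner_sub_right, inner_add_right, hww]
      have h3 : inner ℂ w (Γ u) = (0 : ℂ) := by rw [← hΓs, hΓw, inner_zero_left]
      rw [h3, hinner u hPu, huv]
      simp [Df]
    · rw [hj, ← Submodule.starProjection_apply_eq_zero_iff]
      change Γ (w + Γ u - u) = 0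
      rw [map_sub, map_add, hΓw, hΓ2]; simp
  · have h2 := hg 1 (by simp [slitPlane]) w (by rw [sub_self]; exact 𝓖.zero_mem)
      (by simpa using hw𝓖)
    rw [← h2]
    simp only [one_smul, add_sub_cancel]
    exact hww
  · intro s hs
    have hoff : Off (s : ℂ) := by
      intro y hy h
      have : ((s - y : ℝ) : ℂ) = 0 := by push_cast; exact h
      have h2 : s - y = 0 := by exact_mod_cast this
      linarith [hy.2]
    obtain ⟨hD, u, hsu, huv⟩ := hu _ hoff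
    obtain ⟨hPu, hPe⟩ := sol _ (hoff0 _ hoff) u hsu
    have hs0 : 0 < s := by linarith
    set f : ℝ := ‖P w‖ ^ 2 with hf
    have hfpos : 0 < f := by have := norm_pos_iff.2 hPw; positivity
    -- `⟨v,u⟩`
    have hvu : inner ℂ (P w) u = ((s * ‖u‖ ^ 2 - ‖Γ u‖ ^ 2 : ℝ) : ℂ) := by
      rw [← hsu, inner_sub_left, hq, hPu, inner_smul_left, inner_self_eq_norm_sq_to_K]
      push_cast
      simp
    have hDe : Df ρ a s = ((f / (s * ‖u‖ ^ 2 - ‖Γ u‖ ^ 2) : ℝ) : ℂ) := by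
      have h3 : inner ℂ (P w) u = (f : ℂ) / Df ρ a s := huv
      rw [hvu] at h3
      have hfC : (f : ℂ) ≠ 0 := by exact_mod_cast hfpos.ne'
      have hD' : Df ρ a s ≠ 0 := hD
      rw [eq_div_iff hD'] at h3
      push_cast at h3 ⊢
      have h4 : ((s : ℂ) * (‖u‖ : ℂ) ^ 2 - (‖Γ u‖ : ℂ) ^ 2) ≠ 0 := by
        intro h; rw [h, zero_mul] at h3; exact hfC h3.symm
      rw [eq_div_iff h4, mul_comm]; exact h3
    have hu0 : u ≠ 0 := by
      rintro rfl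
      simp at hsu; exact hPw hsu.symm
    have hun : 0 < ‖u‖ ^ 2 := by have := norm_pos_iff.2 hu0; positivity
    have hΓu : ‖Γ u‖ ^ 2 ≤ ‖u‖ ^ 2 := pow_le_pow_left₀ (norm_nonneg _) (norm_proj_le hΓ2 hΓs u) 2
    have hpos : 0 < s * ‖u‖ ^ 2 - ‖Γ u‖ ^ 2 := by nlinarith
    rw [hDe, ofReal_re, le_div_iff₀ hpos]
    -- energy identity
    have hen : s * ‖u‖ ^ 2 - ‖Γ u‖ ^ 2 ≤ 1 := by
      -- `e = w + Γ u`, `P e = s u`
      have h5 : ‖w + Γ u‖ ^ 2 = 1 + ‖Γ u‖ ^ 2 := by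
        have h6 : inner ℂ w (Γ u) = (0 : ℂ) := by rw [← hΓs, hΓw, inner_zero_left]
        have := norm_add_sq_eq_norm_sq_add_norm_sq_of_inner_eq_zero w (Γ u) h6
        rw [sq, this, hw]; ring
      have h7 : ‖P (w + Γ u)‖ ^ 2 ≤ ‖w + Γ u‖ ^ 2 :=
        pow_le_pow_left₀ (norm_nonneg _) (norm_proj_le hP2 hPs _) 2
      rw [hPe, norm_smul, norm_real, Real.norm_eq_abs, abs_of_pos hs0, mul_pow, h5] at h7
      -- ‖P e‖² = s²‖u‖² ≤ 1 + ‖Γu‖²; need s‖u‖² ≤ 1 + ‖Γu‖²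
      nlinarith
    calc f * (s * ‖u‖ ^ 2 - ‖Γ u‖ ^ 2) ≤ f * 1 := mul_le_mul_of_nonneg_left hen hfpos.le
      _ = f := mul_one f

end W_MP_e98908_an
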