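import Mathlib

/-!
# Spectral measures of bounded self-adjoint operators, and a Schur complement
-/

namespace W_MP_e98908_an

open MeasureTheory Set ContinuousLinearMap CompactlySupported

variable {H : Type*} [NormedAddCommGroup H] [InnerProductSpace ℂ H] [CompleteSpace H]

theorem exists_spectral_measure {B : H →L[ℂ] H} (_hB : IsSelfAdjoint B)
    (hs : spectrum ℝ B ⊆ Icc 0 1) (w : H) :
    ∃ ρ : Measure ℝ, IsFiniteMeasure ρ ∧ (∀ᵐ y ∂ρ, y ∈ Icc (0 : ℝ) 1) ∧
      ∀ h : ℝ → ℝ, ContinuousOn h (Icc 0 1) →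
        inner ℂ w (cfc h B w) = ((∫ y, h y ∂ρ : ℝ) : ℂ) := by
  have hreal : ∀ h : ℝ → ℝ, inner ℂ w (cfc h B w) = ((inner ℂ w (cfc h B w)).re : ℂ) := by
    intro h
    have h1 : IsSelfAdjoint (cfc h B) := cfc_predicate h B
    have h2 := (isSelfAdjoint_iff_isSymmetric.1 h1) w w
    have h3 : (starRingEnd ℂ) (inner ℂ w (cfc h B w)) = inner ℂ w (cfc h B w) := by
      rw [inner_conj_symm]; exact h2
    exact (Complex.conj_eq_iff_re.1 h3).symm
  have hcont : ∀ f : C_c(Icc (0 : ℝ) 1, ℝ), Continuous (IccExtend (zero_le_one (α := ℝ)) f) :=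
    fun f => f.continuous.Icc_extend'
  let Λ : C_c(Icc (0 : ℝ) 1, ℝ) →ₚ[ℝ] ℝ := PositiveLinearMap.mk₀
    { toFun := fun f => (inner ℂ w (cfc (IccExtend (zero_le_one (α := ℝ)) f) B w)).re
      map_add' := by
        intro f g
        have e : IccExtend (zero_le_one (α := ℝ)) (f + g) =
            fun x => IccExtend (zero_le_one (α := ℝ)) f x + IccExtend (zero_le_one (α := ℝ)) g x := rfl
        rw [e, cfc_add B _ _ (hcont f).continuousOn (hcont g).continuousOn,
          _root_.add_apply, inner_add_right, Complex.add_re]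
      map_smul' := by
        intro c f
        have e : IccExtend (zero_le_one (α := ℝ)) (c • f) =
            fun x => c * IccExtend (zero_le_one (α := ℝ)) f x := rfl
        rw [e, cfc_const_mul _ _ _ (hcont f).continuousOn, _root_.smul_apply,
          RingHom.id_apply]
        have : (c • (cfc (IccExtend (zero_le_one (α := ℝ)) f) B w) : H) =
          (c : ℂ) • (cfc (IccExtend (zero_le_one (α := ℝ)) f) B w) := rfl
        rw [this, inner_smul_right, Complex.re_ofReal_mul, smul_eq_mul] } (by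
      intro f hf
      show 0 ≤ (inner ℂ w (cfc (IccExtend (zero_le_one (α := ℝ)) f) B w)).re
      have h1 : 0 ≤ cfc (IccExtend (zero_le_one (α := ℝ)) f) B := by
        apply cfc_nonneg
        intro x _
        exact hf _
      exact ((nonneg_iff_isPositive _).1 h1).re_inner_nonneg_right w)
  set μ := RealRMK.rieszMeasure Λ with hμ
  refine ⟨μ.map Subtype.val, inferInstance, ?_, ?_⟩
  · have hmeas : Measurable (Subtype.val : Icc (0 : ℝ) 1 → ℝ) := measurable_subtype_coe
    exact (ae_map_iff hmeas.aemeasurable (p := fun y => y ∈ Icc (0 : ℝ) 1) measurableSet_Icc).2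
      (Filter.Eventually.of_forall fun x => x.2)
  · intro h hh
    let f : C_c(Icc (0 : ℝ) 1, ℝ) := ⟨⟨(Icc (0 : ℝ) 1).domRestrict h, hh.domRestrict⟩,
      HasCompactSupport.of_compactSpace _⟩
    have h1 : Λ f = ∫ x, f x ∂μ := (RealRMK.integral_rieszMeasure Λ f).symm
    have h2 : Λ f = (inner ℂ w (cfc h B w)).re := by
      show (inner ℂ w (cfc (IccExtend (zero_le_one (α := ℝ)) f) B w)).re = _
      have : cfc (IccExtend (zero_le_one (α := ℝ)) f) B = cfc h B := by
        apply cfc_congr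
        intro x hx
        rw [IccExtend_of_mem _ _ (hs hx)]
        rfl
      rw [this]
    have h3 : ∫ y, h y ∂(μ.map Subtype.val) = ∫ x, f x ∂μ := by
      have he : MeasurableEmbedding (Subtype.val : Icc (0 : ℝ) 1 → ℝ) :=
        MeasurableEmbedding.subtype_coe measurableSet_Icc
      rw [he.integral_map]
      rfl
    rw [hreal h, h3, ← h1, h2]

theorem exists_resolvent_measure {B : H →L[ℂ] H} (hB : IsSelfAdjoint B)
    (hs : spectrum ℝ B ⊆ Icc 0 1) (w : H) :
    ∃ ρ : Measure ℝ, IsFiniteMeasure ρ ∧ (∀ᵐ y ∂ρ, y ∈ Icc (0 : ℝ) 1) ∧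
      ∀ s : ℂ, (∀ y ∈ Icc (0 : ℝ) 1, s - y ≠ 0) →
        ∃ x : H, s • x - B x = w ∧ inner ℂ w x = ∫ y, (s - y)⁻¹ ∂ρ := by
  obtain ⟨ρ, hfin, hsupp, hρ⟩ := exists_spectral_measure hB hs w
  refine ⟨ρ, hfin, hsupp, fun s hsn => ?_⟩
  set r : ℝ → ℝ := fun y => ((s - y)⁻¹).re with hr
  set m : ℝ → ℝ := fun y => ((s - y)⁻¹).im with hm
  have hc : ContinuousOn (fun y : ℝ => (s - y)⁻¹) (Icc 0 1) := by
    apply ContinuousOn.inv₀
    · fun_prop
    · exact hsn
  have hrc : ContinuousOn r (Icc 0 1) := Complex.continuous_re.comp_continuousOn hc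
  have hmc : ContinuousOn m (Icc 0 1) := Complex.continuous_im.comp_continuousOn hc
  have hrc' := hrc.mono hs
  have hmc' := hmc.mono hs
  have hid : ContinuousOn (fun y : ℝ => y) (spectrum ℝ B) := continuousOn_id
  set R : H →L[ℂ] H := cfc r B with hR
  set M : H →L[ℂ] H := cfc m B with hM
  have hBR : B * R = cfc (fun y => y * r y) B := by
    rw [cfc_mul _ _ _ hid hrc', cfc_id' ℝ B]
  have hBM : B * M = cfc (fun y => y * m y) B := by
    rw [cfc_mul _ _ _ hid hmc', cfc_id' ℝ B]
  have h1 : cfc (fun y => s.re * r y - s.im * m y - y * r y) B = 1 := by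
    rw [← cfc_one (R := ℝ) (a := B)]
    apply cfc_congr
    intro y hy
    have h2 := mul_inv_cancel₀ (hsn y (hs hy))
    have h3 := congrArg Complex.re h2
    simp only [Complex.mul_re, Complex.sub_re, Complex.ofReal_re, Complex.sub_im,
      Complex.ofReal_im, sub_zero, Complex.one_re] at h3
    simp only [hr, hm, Pi.one_apply]
    linarith
  have h2 : cfc (fun y => s.re * m y + s.im * r y - y * m y) B = 0 := by
    rw [← cfc_zero (R := ℝ) (a := B)]
    apply cfc_congr
    intro y hy
    have h2 := mul_inv_cancel₀ (hsn y (hs hy))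
    have h3 := congrArg Complex.im h2
    simp only [Complex.mul_im, Complex.sub_re, Complex.ofReal_re, Complex.sub_im,
      Complex.ofReal_im, sub_zero, Complex.one_im] at h3
    simp only [hr, hm, Pi.zero_apply]
    linarith
  have e1 : s.re • R - s.im • M - B * R = 1 := by
    rw [← h1, hBR, cfc_sub (fun y => s.re * r y - s.im * m y) (fun y => y * r y) B
      (by fun_prop) (by fun_prop), cfc_sub (fun y => s.re * r y) (fun y => s.im * m y) B
      (by fun_prop) (by fun_prop), cfc_const_mul _ _ _ hrc', cfc_const_mul _ _ _ hmc']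
  have e2 : s.re • M + s.im • R - B * M = 0 := by
    rw [← h2, hBM, cfc_sub (fun y => s.re * m y + s.im * r y) (fun y => y * m y) B
      (by fun_prop) (by fun_prop), cfc_add B (fun y => s.re * m y) (fun y => s.im * r y)
      (by fun_prop) (by fun_prop), cfc_const_mul _ _ _ hrc', cfc_const_mul _ _ _ hmc']
  refine ⟨R w + Complex.I • M w, ?_, ?_⟩
  · have f1 : (s.re : ℂ) • R w - (s.im : ℂ) • M w - B (R w) = w := by
      have := congrArg (fun T : H →L[ℂ] H => T w) e1
      simpa using this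
    have f2 : (s.re : ℂ) • M w + (s.im : ℂ) • R w - B (M w) = 0 := by
      have := congrArg (fun T : H →L[ℂ] H => T w) e2
      simpa using this
    have hsd : s = s.re + s.im * Complex.I := (Complex.re_add_im s).symm
    have : s • (R w + Complex.I • M w) - B (R w + Complex.I • M w) =
        ((s.re : ℂ) • R w - (s.im : ℂ) • M w - B (R w)) +
          Complex.I • ((s.re : ℂ) • M w + (s.im : ℂ) • R w - B (M w)) := by
      have hII : ((s.re : ℂ) + s.im * Complex.I) * Complex.I = s.re * Complex.I - s.im := by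
        linear_combination (s.im : ℂ) * Complex.I_mul_I
      rw [map_add, map_smul]
      conv_lhs => rw [hsd]
      rw [smul_add, smul_smul, hII]
      module
    rw [this, f1, f2]; simp
  · rw [inner_add_right, inner_smul_right, hρ r hrc, hρ m hmc]
    have hint : Integrable (fun y : ℝ => (s - y)⁻¹) ρ := by
      have h1 : ρ.restrict (Icc (0 : ℝ) 1) = ρ := Measure.restrict_eq_self_of_ae_mem hsupp
      rw [← h1]
      exact hc.integrableOn_compact isCompact_Icc
    have h3 := integral_re_add_im hint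
    rw [← h3, mul_comm Complex.I]
    rfl

theorem schur {A : H →L[ℂ] H} (h0 : 0 ≤ A) (h1 : A ≤ 1) {v : H} (hv : v ≠ 0) :
    ∃ ρ : Measure ℝ, IsFiniteMeasure ρ ∧ (∀ᵐ y ∂ρ, y ∈ Icc (0 : ℝ) 1) ∧
      ∃ a : ℝ, ∀ s : ℂ, (∀ y ∈ Icc (0 : ℝ) 1, s - y ≠ 0) →
        s - a - ∫ y, (s - y)⁻¹ ∂ρ ≠ 0 ∧
        ∃ u : H, s • u - A u = v ∧
          inner ℂ v u = (‖v‖ ^ 2 : ℝ) / (s - a - ∫ y, (s - y)⁻¹ ∂ρ) := by
  have hA0 : A.IsPositive := (nonneg_iff_isPositive A).1 h0
  have hA1 : (1 - A).IsPositive := h1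
  have hn : 0 < ‖v‖ ^ 2 := by have := norm_pos_iff.2 hv; positivity
  have hnC : ((‖v‖ ^ 2 : ℝ) : ℂ) ≠ 0 := by exact_mod_cast hn.ne'
  have hvv : inner ℂ v v = ((‖v‖ ^ 2 : ℝ) : ℂ) := by
    rw [inner_self_eq_norm_sq_to_K]; push_cast; rfl
  set U : Submodule ℂ H := (ℂ ∙ v)ᗮ with hU
  set P : H →L[ℂ] H := U.starProjection with hP
  have hmemU : ∀ x, x ∈ U ↔ inner ℂ v x = 0 := fun x => Submodule.mem_orthogonal_singleton_iff_inner_right
  have hPU : ∀ x ∈ U, P x = x := fun x hx => Submodule.starProjection_eq_self_iff.2 hx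
  have hPmem : ∀ x, P x ∈ U := fun x => Submodule.starProjection_apply_mem U x
  have hPv : P v = 0 := by
    rw [hP, Submodule.starProjection_apply_eq_zero_iff, hU, Submodule.orthogonal_orthogonal]
    exact Submodule.mem_span_singleton_self v
  have hPsa : ∀ x y, inner ℂ (P x) y = inner ℂ x (P y) := fun x y =>
    (isSelfAdjoint_iff_isSymmetric.1 (isSelfAdjoint_starProjection U)) x y
  have hPP : ∀ x, P (P x) = P x := fun x => hPU _ (hPmem x)
  set B : H →L[ℂ] H := P ∘L A ∘L P with hBdef
  have hB0 : B.IsPositive := hA0.conj_starProjection U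
  have hB1 : (1 - B).IsPositive := by
    have e : 1 - B = (ℂ ∙ v).starProjection + P ∘L (1 - A) ∘L P := by
      ext x
      have h2 : (ℂ ∙ v).starProjection x = x - P x := by
        have h5 : P x = x - (ℂ ∙ v).starProjection x := by
          show ((ℂ ∙ v)ᗮ).starProjection x = _
          rw [Submodule.starProjection_orthogonal]
          rfl
        rw [h5]; abel
      simp only [hBdef, _root_.sub_apply, one_apply_eq_self, _root_.add_apply, comp_apply,
        map_sub, hPP]
      rw [h2]; abel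
    rw [e]
    exact (IsPositive.of_isStarProjection isStarProjection_starProjection).add
      (hA1.conj_starProjection U)
  have hBsa : IsSelfAdjoint B := hB0.isSelfAdjoint
  have hspec : spectrum ℝ B ⊆ Icc 0 1 := by
    intro t ht
    refine ⟨spectrum_nonneg_of_nonneg ((nonneg_iff_isPositive B).2 hB0) ht, ?_⟩
    have h2 : B ≤ algebraMap ℝ (H →L[ℂ] H) 1 := by
      rw [map_one]; exact hB1
    exact (le_algebraMap_iff_spectrum_le (ha := hBsa)).1 h2 t ht
  set w : H := P (A v) with hw
  obtain ⟨ρ, hfin, hsupp, hρ⟩ := exists_resolvent_measure hBsa hspec w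
  set c : ℝ := (‖v‖ ^ 2)⁻¹ with hc
  have hcpos : 0 < c := inv_pos.2 hn
  set a : ℝ := c * (inner ℂ v (A v)).re with ha
  have hAsymm : ∀ x y, inner ℂ (A x) y = inner ℂ x (A y) := fun x y => hA0.isSymmetric x y
  have hareal : inner ℂ v (A v) = ((inner ℂ v (A v)).re : ℂ) := by
    have h3 : (starRingEnd ℂ) (inner ℂ v (A v)) = inner ℂ v (A v) := by
      rw [inner_conj_symm]; exact hAsymm v v
    exact (Complex.conj_eq_iff_re.1 h3).symm
  refine ⟨ENNReal.ofReal c • ρ, ?_, ?_, a, ?_⟩
  · exact Measure.smul_finite ρ ENNReal.ofReal_ne_top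
  · exact Measure.ae_smul_measure hsupp _
  intro s hs
  obtain ⟨y, hy1, hy2⟩ := hρ s hs
  have hs0 : s ≠ 0 := by simpa using hs 0 ⟨le_rfl, zero_le_one⟩
  -- `y ∈ U`
  have hyU : y ∈ U := by
    have h2 : s • y = w + B y := by rw [← hy1]; abel
    have h3 : s • y ∈ U := by
      rw [h2]; exact U.add_mem (hPmem _) (hPmem _)
    exact (U.smul_mem_iff hs0).1 h3
  have hvy : inner ℂ v y = 0 := (hmemU y).1 hyU
  have hPy : P y = y := hPU y hyU
  set I : ℂ := ∫ y, (s - y)⁻¹ ∂(ENNReal.ofReal c • ρ) with hI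
  have hIval : I = c * inner ℂ w y := by
    rw [hI, integral_smul_measure, ENNReal.toReal_ofReal hcpos.le, hy2]
    rfl
  set D : ℂ := s - a - I with hD
  have hwy : inner ℂ w y = inner ℂ v (A y) := by
    rw [hw, hPsa, hPy, hAsymm]
  -- the key identity
  have key : s • (v + y) - A (v + y) = D • v := by
    have h2 : P (s • (v + y) - A (v + y)) = 0 := by
      have e : P (s • (v + y) - A (v + y)) = (s • y - B y) - w := by
        simp only [hBdef, comp_apply, hw, map_sub, map_add, smul_add, map_smul, hPv, hPy, smul_zero,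
          zero_add]
        abel
      rw [e, hy1, sub_self]
    have h3 : s • (v + y) - A (v + y) ∈ (ℂ ∙ v) := by
      rw [hP, Submodule.starProjection_apply_eq_zero_iff, hU, Submodule.orthogonal_orthogonal] at h2
      exact h2
    obtain ⟨d, hd⟩ := Submodule.mem_span_singleton.1 h3
    rw [← hd]
    congr 1
    have h4 := congrArg (fun x => inner ℂ v x) hd
    simp only [inner_smul_right, inner_sub_right, inner_add_right, smul_add, map_add] at h4
    rw [hvy, hvv, hareal, ← hwy] at h4
    have h5 : (c : ℂ) * ((‖v‖ ^ 2 : ℝ) : ℂ) = 1 := by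
      rw [← Complex.ofReal_mul, hc, inv_mul_cancel₀ hn.ne']; simp
    have h6 : d = (c : ℂ) * (d * ((‖v‖ ^ 2 : ℝ) : ℂ)) := by
      linear_combination (-d) * h5
    rw [h6, h4, hD, hIval, ha]
    push_cast at h5 ⊢
    linear_combination s * h5
  have hz : v + y ≠ 0 := by
    intro h
    have h2 := congrArg (fun x => inner ℂ v x) h
    simp only [inner_add_right, inner_zero_right] at h2
    rw [hvy, hvv, add_zero] at h2
    exact hnC h2
  have hDne : D ≠ 0 := by
    intro h
    rw [h, zero_smul, sub_eq_zero] at key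
    set z : H := v + y with hzdef
    have hnz : 0 < ‖z‖ ^ 2 := by have := norm_pos_iff.2 hz; positivity
    have hzz : inner ℂ z z = ((‖z‖ ^ 2 : ℝ) : ℂ) := by
      rw [inner_self_eq_norm_sq_to_K]; push_cast; rfl
    have h2 : s * ((‖z‖ ^ 2 : ℝ) : ℂ) = inner ℂ z (A z) := by
      rw [← key, inner_smul_right, hzz]
    have hzreal : inner ℂ z (A z) = ((inner ℂ z (A z)).re : ℂ) := by
      have h3 : (starRingEnd ℂ) (inner ℂ z (A z)) = inner ℂ z (A z) := by
        rw [inner_conj_symm]; exact hAsymm z z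
      exact (Complex.conj_eq_iff_re.1 h3).symm
    have h3 : 0 ≤ (inner ℂ z (A z)).re := hA0.re_inner_nonneg_right z
    have h4 : (inner ℂ z (A z)).re ≤ ‖z‖ ^ 2 := by
      have := hA1.re_inner_nonneg_right z
      rw [_root_.sub_apply, one_apply_eq_self, inner_sub_right, map_sub, hzz] at this
      simp only [RCLike.re_eq_complex_re, Complex.ofReal_re] at this
      linarith
    refine hs ((inner ℂ z (A z)).re / ‖z‖ ^ 2) ⟨by positivity, by rw [div_le_one hnz]; exact h4⟩ ?_
    rw [sub_eq_zero]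
    push_cast
    rw [eq_div_iff (by exact_mod_cast hnz.ne')]
    rw [← hzreal, ← h2]; push_cast; ring
  refine ⟨hDne, D⁻¹ • (v + y), ?_, ?_⟩
  · rw [map_smul, smul_comm, ← smul_sub, key, smul_smul, inv_mul_cancel₀ hDne, one_smul]
  · rw [inner_smul_right, inner_add_right, hvy, hvv, add_zero, div_eq_inv_mul]

end W_MP_e98908_an
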